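import Pool.Agent.W2helper70.CG.Num

set_option autoImplicit false

/-!
Asymptotic estimates.
-/

namespace Pool.Agent.W2helper70.CG

open MeasureTheory ProbabilityTheory Finset Filter
open scoped ENNReal Topology

theorem tendsto_logn : Tendsto (fun n : ℕ => Real.log n) atTop atTop :=
  Real.tendsto_log_atTop.comp tendsto_natCast_atTop_atTop

theorem ev_log (x : ℝ) : ∀ᶠ n : ℕ in atTop, x ≤ Real.log n := tendsto_logn.eventually_ge_atTop x

theorem ev_log_pow (k : ℕ) (x : ℝ) : ∀ᶠ n : ℕ in atTop, x * Real.log n ^ k ≤ n := by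
  have h1 := (Real.isLittleO_pow_log_id_atTop (n := k)).def (show (0 : ℝ) < 1 / (|x| + 1) by positivity)
  have h2 := tendsto_natCast_atTop_atTop.eventually h1
  filter_upwards [h2, ev_log 0] with n hn h0
  have h3 : (0 : ℝ) ≤ Real.log n ^ k := pow_nonneg h0 k
  rw [Real.norm_of_nonneg h3, id, Real.norm_of_nonneg (Nat.cast_nonneg n)] at hn
  have h4 : (|x| + 1) * Real.log n ^ k ≤ n := by
    rw [one_div, inv_mul_eq_div, le_div_iff₀ (by positivity)] at hn
    linarith
  have h5 : x * Real.log n ^ k ≤ (|x| + 1) * Real.log n ^ k := by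
    apply mul_le_mul_of_nonneg_right _ h3
    have := le_abs_self x
    linarith
  linarith

theorem theta {κ : ℝ} (hκ : 0 < κ) {M : ℕ} (hM : 0 < M) {A D : ℕ} (hA : 0 < A) (hD : 0 < D) :
    ∃ c : ℝ, 0 < c ∧ ∀ᶠ n : ℕ in atTop, ∃ L : ℕ, ∀ p, n ≤ p ^ A → p ≤ n ^ D →
      ∫⁻ ω, uu M L p ω ∂(law κ) ≤ ENNReal.ofReal (1 - c / Real.log n) := by
  have hA' : (0 : ℝ) < A := by exact_mod_cast hA
  have hM' : (0 : ℝ) < M := by exact_mod_cast hM
  refine ⟨κ / (16 * A * M * (D + 1) ^ 2), by positivity, ?_⟩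
  filter_upwards [ev_log (2 * A * κ), ev_log κ, ev_log (8 * A * κ * M), ev_log 1, ev_log_pow 1 (1 / (2 * A * κ) + 2),
    eventually_ge_atTop 3] with n h1 h2 h3 h4 h5 h6
  set l : ℝ := Real.log n with hl
  have hl0 : 0 < l := by linarith
  have hn0 : (0 : ℝ) < n := by exact_mod_cast (by omega : 0 < n)
  have hL0 : 0 ≤ l / (2 * A * κ) := by positivity
  refine ⟨⌊l / (2 * A * κ)⌋₊, fun p hp hpD => ?_⟩
  set L : ℕ := ⌊l / (2 * A * κ)⌋₊ with hLdef
  have hL1 : (L : ℝ) ≤ l / (2 * A * κ) := Nat.floor_le hL0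
  have hL2 : l / (2 * A * κ) < L + 1 := Nat.lt_floor_add_one _
  have hLpos : 0 < L := by
    rw [hLdef, Nat.floor_pos, le_div_iff₀ (by positivity)]
    linarith
  have hLpos' : (0 : ℝ) < L := by exact_mod_cast hLpos
  have hp2 : 2 ≤ p := by
    by_contra hc
    have : p ^ A ≤ 1 := by
      calc p ^ A ≤ 1 ^ A := Nat.pow_le_pow_left (by omega) A
        _ = 1 := one_pow A
    omega
  have hLn : L + 2 ≤ n := by
    have h7 : (L : ℝ) + 2 ≤ n := by
      rw [pow_one] at h5
      have h8 : (1 / (2 * A * κ) + 2) * l = l / (2 * A * κ) + 2 * l := by ring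
      nlinarith
    exact_mod_cast h7
  have hbig : p + L + 2 ≤ n ^ (D + 1) := by
    have h7 : n ≤ n ^ D := Nat.le_self_pow (by omega) n
    calc p + L + 2 ≤ n ^ D + n ^ D := by omega
      _ = n ^ D * 2 := by ring
      _ ≤ n ^ D * n := Nat.mul_le_mul_left _ (by omega)
      _ = n ^ (D + 1) := by ring
  have hlogp : l ≤ A * Real.log p := by
    have h7 : (n : ℝ) ≤ (p : ℝ) ^ A := by exact_mod_cast hp
    have h8 := Real.log_le_log hn0 h7
    rwa [Real.log_pow] at h8
  have hlogj : ∀ j, p < j → l ≤ A * Real.log j := by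
    intro j hj
    refine hlogp.trans (mul_le_mul_of_nonneg_left ?_ hA'.le)
    exact Real.log_le_log (by exact_mod_cast (by omega : 0 < p)) (by exact_mod_cast hj.le)
  have hd : (2 : ℝ) * (κ / (16 * A * M * (D + 1) ^ 2) / l) ≤ ((L / M : ℕ) : ℝ) * ((κ / ((D + 1) * l)) ^ 2 / 2) := by
    have h7 : (L : ℝ) / M - 1 ≤ ((L / M : ℕ) : ℝ) := by
      have h8 : (L : ℝ) < M * ((L / M : ℕ) : ℝ) + M := by
        have := Nat.lt_mul_div_succ L hM
        rw [Nat.mul_add, mul_one] at this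
        exact_mod_cast this
      rw [sub_le_iff_le_add, div_le_iff₀ hM']
      linarith
    have h8 : l / (4 * A * κ * M) ≤ (L : ℝ) / M - 1 := by
      have h9 : l / (4 * A * κ * M) = l / (2 * A * κ) / M / 2 := by
        field_simp; ring
      have h10 : (1 : ℝ) + M ≤ l / (2 * A * κ) / 2 := by
        rw [div_div, le_div_iff₀ (by positivity)]
        have hM1 : (1 : ℝ) ≤ M := by exact_mod_cast hM
        nlinarith [mul_pos hA' hκ]
      rw [h9, le_sub_iff_add_le, le_div_iff₀ hM']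
      have h11 : (l / (2 * A * κ) / M / 2 + 1) * M = l / (2 * A * κ) / 2 + M := by
        field_simp
      rw [h11]
      linarith
    calc (2 : ℝ) * (κ / (16 * A * M * (D + 1) ^ 2) / l)
        = l / (4 * A * κ * M) * ((κ / ((D + 1) * l)) ^ 2 / 2) := by
          field_simp; ring
      _ ≤ _ := by
          apply mul_le_mul_of_nonneg_right (h8.trans h7)
          positivity
  refine int_uu κ M L p (by positivity) ((ENNReal.ofReal_le_ofReal hd).trans ?_)
  refine law_F hκ.le hM hLpos (by positivity) ?_ ?_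
  · intro j hj _
    have h7 := hlogj j hj
    have hj0 : 0 < Real.log j := by
      by_contra hc
      have := mul_nonpos_of_nonneg_of_nonpos hA'.le (not_lt.1 hc)
      linarith
    refine (min_le_right _ _).trans ?_
    rw [div_le_div_iff₀ hj0 (by positivity)]
    have h8 : (L : ℝ) * (2 * A * κ) ≤ l := by
      rwa [le_div_iff₀ (by positivity)] at hL1
    nlinarith
  · intro j hj hj'
    have h7 := hlogj j hj
    have hj0 : 0 < Real.log j := by
      by_contra hc
      have := mul_nonpos_of_nonneg_of_nonpos hA'.le (not_lt.1 hc)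
      linarith
    have h8 : Real.log j ≤ (D + 1) * l := by
      have h9 : (j : ℝ) ≤ (n : ℝ) ^ (D + 1) := by exact_mod_cast hj'.trans hbig
      have h10 := Real.log_le_log (by exact_mod_cast (by omega : 0 < j)) h9
      rw [Real.log_pow] at h10
      push_cast at h10
      exact h10
    refine le_min ?_ ?_
    · rw [div_le_one (by positivity)]
      have : (0 : ℝ) ≤ D := Nat.cast_nonneg D
      nlinarith
    · exact div_le_div_of_nonneg_left hκ.le hj0 h8

theorem q_small {κ : ℝ} (hκ : 0 < κ) {M : ℕ} (hM : 0 < M) {B : ℕ} (hB : 0 < B) :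
    ∀ᶠ n : ℕ in atTop, law κ (Qe M (n ^ B) (n ^ (2 * B + 1)))ᶜ ≤ ENNReal.ofReal (1 / (n : ℝ) ^ 2) := by
  have hM' : (0 : ℝ) < M := by exact_mod_cast hM
  filter_upwards [ev_log κ, ev_log 1, ev_log_pow 2 (M * ((B + 3) * (2 * B + 1) / κ + 1)), eventually_ge_atTop 3,
    ev_log_pow 1 1] with n h1 h2 h3 h4 h5
  set l : ℝ := Real.log n with hl
  have hl0 : 0 < l := by linarith
  have hn0 : (0 : ℝ) < n := by exact_mod_cast (by omega : 0 < n)
  have hnB : n ≤ n ^ B := Nat.le_self_pow (by omega) n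
  have key := law_Qe hκ.le hM (b := n ^ B) (w := n ^ B) (X := n ^ (2 * B + 1)) (by omega) ?_
    (a := κ / ((2 * B + 1) * l)) (by positivity) ?_
  · refine key.trans (ENNReal.ofReal_le_ofReal ?_)
    have h7 : (n : ℝ) / M - 1 ≤ ((n ^ B / M : ℕ) : ℝ) := by
      have h8 : ((n ^ B : ℕ) : ℝ) < M * ((n ^ B / M : ℕ) : ℝ) + M := by
        have := Nat.lt_mul_div_succ (n ^ B) hM
        rw [Nat.mul_add, mul_one] at this
        exact_mod_cast this
      have h9 : (n : ℝ) ≤ ((n ^ B : ℕ) : ℝ) := by exact_mod_cast hnB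
      rw [sub_le_iff_le_add, div_le_iff₀ hM']
      linarith
    have h8 : ((B : ℝ) + 3) * l ≤ κ / ((2 * B + 1) * l) * ((n ^ B / M : ℕ) : ℝ) := by
      have h9 : ((B : ℝ) + 3) * (2 * B + 1) / κ * l ^ 2 ≤ (n : ℝ) / M - 1 := by
        rw [le_sub_iff_add_le, le_div_iff₀ hM']
        have h10 : (1 : ℝ) ≤ l ^ 2 := by nlinarith
        nlinarith
      calc ((B : ℝ) + 3) * l = κ / ((2 * B + 1) * l) * (((B : ℝ) + 3) * (2 * B + 1) / κ * l ^ 2) := by
            field_simp
        _ ≤ κ / ((2 * B + 1) * l) * ((n ^ B / M : ℕ) : ℝ) := by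
            apply mul_le_mul_of_nonneg_left (h9.trans h7)
            positivity
    have h9 : Real.exp (-(κ / ((2 * B + 1) * l) * ((n ^ B / M : ℕ) : ℝ))) ≤ 1 / (n : ℝ) ^ (B + 3) := by
      calc Real.exp (-(κ / ((2 * B + 1) * l) * ((n ^ B / M : ℕ) : ℝ)))
          ≤ Real.exp (-(((B : ℝ) + 3) * l)) := Real.exp_le_exp.2 (by linarith)
        _ = 1 / (n : ℝ) ^ (B + 3) := by
            rw [Real.exp_neg, one_div, hl, show ((B : ℝ) + 3) * Real.log n = Real.log ((n : ℝ) ^ (B + 3)) by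
              rw [Real.log_pow]; push_cast; ring]
            rw [Real.exp_log (by positivity)]
    have h10 : (((n ^ B : ℕ) : ℝ) + 1) ≤ (n : ℝ) ^ (B + 1) := by
      have : n ^ B + 1 ≤ n ^ (B + 1) := by
        have h11 : 1 ≤ n ^ B := Nat.one_le_pow _ _ (by omega)
        calc n ^ B + 1 ≤ n ^ B * 2 := by omega
          _ ≤ n ^ B * n := Nat.mul_le_mul_left _ (by omega)
          _ = n ^ (B + 1) := by ring
      exact_mod_cast this
    calc (((n ^ B : ℕ) : ℝ) + 1) * Real.exp (-(κ / ((2 * B + 1) * l) * ((n ^ B / M : ℕ) : ℝ)))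
        ≤ (n : ℝ) ^ (B + 1) * (1 / (n : ℝ) ^ (B + 3)) := by gcongr
      _ = 1 / (n : ℝ) ^ 2 := by
          rw [show B + 3 = (B + 1) + 2 by ring, pow_add _ (B + 1) 2]
          field_simp
  · have h11 : 1 ≤ n ^ B := Nat.one_le_pow _ _ (by omega)
    calc (n ^ B + 2) * n ^ B ≤ (n * n ^ B) * n ^ B := by
          apply Nat.mul_le_mul_right
          nlinarith
      _ = n ^ (2 * B + 1) := by ring
      _ ≤ _ := Nat.le_succ _
  · intro j hj hj'
    have hj0 : 0 < Real.log j := Real.log_pos (by exact_mod_cast (by omega : 1 < j))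
    have h8 : Real.log j ≤ (2 * B + 1) * l := by
      have h9 : (j : ℝ) ≤ (n : ℝ) ^ (2 * B + 1) := by exact_mod_cast hj'
      have h10 := Real.log_le_log (by exact_mod_cast (by omega : 0 < j)) h9
      rw [Real.log_pow] at h10
      push_cast at h10
      exact h10
    refine le_min ?_ ?_
    · rw [div_le_one (by positivity)]
      have : (0 : ℝ) ≤ B := Nat.cast_nonneg B
      nlinarith
    · exact div_le_div_of_nonneg_left hκ.le hj0 h8

/-- Borel–Cantelli -/
theorem bc (κ : ℝ) {Bad : ℕ → Set Om} {C : ℝ} (h : ∀ᶠ n : ℕ in atTop, law κ (Bad n) ≤ ENNReal.ofReal (C / (n : ℝ) ^ 2)) :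
    ∀ᵐ ω ∂(law κ), ∀ᶠ n : ℕ in atTop, ω ∉ Bad n := by
  obtain ⟨N, hN⟩ := eventually_atTop.1 h
  have h1 : ∑' n, law κ (Bad (n + N)) ≠ ∞ := by
    have h2 : Summable fun n : ℕ => C / ((n + N : ℕ) : ℝ) ^ 2 := by
      have h3 : Summable fun n : ℕ => C / (n : ℝ) ^ 2 := by
        simp only [div_eq_mul_inv]
        exact (Real.summable_nat_pow_inv.2 (by norm_num)).mul_left C
      exact (summable_nat_add_iff N).2 h3
    have h3 : ∑' n, ENNReal.ofReal (C / ((n + N : ℕ) : ℝ) ^ 2) ≠ ∞ := h2.tsum_ofReal_ne_top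
    refine ne_top_of_le_ne_top h3 (ENNReal.tsum_le_tsum fun n => ?_)
    exact hN (n + N) (by omega)
  filter_upwards [ae_eventually_notMem h1] with ω hω
  rw [eventually_atTop] at hω ⊢
  obtain ⟨K, hK⟩ := hω
  refine ⟨K + N, fun n hn => ?_⟩
  have := hK (n - N) (by omega)
  rwa [Nat.sub_add_cancel (by omega)] at this

end Pool.Agent.W2helper70.CG
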