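import Mathlib

set_option autoImplicit false

/-!
The random subsets of the numbers coprime to `M`: the number `n` is kept with probability `min 1 (κ / log n)`,
independently. Elements with a given index; adapted functions; the recursion for the events `P_i + 2 ∈ R`.
-/

namespace Pool.Agent.W2helper70.CG

open MeasureTheory ProbabilityTheory Finset Filter
open scoped ENNReal

/-- the outcomes: which numbers are kept -/
abbrev Om : Type := ℕ → Bool

/-- the law of a coin: `true` with probability `t` -/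
noncomputable def coin (t : ℝ) : Measure Bool :=
  ENNReal.ofReal t • Measure.dirac true + (1 - ENNReal.ofReal t) • Measure.dirac false

/-- the probability with which `n` is kept -/
noncomputable def rho (κ : ℝ) (n : ℕ) : ℝ := min 1 (κ / Real.log n)

theorem rho_le (κ : ℝ) (n : ℕ) : rho κ n ≤ 1 := min_le_left _ _

theorem rho_nonneg {κ : ℝ} (hκ : 0 ≤ κ) (n : ℕ) : 0 ≤ rho κ n :=
  le_min zero_le_one (div_nonneg hκ (Real.log_natCast_nonneg n))

theorem coin_true (t : ℝ) : coin t {true} = ENNReal.ofReal t := by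
  unfold coin
  simp

theorem coin_false (t : ℝ) : coin t {false} = 1 - ENNReal.ofReal t := by
  unfold coin
  simp

instance (κ : ℝ) (n : ℕ) : IsProbabilityMeasure (coin (rho κ n)) := by
  refine ⟨?_⟩
  unfold coin
  have h : ENNReal.ofReal (rho κ n) ≤ 1 := ENNReal.ofReal_le_one.2 (rho_le κ n)
  simp only [Measure.coe_add, Measure.coe_smul, Pi.add_apply, Pi.smul_apply, measure_univ, smul_eq_mul, mul_one]
  exact add_tsub_cancel_of_le h

/-- the law of the random set -/
noncomputable def law (κ : ℝ) : Measure Om := Measure.infinitePi fun n : ℕ => coin (rho κ n)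

instance (κ : ℝ) : IsProbabilityMeasure (law κ) := by
  unfold law; infer_instance

theorem law_pi (κ : ℝ) (S : Finset ℕ) (t : ℕ → Bool) :
    law κ {ω | ∀ j ∈ S, ω j = t j} = ∏ j ∈ S, coin (rho κ j) {t j} := by
  have h1 : {ω : Om | ∀ j ∈ S, ω j = t j} = Set.pi (S : Set ℕ) fun j => {t j} := by
    ext ω
    simp [Set.mem_pi]
  rw [h1]
  unfold law
  exact Measure.infinitePi_pi _ (fun j _ => MeasurableSet.singleton _)

theorem indep (κ : ℝ) : iIndepFun (fun (n : ℕ) (ω : Om) => ω n) (law κ) := by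
  unfold law
  exact iIndepFun_infinitePi (X := fun _ x => x) (fun _ => measurable_id)

/-- `f` depends only on the coordinates in `S` -/
def DetF (S : Finset ℕ) {β : Type} (f : Om → β) : Prop := ∀ ω ω' : Om, (∀ i ∈ S, ω i = ω' i) → f ω = f ω'

theorem DetF.factor {S : Finset ℕ} {β : Type} {f : Om → β} (hf : DetF S f) :
    ∃ g : (S → Bool) → β, f = g ∘ fun ω (i : S) => ω i := by
  refine ⟨fun x => f fun i => if h : i ∈ S then x ⟨i, h⟩ else false, ?_⟩
  funext ω
  refine hf _ _ fun i hi => ?_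
  simp [hi]

theorem meas_restrict (S : Finset ℕ) : Measurable fun (ω : Om) (i : S) => ω i :=
  measurable_pi_lambda _ fun _ => measurable_pi_apply _

theorem DetF.meas {S : Finset ℕ} {f : Om → ℝ≥0∞} (hf : DetF S f) : Measurable f := by
  obtain ⟨g, rfl⟩ := hf.factor
  exact (measurable_of_countable g).comp (meas_restrict S)

theorem DetF.measSet {S : Finset ℕ} {A : Set Om} (hA : DetF S fun ω => ω ∈ A) : MeasurableSet A := by
  obtain ⟨g, hg⟩ := hA.factor
  have h1 : A = (fun (ω : Om) (i : S) => ω i) ⁻¹' {x | g x} := by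
    ext ω
    exact iff_of_eq (congrFun hg ω)
  rw [h1]
  exact (meas_restrict S) (Set.to_countable _).measurableSet

theorem lint_mul (κ : ℝ) {S T : Finset ℕ} (hST : Disjoint S T) {f g : Om → ℝ≥0∞} (hf : DetF S f) (hg : DetF T g) :
    ∫⁻ ω, f ω * g ω ∂(law κ) = (∫⁻ ω, f ω ∂(law κ)) * ∫⁻ ω, g ω ∂(law κ) := by
  obtain ⟨f', hf'⟩ := hf.factor
  obtain ⟨g', hg'⟩ := hg.factor
  have h1 := (indep κ).indepFun_finset S T hST (fun i => measurable_pi_apply i)
  have h2 := h1.comp (measurable_of_countable f') (measurable_of_countable g')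
  have h3 := lintegral_mul_eq_lintegral_mul_lintegral_of_indepFun hf.meas hg.meas (by rw [hf', hg']; exact h2)
  simpa using h3

/-! ### Elements -/

/-- `n` is an element of the random set -/
def El (M : ℕ) (ω : Om) (n : ℕ) : Prop := n.Coprime M ∧ ω n = true

instance (M : ℕ) (ω : Om) : DecidablePred (El M ω) := fun n => by
  unfold El; infer_instance

/-- the number of the elements below `p` -/
def cnt (M : ℕ) (ω : Om) (p : ℕ) : ℕ := Nat.count (El M ω) p

/-- `p` is the element with index `i`, counted from `0` -/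
def At (M i p : ℕ) : Set Om := {ω | El M ω p ∧ cnt M ω p = i}

theorem cnt_congr {M : ℕ} {ω ω' : Om} {p : ℕ} (h : ∀ j < p, ω j = ω' j) : cnt M ω p = cnt M ω' p := by
  unfold cnt
  rw [Nat.count_eq_card_filter_range, Nat.count_eq_card_filter_range]
  congr 1
  refine filter_congr fun j hj => ?_
  unfold El
  rw [h j (mem_range.1 hj)]

theorem at_congr {M i p : ℕ} {ω ω' : Om} (h : ∀ j ≤ p, ω j = ω' j) (hω : ω ∈ At M i p) : ω' ∈ At M i p := by
  refine ⟨⟨hω.1.1, (h p le_rfl) ▸ hω.1.2⟩, ?_⟩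
  rw [← cnt_congr fun j hj => h j hj.le]
  exact hω.2

theorem at_unique {M i p q : ℕ} {ω : Om} (hp : ω ∈ At M i p) (hq : ω ∈ At M i q) : p = q := by
  rcases lt_trichotomy p q with h | h | h
  · have := Nat.count_strict_mono hp.1 h
    have h1 := hp.2; have h2 := hq.2
    unfold cnt at h1 h2
    omega
  · exact h
  · have := Nat.count_strict_mono hq.1 h
    have h1 := hp.2; have h2 := hq.2
    unfold cnt at h1 h2
    omega

theorem exists_at {M i N : ℕ} {ω : Om} (h : i < cnt M ω N) : ∃ p < N, ω ∈ At M i p := by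
  induction N with
  | zero => simp [cnt] at h
  | succ N ih =>
    unfold cnt at h
    rw [Nat.count_succ] at h
    by_cases h1 : i < cnt M ω N
    · obtain ⟨p, hp, hp'⟩ := ih h1
      exact ⟨p, by omega, hp'⟩
    · have h2 : cnt M ω N ≤ i := by omega
      unfold cnt at h2
      split_ifs at h with h3
      · exact ⟨N, by omega, h3, by unfold cnt; omega⟩
      · omega

theorem at_le {M i p : ℕ} {ω : Om} (h : ω ∈ At M i p) : i ≤ p := by
  have h1 := h.2
  unfold cnt at h1
  rw [← h1]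
  exact Nat.count_le _

theorem at_lt {M i j p q : ℕ} {ω : Om} (hp : ω ∈ At M i p) (hq : ω ∈ At M j q) (hij : i < j) : p < q := by
  by_contra h
  have h1 := Nat.count_monotone (El M ω) (not_lt.1 h)
  have h2 := hp.2; have h3 := hq.2
  unfold cnt at h2 h3
  omega

theorem exists_at_of_le {M i j q : ℕ} {ω : Om} (hq : ω ∈ At M j q) (hij : i ≤ j) : ∃ p ≤ q, ω ∈ At M i p := by
  rcases hij.lt_or_eq with h | h
  · obtain ⟨p, hp, hp'⟩ := exists_at (M := M) (ω := ω) (i := i) (N := q) (by rw [hq.2]; exact h)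
    exact ⟨p, hp.le, hp'⟩
  · exact ⟨q, le_rfl, h ▸ hq⟩

theorem El.odd {M : ℕ} (hM : Even M) {ω : Om} {n : ℕ} (h : El M ω n) : Odd n := by
  rw [← Nat.not_even_iff_odd]
  intro h2
  have h3 : 2 ∣ Nat.gcd n M := Nat.dvd_gcd h2.two_dvd hM.two_dvd
  have h4 : Nat.gcd n M = 1 := h.1
  omega

theorem two_cnt {M : ℕ} (hM : Even M) (ω : Om) (p : ℕ) : 2 * cnt M ω p ≤ p := by
  induction p using Nat.twoStepInduction with
  | zero => simp [cnt]
  | one =>
    have : ¬ El M ω 0 := fun h => by simpa using h.odd hM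
    simp [cnt, Nat.count_succ, this]
  | more n ih _ =>
    unfold cnt at ih ⊢
    rw [Nat.count_succ, Nat.count_succ]
    by_cases h1 : El M ω n
    · have h2 : ¬ El M ω (n + 1) := fun h => by
        have := h.odd hM; have := h1.odd hM
        rw [Nat.odd_iff] at *
        omega
      rw [if_pos h1, if_neg h2]; omega
    · rw [if_neg h1]; split_ifs <;> omega

/-- the element with index `i` is followed by another one at distance `2` -/
def E (M i : ℕ) (ω : Om) : Prop := ∃ r, ω ∈ At M i r ∧ El M ω (r + 2)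

/-- the element with index `i` is at most `X` -/
def Qe (M i X : ℕ) : Set Om := {ω | ∃ p ≤ X, ω ∈ At M i p}

theorem Qe_anti {M i j X : ℕ} (hij : i ≤ j) : Qe M j X ⊆ Qe M i X := by
  rintro ω ⟨p, hp, hp'⟩
  obtain ⟨r, hr, hr'⟩ := exists_at_of_le hp' hij
  exact ⟨r, hr.trans hp, hr'⟩

/-- `h` is known when the element with index `i` is known -/
def Adapt (M i : ℕ) {β : Type} (h : Om → β) : Prop :=
  ∀ (p : ℕ) (ω ω' : Om), (∀ j ≤ p, ω j = ω' j) → ω ∈ At M i p → h ω = h ω'

theorem Adapt.mono {M i j : ℕ} {β : Type} {h : Om → β} (hh : Adapt M i h) (hij : i ≤ j) : Adapt M j h := by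
  intro p ω ω' hω hp
  obtain ⟨r, hr, hr'⟩ := exists_at_of_le hp hij
  exact hh r ω ω' (fun k hk => hω k (hk.trans hr)) hr'

theorem adapt_E {M : ℕ} (hM : Even M) (i : ℕ) : Adapt M (i + 1) (E M i) := by
  have key : ∀ (p : ℕ) (ω ω' : Om), (∀ j ≤ p, ω j = ω' j) → ω ∈ At M (i + 1) p → E M i ω → E M i ω' := by
    rintro p ω ω' hω hp ⟨r, hr, hr2⟩
    have h1 : r < p := at_lt hr hp (by omega)
    have h2 : r + 2 ≤ p := by
      have h3 := hr.1.odd hM
      have h4 := hp.1.odd hM
      rw [Nat.odd_iff] at h3 h4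
      omega
    refine ⟨r, at_congr (fun j hj => hω j (by omega)) hr, hr2.1, ?_⟩
    rw [← hω (r + 2) h2]
    exact hr2.2
  intro p ω ω' hω hp
  refine propext ⟨key p ω ω' hω hp, key p ω' ω (fun j hj => (hω j hj).symm) (at_congr hω hp)⟩

open Classical in
/-- the weight `1 / 2` if the element with index `i` is followed by another one at distance `2` -/
noncomputable def wt (M i : ℕ) (ω : Om) : ℝ≥0∞ := if E M i ω then 2⁻¹ else 1

theorem adapt_wt {M : ℕ} (hM : Even M) (i : ℕ) : Adapt M (i + 1) (wt M i) := by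
  intro p ω ω' hω hp
  unfold wt
  rw [adapt_E hM i p ω ω' hω hp]

theorem adapt_mul {M i : ℕ} {f g : Om → ℝ≥0∞} (hf : Adapt M i f) (hg : Adapt M i g) :
    Adapt M i fun ω => f ω * g ω := by
  intro p ω ω' hω hp
  show f ω * g ω = f ω' * g ω'
  rw [hf p ω ω' hω hp, hg p ω ω' hω hp]

theorem adapt_prod {M : ℕ} (hM : Even M) {i : ℕ} (I : Finset ℕ) (hI : ∀ j ∈ I, j + 1 ≤ i) :
    Adapt M i fun ω => ∏ j ∈ I, wt M j ω := by
  intro p ω ω' hω hp
  exact prod_congr rfl fun j hj => (adapt_wt hM j).mono (hI j hj) p ω ω' hω hp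

/-- after `p` the next element is `≡ -1` modulo `M`, at distance at most `L`, and is followed by another one at
distance `2` -/
def F (M L p : ℕ) : Set Om :=
  {ω | ∃ q, p < q ∧ q ≤ p + L ∧ M ∣ q + 1 ∧ ω q = true ∧ ω (q + 2) = true ∧ ∀ j, p < j → j < q → ω j = false}

theorem det_F (M L p : ℕ) : DetF (Ioc p (p + L + 2)) fun ω => ω ∈ F M L p := by
  have key : ∀ ω ω' : Om, (∀ i ∈ Ioc p (p + L + 2), ω i = ω' i) → ω ∈ F M L p → ω' ∈ F M L p := by
    rintro ω ω' h ⟨q, h1, h2, h3, h4, h5, h6⟩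
    refine ⟨q, h1, h2, h3, ?_, ?_, fun j hj hj' => ?_⟩
    · rw [← h q (mem_Ioc.2 ⟨h1, by omega⟩)]; exact h4
    · rw [← h (q + 2) (mem_Ioc.2 ⟨by omega, by omega⟩)]; exact h5
    · rw [← h j (mem_Ioc.2 ⟨hj, by omega⟩)]; exact h6 j hj hj'
  intro ω ω' h
  exact propext ⟨key ω ω' h, key ω' ω fun i hi => (h i hi).symm⟩

theorem coprime_of_dvd {M q : ℕ} (h : M ∣ q + 1) : q.Coprime M ∧ (q + 2).Coprime M := by
  obtain ⟨c, hc⟩ := h
  constructor
  · have h1 : Nat.Coprime q (q + 1) := by simp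
    exact Nat.Coprime.coprime_dvd_right ⟨c, hc⟩ h1
  · have h1 : Nat.Coprime (q + 2) (q + 1) := by
      rw [show q + 2 = (q + 1) + 1 by ring]; simp
    exact Nat.Coprime.coprime_dvd_right ⟨c, hc⟩ h1

theorem E_of_F {M L p i : ℕ} {ω : Om} (hp : ω ∈ At M i p) (hF : ω ∈ F M L p) : E M (i + 1) ω := by
  obtain ⟨q, h1, h2, h3, h4, h5, h6⟩ := hF
  obtain ⟨c1, c2⟩ := coprime_of_dvd h3
  refine ⟨q, ⟨⟨c1, h4⟩, ?_⟩, c2, h5⟩
  have h7 : cnt M ω q = cnt M ω (p + 1) := by
    unfold cnt
    obtain ⟨d, rfl⟩ := Nat.exists_eq_add_of_lt h1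
    rw [show p + d + 1 = p + 1 + d by ring, Nat.count_add]
    have h8 : Nat.count (fun k => El M ω (p + 1 + k)) d = 0 := by
      rw [Nat.count_eq_card_filter_range, card_eq_zero, filter_eq_empty_iff]
      intro k hk hE
      have := h6 (p + 1 + k) (by omega) (by have := mem_range.1 hk; omega)
      rw [hE.2] at this
      exact Bool.noConfusion this
    rw [h8, add_zero]
  rw [h7]
  unfold cnt
  rw [Nat.count_succ, if_pos hp.1]
  have := hp.2
  unfold cnt at this
  omega

open Classical in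
/-- the weight `1 / 2` on `F` -/
noncomputable def uu (M L p : ℕ) (ω : Om) : ℝ≥0∞ := if ω ∈ F M L p then 2⁻¹ else 1

theorem det_uu (M L p : ℕ) : DetF (Ioc p (p + L + 2)) (uu M L p) := by
  intro ω ω' h
  unfold uu
  rw [show (ω ∈ F M L p) = (ω' ∈ F M L p) from det_F M L p ω ω' h]

theorem wt_le_uu {M L p i : ℕ} {ω : Om} (hp : ω ∈ At M i p) : wt M (i + 1) ω ≤ uu M L p ω := by
  unfold wt uu
  by_cases h : ω ∈ F M L p
  · rw [if_pos h, if_pos (E_of_F hp h)]
  · rw [if_neg h]
    split_ifs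
    · exact ENNReal.inv_le_one.2 (by norm_num)
    · exact le_rfl

open Classical in
/-- **The step.** -/
theorem step (κ : ℝ) {M i X L : ℕ} {h : Om → ℝ≥0∞} (hh : Adapt M i h) {θ : ℝ≥0∞}
    (hθ : ∀ p, i ≤ p → p ≤ X → ∫⁻ ω, uu M L p ω ∂(law κ) ≤ θ) :
    ∫⁻ ω, h ω * wt M (i + 1) ω * (Qe M i X).indicator 1 ω ∂(law κ) ≤
      θ * ∫⁻ ω, h ω * (Qe M i X).indicator 1 ω ∂(law κ) := by
  have hsum : ∀ ω, (Qe M i X).indicator (1 : Om → ℝ≥0∞) ω = ∑ p ∈ range (X + 1), (At M i p).indicator 1 ω := by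
    intro ω
    by_cases h1 : ω ∈ Qe M i X
    · obtain ⟨p, hp, hp'⟩ := h1
      rw [Set.indicator_of_mem (show ω ∈ Qe M i X from ⟨p, hp, hp'⟩), sum_eq_single p]
      · rw [Set.indicator_of_mem hp']
      · intro q _ hq
        exact Set.indicator_of_notMem (fun h2 => hq (at_unique h2 hp')) _
      · intro h2
        exact absurd (mem_range.2 (by omega)) h2
    · rw [Set.indicator_of_notMem h1]
      symm
      refine sum_eq_zero fun p hp => Set.indicator_of_notMem (fun h2 => h1 ⟨p, ?_, h2⟩) _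
      have := mem_range.1 hp
      omega
  have hdet : ∀ p, DetF (range (p + 1)) fun ω => h ω * (At M i p).indicator 1 ω := by
    intro p ω ω' hω
    have hω' : ∀ j ≤ p, ω j = ω' j := fun j hj => hω j (mem_range.2 (by omega))
    show h ω * (At M i p).indicator 1 ω = h ω' * (At M i p).indicator 1 ω'
    by_cases h1 : ω ∈ At M i p
    · rw [hh p ω ω' hω' h1, Set.indicator_of_mem h1, Set.indicator_of_mem (at_congr hω' h1)]
      rfl
    · have h2 : ω' ∉ At M i p := fun h2 => h1 (at_congr (fun j hj => (hω' j hj).symm) h2)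
      rw [Set.indicator_of_notMem h1, Set.indicator_of_notMem h2, mul_zero, mul_zero]
  calc ∫⁻ ω, h ω * wt M (i + 1) ω * (Qe M i X).indicator 1 ω ∂(law κ)
      ≤ ∫⁻ ω, ∑ p ∈ range (X + 1), (h ω * (At M i p).indicator 1 ω) * uu M L p ω ∂(law κ) := by
        refine lintegral_mono fun ω => ?_
        rw [hsum ω, mul_sum]
        refine sum_le_sum fun p _ => ?_
        by_cases h1 : ω ∈ At M i p
        · rw [Set.indicator_of_mem h1, Pi.one_apply, mul_one, mul_one]
          gcongr
          exact wt_le_uu h1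
        · rw [Set.indicator_of_notMem h1, mul_zero]
          exact zero_le
    _ = ∑ p ∈ range (X + 1), ∫⁻ ω, (h ω * (At M i p).indicator 1 ω) * uu M L p ω ∂(law κ) := by
        rw [lintegral_finsetSum]
        intro p _
        exact (hdet p).meas.mul (det_uu M L p).meas
    _ = ∑ p ∈ range (X + 1), (∫⁻ ω, h ω * (At M i p).indicator 1 ω ∂(law κ)) * ∫⁻ ω, uu M L p ω ∂(law κ) := by
        refine sum_congr rfl fun p _ => ?_
        refine lint_mul κ ?_ (hdet p) (det_uu M L p)
        rw [disjoint_left]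
        intro j hj hj'
        have := mem_range.1 hj
        have := (mem_Ioc.1 hj').1
        omega
    _ ≤ ∑ p ∈ range (X + 1), (∫⁻ ω, h ω * (At M i p).indicator 1 ω ∂(law κ)) * θ := by
        refine sum_le_sum fun p hp => ?_
        by_cases h1 : i ≤ p
        · gcongr
          exact hθ p h1 (by have := mem_range.1 hp; omega)
        · have h2 : ∀ ω, h ω * (At M i p).indicator 1 ω = 0 := by
            intro ω
            rw [Set.indicator_of_notMem (fun h3 => h1 (at_le h3)), mul_zero]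
          simp only [h2, lintegral_zero, zero_mul, le_refl]
    _ = θ * ∫⁻ ω, h ω * (Qe M i X).indicator 1 ω ∂(law κ) := by
        rw [← sum_mul, mul_comm, ← lintegral_finsetSum _ fun p _ => (hdet p).meas]
        congr 1
        refine lintegral_congr fun ω => ?_
        rw [hsum ω, mul_sum]

/-- **The engine.** -/
theorem engine (κ : ℝ) {M : ℕ} (hM : Even M) {i X L : ℕ} {h : Om → ℝ≥0∞} (hh : Adapt M i h) {θ : ℝ≥0∞}
    (hθ : ∀ p, i ≤ p → p ≤ X → ∫⁻ ω, uu M L p ω ∂(law κ) ≤ θ) (I : Finset ℕ)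
    (hI : ∀ j ∈ I, i + 1 ≤ j) (hI2 : ∀ j ∈ I, ∀ j' ∈ I, j < j' → j + 2 ≤ j') :
    ∀ b, i ≤ b → (∀ j ∈ I, j ≤ b) →
    ∫⁻ ω, h ω * (∏ j ∈ I, wt M j ω) * (Qe M b X).indicator 1 ω ∂(law κ) ≤
      θ ^ I.card * ∫⁻ ω, h ω * (Qe M i X).indicator 1 ω ∂(law κ) := by
  have mono1 : ∀ {a b : ℕ}, a ≤ b → ∀ ω, (Qe M b X).indicator (1 : Om → ℝ≥0∞) ω ≤ (Qe M a X).indicator 1 ω := by
    intro a b hab ω
    exact Set.indicator_le_indicator_of_subset (Qe_anti hab) (fun _ => zero_le) ω
  induction I using Finset.induction_on_max with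
  | empty =>
    intro b hb _
    simp only [prod_empty, mul_one, card_empty, pow_zero, one_mul]
    refine lintegral_mono fun ω => ?_
    exact mul_le_mul_right (mono1 hb ω) _
  | insert a s has ih =>
    intro b hb hsb
    have ha1 : i + 1 ≤ a := hI a (mem_insert_self _ _)
    have hnot : a ∉ s := fun h => lt_irrefl _ (has a h)
    have ih' := ih (fun j hj => hI j (mem_insert_of_mem hj))
      (fun j hj j' hj' => hI2 j (mem_insert_of_mem hj) j' (mem_insert_of_mem hj')) (a - 1) (by omega)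
      (fun j hj => by have := has j hj; omega)
    have had : Adapt M (a - 1) fun ω => h ω * ∏ j ∈ s, wt M j ω := by
      refine adapt_mul (hh.mono (by omega)) (adapt_prod hM s fun j hj => ?_)
      have := hI2 j (mem_insert_of_mem hj) a (mem_insert_self _ _) (has j hj)
      omega
    have hst := step κ (X := X) (L := L) had (fun p hp hpX => hθ p (by omega) hpX)
    rw [show a - 1 + 1 = a by omega] at hst
    calc ∫⁻ ω, h ω * (∏ j ∈ insert a s, wt M j ω) * (Qe M b X).indicator 1 ω ∂(law κ)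
        ≤ ∫⁻ ω, h ω * (∏ j ∈ s, wt M j ω) * wt M a ω * (Qe M (a - 1) X).indicator 1 ω ∂(law κ) := by
          refine lintegral_mono fun ω => ?_
          rw [prod_insert hnot, mul_comm (wt M a ω), ← mul_assoc]
          exact mul_le_mul_right (mono1 (by have := hsb a (mem_insert_self _ _); omega) ω) _
      _ ≤ θ * ∫⁻ ω, h ω * (∏ j ∈ s, wt M j ω) * (Qe M (a - 1) X).indicator 1 ω ∂(law κ) := hst
      _ ≤ θ * (θ ^ s.card * ∫⁻ ω, h ω * (Qe M i X).indicator 1 ω ∂(law κ)) := by gcongr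
      _ = θ ^ (insert a s).card * ∫⁻ ω, h ω * (Qe M i X).indicator 1 ω ∂(law κ) := by
          rw [card_insert_of_notMem hnot, pow_succ]; ring

end Pool.Agent.W2helper70.CG
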