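import Pool.Agent.W2helper70.CG.Asy

set_option autoImplicit false

/-!
Deviations: the number of the indices in a set whose elements are followed by another one at distance `2`.
-/

namespace Pool.Agent.W2helper70.CG

open MeasureTheory ProbabilityTheory Finset Filter
open scoped ENNReal Topology

open Classical in
/-- the number of the indices in `I` whose elements are followed by another one at distance `2` -/
noncomputable def num (M : ℕ) (I : Finset ℕ) (ω : Om) : ℕ := (I.filter fun j => E M j ω).card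

theorem prod_wt (M : ℕ) (I : Finset ℕ) (ω : Om) : ∏ j ∈ I, wt M j ω = (2⁻¹ : ℝ≥0∞) ^ num M I ω := by
  classical
  unfold wt num
  rw [prod_ite, prod_const, prod_const_one, mul_one]

theorem num_mono {M : ℕ} {I I' : Finset ℕ} (h : I' ⊆ I) (ω : Om) : num M I' ω ≤ num M I ω := by
  classical
  exact card_le_card (filter_subset_filter _ h)

theorem num_le {M : ℕ} {I : Finset ℕ} (ω : Om) : num M I ω ≤ I.card := by
  classical
  exact card_filter_le _ _

theorem adapt_num {M : ℕ} (hM : Even M) {i : ℕ} (I : Finset ℕ) (hI : ∀ j ∈ I, j + 1 ≤ i) :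
    Adapt M i (num M I) := by
  classical
  intro p ω ω' hω hp
  unfold num
  congr 1
  refine filter_congr fun j hj => ?_
  rw [(adapt_E hM j).mono (hI j hj) p ω ω' hω hp]

theorem adapt_and {M i : ℕ} {f g : Om → Prop} (hf : Adapt M i f) (hg : Adapt M i g) :
    Adapt M i fun ω => f ω ∧ g ω := by
  intro p ω ω' hω hp
  show (f ω ∧ g ω) = (f ω' ∧ g ω')
  rw [hf p ω ω' hω hp, hg p ω ω' hω hp]

theorem adapt_comp {M i : ℕ} {β γ : Type} {f : Om → β} (hf : Adapt M i f) (g : β → γ) :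
    Adapt M i fun ω => g (f ω) := by
  intro p ω ω' hω hp
  show g (f ω) = g (f ω')
  rw [hf p ω ω' hω hp]

theorem adapt_const {M i : ℕ} {β : Type} (b : β) : Adapt M i fun _ => b := fun _ _ _ _ _ => rfl

theorem Qe_congr {M i X : ℕ} {ω ω' : Om} (h : ∀ j ≤ X, ω j = ω' j) (hω : ω ∈ Qe M i X) : ω' ∈ Qe M i X := by
  obtain ⟨p, hp, hp'⟩ := hω
  exact ⟨p, hp, at_congr (fun j hj => h j (hj.trans hp)) hp'⟩

/-- an adapted event on `Qe` is determined by finitely many coordinates -/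
theorem det_adapt {M i X : ℕ} {W : Set Om} (hW : Adapt M i fun ω => ω ∈ W) :
    DetF (range (X + 1)) fun ω => ω ∈ W ∩ Qe M i X := by
  have key : ∀ ω ω' : Om, (∀ j ∈ range (X + 1), ω j = ω' j) → ω ∈ W ∩ Qe M i X → ω' ∈ W ∩ Qe M i X := by
    rintro ω ω' h ⟨h1, h2⟩
    refine ⟨?_, Qe_congr (fun j hj => h j (mem_range.2 (by omega))) h2⟩
    obtain ⟨p, hp, hp'⟩ := h2
    have h3 : (ω ∈ W) = (ω' ∈ W) := hW p ω ω' (fun j hj => h j (mem_range.2 (by omega))) hp'
    exact h3.mp h1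
  intro ω ω' h
  exact propext ⟨key ω ω' h, key ω' ω fun i hi => (h i hi).symm⟩

theorem meas_adapt {M i X : ℕ} {W : Set Om} (hW : Adapt M i fun ω => ω ∈ W) : MeasurableSet (W ∩ Qe M i X) :=
  DetF.measSet (det_adapt hW)

theorem dev (κ : ℝ) {M : ℕ} (hM : Even M) {i X L b : ℕ} {θ : ℝ≥0∞}
    (hθ : ∀ p, i ≤ p → p ≤ X → ∫⁻ ω, uu M L p ω ∂(law κ) ≤ θ) {W : Set Om} (hW : Adapt M i fun ω => ω ∈ W)
    (I : Finset ℕ) (hI : ∀ j ∈ I, i + 1 ≤ j) (hI2 : ∀ j ∈ I, ∀ j' ∈ I, j < j' → j + 2 ≤ j') (hib : i ≤ b)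
    (hIb : ∀ j ∈ I, j + 1 ≤ b) (s : ℕ) :
    law κ ({ω | ω ∈ W ∧ num M I ω < s} ∩ Qe M b X) ≤ 2 ^ s * θ ^ I.card * law κ (W ∩ Qe M i X) := by
  classical
  have hm : MeasurableSet ({ω | ω ∈ W ∧ num M I ω < s} ∩ Qe M b X) := by
    refine meas_adapt ?_
    exact adapt_and (hW.mono hib) (adapt_comp (adapt_num hM I hIb) fun x => x < s)
  have hW' : Adapt M i fun ω => W.indicator (1 : Om → ℝ≥0∞) ω := by
    intro p ω ω' hω hp
    have h3 : (ω ∈ W) = (ω' ∈ W) := hW p ω ω' hω hp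
    show W.indicator (1 : Om → ℝ≥0∞) ω = W.indicator 1 ω'
    by_cases h1 : ω ∈ W
    · rw [Set.indicator_of_mem h1, Set.indicator_of_mem (h3.mp h1)]; rfl
    · rw [Set.indicator_of_notMem h1, Set.indicator_of_notMem fun h => h1 (h3.mpr h)]
  calc law κ ({ω | ω ∈ W ∧ num M I ω < s} ∩ Qe M b X)
      = ∫⁻ ω, ({ω | ω ∈ W ∧ num M I ω < s} ∩ Qe M b X).indicator 1 ω ∂(law κ) := (lintegral_indicator_one hm).symm
    _ ≤ ∫⁻ ω, 2 ^ s * (W.indicator 1 ω * (∏ j ∈ I, wt M j ω) * (Qe M b X).indicator 1 ω) ∂(law κ) := by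
        refine lintegral_mono fun ω => ?_
        by_cases h1 : ω ∈ {ω | ω ∈ W ∧ num M I ω < s} ∩ Qe M b X
        · rw [Set.indicator_of_mem h1, Set.indicator_of_mem h1.1.1, Set.indicator_of_mem h1.2, prod_wt]
          simp only [Pi.one_apply, one_mul, mul_one]
          obtain ⟨d, hd⟩ := Nat.exists_eq_add_of_lt h1.1.2
          rw [hd, show num M I ω + d + 1 = num M I ω + (d + 1) by ring, pow_add, mul_right_comm, ← mul_pow,
            ENNReal.mul_inv_cancel (by norm_num) (by norm_num), one_pow, one_mul]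
          exact one_le_pow₀ (by norm_num)
        · rw [Set.indicator_of_notMem h1]
          exact zero_le
    _ = 2 ^ s * ∫⁻ ω, W.indicator 1 ω * (∏ j ∈ I, wt M j ω) * (Qe M b X).indicator 1 ω ∂(law κ) :=
        lintegral_const_mul' _ _ (by simp)
    _ ≤ 2 ^ s * (θ ^ I.card * ∫⁻ ω, W.indicator 1 ω * (Qe M i X).indicator 1 ω ∂(law κ)) := by
        gcongr
        exact engine κ hM hW' hθ I hI hI2 b hib fun j hj => by have := hIb j hj; omega
    _ = 2 ^ s * θ ^ I.card * law κ (W ∩ Qe M i X) := by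
        rw [← mul_assoc, ← lintegral_indicator_one (meas_adapt hW)]
        congr 1
        refine lintegral_congr fun ω => ?_
        by_cases h1 : ω ∈ W
        · by_cases h2 : ω ∈ Qe M i X
          · rw [Set.indicator_of_mem h1, Set.indicator_of_mem h2,
              Set.indicator_of_mem (show ω ∈ W ∩ Qe M i X from ⟨h1, h2⟩)]
            simp
          · have h3 : ω ∉ W ∩ Qe M i X := fun h => h2 h.2
            rw [Set.indicator_of_notMem h2, Set.indicator_of_notMem h3, mul_zero]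
        · have h3 : ω ∉ W ∩ Qe M i X := fun h => h1 h.1
          rw [Set.indicator_of_notMem h1, Set.indicator_of_notMem h3, zero_mul]

theorem exists_half (I : Finset ℕ) :
    ∃ I' ⊆ I, I.card ≤ 2 * I'.card ∧ ∀ j ∈ I', ∀ j' ∈ I', j < j' → j + 2 ≤ j' := by
  have h := card_filter_add_card_filter_not (s := I) (fun j => Even j)
  by_cases h1 : I.card ≤ 2 * (I.filter fun j => Even j).card
  · refine ⟨I.filter fun j => Even j, filter_subset _ _, h1, fun j hj j' hj' hjj => ?_⟩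
    have h2 := (mem_filter.1 hj).2
    have h3 := (mem_filter.1 hj').2
    rw [Nat.even_iff] at h2 h3
    omega
  · refine ⟨I.filter fun j => ¬ Even j, filter_subset _ _, by omega, fun j hj j' hj' hjj => ?_⟩
    have h2 := (mem_filter.1 hj).2
    have h3 := (mem_filter.1 hj').2
    rw [Nat.even_iff] at h2 h3
    omega

/-- **One set of indices.** -/
theorem single {κ : ℝ} (hκ : 0 < κ) {M : ℕ} (hM : Even M) (hM0 : 0 < M) {A B : ℕ} (hA : 0 < A) :
    ∃ c : ℝ, 0 < c ∧ ∀ᶠ n : ℕ in atTop, ∀ (i : ℕ) (W : Set Om) (I : Finset ℕ), n ≤ i ^ A → i ≤ n ^ B →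
      Adapt M i (fun ω => ω ∈ W) → (∀ j ∈ I, i + 1 ≤ j ∧ j + 1 ≤ n ^ B) →
      law κ ({ω | ω ∈ W ∧ (num M I ω : ℝ) < c * I.card / Real.log n} ∩ Qe M (n ^ B) (n ^ (2 * B + 1))) ≤
        ENNReal.ofReal (2 * Real.exp (-(c * I.card / Real.log n))) * law κ (W ∩ Qe M i (n ^ (2 * B + 1))) := by
  obtain ⟨c, hc, hth⟩ := theta hκ hM0 (A := A) (D := 2 * B + 1) hA (by omega)
  refine ⟨c / 4, by positivity, ?_⟩
  filter_upwards [hth, ev_log c, ev_log 1] with n hn h1 h2 i W I hi hiB hW hI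
  obtain ⟨L, hL⟩ := hn
  set l : ℝ := Real.log n with hl
  have hl0 : 0 < l := by linarith
  obtain ⟨I', hI', hcard, hsp⟩ := exists_half I
  have hcard' : (I.card : ℝ) ≤ 2 * I'.card := by exact_mod_cast hcard
  set x : ℝ := c * I'.card / (2 * l) with hx
  have hx0 : 0 ≤ x := by positivity
  have hxI : c / 4 * I.card / l ≤ x := by
    rw [hx, div_le_div_iff₀ hl0 (by positivity)]
    nlinarith [mul_pos hc hl0]
  have hd := dev κ hM (i := i) (X := n ^ (2 * B + 1)) (L := L) (b := n ^ B)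
    (fun p hp hpX => hL p (hi.trans (Nat.pow_le_pow_left hp A)) hpX) hW I' (fun j hj => (hI j (hI' hj)).1) hsp hiB
    (fun j hj => (hI j (hI' hj)).2) ⌈x⌉₊
  refine (measure_mono ?_).trans (hd.trans ?_)
  · rintro ω ⟨⟨hω1, hω2⟩, hω3⟩
    refine ⟨⟨hω1, ?_⟩, hω3⟩
    rw [Nat.lt_ceil]
    have h3 : (num M I' ω : ℝ) ≤ num M I ω := by exact_mod_cast num_mono hI' ω
    linarith
  · gcongr
    have h3 : (0 : ℝ) ≤ 1 - c / l := by
      rw [sub_nonneg, div_le_one hl0]; exact h1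
    have h4 : (2 : ℝ≥0∞) ^ ⌈x⌉₊ * ENNReal.ofReal (1 - c / l) ^ I'.card =
        ENNReal.ofReal (2 ^ ⌈x⌉₊ * (1 - c / l) ^ I'.card) := by
      rw [ENNReal.ofReal_mul (by positivity), ENNReal.ofReal_pow (by norm_num), ENNReal.ofReal_pow h3]
      norm_num
    rw [h4]
    refine ENNReal.ofReal_le_ofReal ?_
    have h5 : (2 : ℝ) ^ ⌈x⌉₊ ≤ 2 * Real.exp x := by
      have h6 : (⌈x⌉₊ : ℝ) ≤ x + 1 := (Nat.ceil_lt_add_one hx0).le
      calc (2 : ℝ) ^ ⌈x⌉₊ = (2 : ℝ) ^ (⌈x⌉₊ : ℝ) := (Real.rpow_natCast _ _).symm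
        _ ≤ (2 : ℝ) ^ (x + 1) := Real.rpow_le_rpow_of_exponent_le (by norm_num) h6
        _ = 2 * (2 : ℝ) ^ x := by rw [Real.rpow_add (by norm_num), Real.rpow_one]; ring
        _ ≤ 2 * Real.exp x := by
            gcongr
            rw [Real.rpow_def_of_pos (by norm_num)]
            refine Real.exp_le_exp.2 ?_
            have := Real.log_two_lt_d9
            nlinarith
    have h6 : (1 - c / l) ^ I'.card ≤ Real.exp (-(2 * x)) := by
      calc (1 - c / l) ^ I'.card ≤ Real.exp (-(c / l)) ^ I'.card := by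
            refine pow_le_pow_left₀ h3 ?_ _
            have := Real.add_one_le_exp (-(c / l))
            linarith
        _ = Real.exp (-(2 * x)) := by
            rw [← Real.exp_nat_mul, hx]
            congr 1
            field_simp
    calc (2 : ℝ) ^ ⌈x⌉₊ * (1 - c / l) ^ I'.card ≤ 2 * Real.exp x * Real.exp (-(2 * x)) := by gcongr
      _ = 2 * Real.exp (-x) := by
          rw [mul_assoc, ← Real.exp_add]; congr 2; ring
      _ ≤ 2 * Real.exp (-(c / 4 * I.card / l)) := by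
          gcongr

end Pool.Agent.W2helper70.CG
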