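import Pool.Agent.W2helper70.CG.Dev

set_option autoImplicit false

/-!
Families of sets of indices.
-/

namespace Pool.Agent.W2helper70.CG

open MeasureTheory ProbabilityTheory Finset Filter
open scoped ENNReal Topology

theorem exp_neg_log {n : ℕ} (hn : 0 < n) (k : ℕ) : Real.exp (-((k : ℝ) * Real.log n)) = 1 / (n : ℝ) ^ k := by
  have hn0 : (0 : ℝ) < n := by exact_mod_cast hn
  rw [Real.exp_neg, ← Real.log_pow, Real.exp_log (by positivity), one_div]

theorem pred_pow {A n j : ℕ} (hn : (2 ^ (A + 1)) ^ A < n) (h : n ≤ j ^ A) : n ≤ (j - 1) ^ (A + 1) := by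
  have h1 : 2 ^ (A + 1) < j := by
    by_contra hc
    have := Nat.pow_le_pow_left (not_lt.1 hc) A
    omega
  have h2 : 2 ≤ 2 ^ (A + 1) := by
    calc 2 = 2 ^ 1 := rfl
      _ ≤ 2 ^ (A + 1) := Nat.pow_le_pow_right (by norm_num) (by omega)
  have h3 : j ≤ 2 * (j - 1) := by omega
  have h4 : 2 ^ (A + 1) * n ≤ 2 ^ (A + 1) * (j - 1) ^ (A + 1) := by
    calc 2 ^ (A + 1) * n ≤ j * j ^ A := Nat.mul_le_mul h1.le h
      _ = j ^ (A + 1) := by ring
      _ ≤ (2 * (j - 1)) ^ (A + 1) := Nat.pow_le_pow_left h3 _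
      _ = _ := by rw [mul_pow]
  exact Nat.le_of_mul_le_mul_left h4 (by positivity)

theorem fam {κ : ℝ} (hκ : 0 < κ) {M : ℕ} (hM : Even M) (hM0 : 0 < M) (A B T : ℕ) :
    ∃ c K : ℝ, 0 < c ∧ 0 < K ∧ ∀ I : ℕ → ℕ → Finset ℕ, ∀ᵐ ω ∂(law κ), ∀ᶠ n : ℕ in atTop, ∀ t < n ^ T,
      (∀ j ∈ I n t, n ≤ j ^ A ∧ j ≤ n ^ B) → K * Real.log n ^ 2 ≤ (I n t).card →
      c * (I n t).card / Real.log n ≤ num M (I n t) ω := by
  obtain ⟨c, hc, hsi⟩ := single hκ hM hM0 (A := A + 1) (B := B + 1) (by omega)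
  refine ⟨c, (T + 3) / c, hc, by positivity, fun I => ?_⟩
  set Bad : ℕ → Set Om := fun n => (⋃ t ∈ range (n ^ T), {ω | ((∀ j ∈ I n t, n ≤ j ^ A ∧ j ≤ n ^ B) ∧
    (T + 3) / c * Real.log n ^ 2 ≤ (I n t).card) ∧ (num M (I n t) ω : ℝ) < c * (I n t).card / Real.log n} ∩
      Qe M (n ^ (B + 1)) (n ^ (2 * (B + 1) + 1))) ∪ (Qe M (n ^ (B + 1)) (n ^ (2 * (B + 1) + 1)))ᶜ with hBad
  have hb : ∀ᶠ n : ℕ in atTop, law κ (Bad n) ≤ ENNReal.ofReal (3 / (n : ℝ) ^ 2) := by
    filter_upwards [hsi, q_small hκ hM0 (B := B + 1) (by omega), ev_log 1, eventually_gt_atTop ((2 ^ (A + 1)) ^ A),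
      eventually_ge_atTop 3] with n h1 h2 h3 h4 h5
    have hl0 : 0 < Real.log n := by linarith
    have hn0 : (0 : ℝ) < n := by exact_mod_cast (by omega : 0 < n)
    have hn1 : (1 : ℝ) ≤ n := by exact_mod_cast (by omega : 1 ≤ n)
    have hex : ∃ i, n ≤ i ^ (A + 1) := ⟨n, Nat.le_self_pow (by omega) n⟩
    classical
    set i := Nat.find hex with hi
    have hi1 : n ≤ i ^ (A + 1) := Nat.find_spec hex
    have hi2 : i ≤ n ^ (B + 1) := (Nat.find_min' hex (Nat.le_self_pow (by omega) n)).trans (Nat.le_self_pow (by omega) n)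
    have h6 : ∀ t ∈ range (n ^ T), law κ ({ω | ((∀ j ∈ I n t, n ≤ j ^ A ∧ j ≤ n ^ B) ∧
        (T + 3) / c * Real.log n ^ 2 ≤ (I n t).card) ∧ (num M (I n t) ω : ℝ) < c * (I n t).card / Real.log n} ∩
        Qe M (n ^ (B + 1)) (n ^ (2 * (B + 1) + 1))) ≤ ENNReal.ofReal (2 / (n : ℝ) ^ (T + 3)) := by
      intro t _
      by_cases hco : (∀ j ∈ I n t, n ≤ j ^ A ∧ j ≤ n ^ B) ∧ (T + 3) / c * Real.log n ^ 2 ≤ (I n t).card
      · have h7 := h1 i Set.univ (I n t) hi1 hi2 (adapt_const (M := M) (i := i) True |> fun h => by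
            simpa using h) fun j hj => ⟨?_, ?_⟩
        · refine (measure_mono ?_).trans (h7.trans ?_)
          · rintro ω ⟨hω1, hω2⟩
            exact ⟨⟨Set.mem_univ _, hω1.2⟩, hω2⟩
          · calc ENNReal.ofReal (2 * Real.exp (-(c * (I n t).card / Real.log n))) *
                  law κ (Set.univ ∩ Qe M i (n ^ (2 * (B + 1) + 1)))
                ≤ ENNReal.ofReal (2 * Real.exp (-(c * (I n t).card / Real.log n))) * 1 := by
                  gcongr
                  exact prob_le_one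
              _ ≤ ENNReal.ofReal (2 / (n : ℝ) ^ (T + 3)) := by
                  rw [mul_one]
                  refine ENNReal.ofReal_le_ofReal ?_
                  have h8 : ((T + 3 : ℕ) : ℝ) * Real.log n ≤ c * (I n t).card / Real.log n := by
                    rw [le_div_iff₀ hl0]
                    have h9 := hco.2
                    rw [div_mul_eq_mul_div, div_le_iff₀ hc] at h9
                    push_cast
                    nlinarith
                  rw [div_eq_mul_one_div 2, ← exp_neg_log (by omega)]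
                  gcongr
        · have := hco.1 j hj
          have h8 := pred_pow h4 this.1
          have h9 : i ≤ j - 1 := Nat.find_min' hex h8
          have h10 : 0 < j := by
            rcases Nat.eq_zero_or_pos j with h | h
            · rw [h] at h8
              simp at h8
              omega
            · exact h
          omega
        · have := (hco.1 j hj).2
          calc j + 1 ≤ n ^ B + 1 := by omega
            _ ≤ n ^ B * 2 := by have := Nat.one_le_pow B n (by omega); omega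
            _ ≤ n ^ B * n := Nat.mul_le_mul_left _ (by omega)
            _ = n ^ (B + 1) := by ring
      · rw [show ({ω : Om | ((∀ j ∈ I n t, n ≤ j ^ A ∧ j ≤ n ^ B) ∧
          (T + 3) / c * Real.log n ^ 2 ≤ (I n t).card) ∧ (num M (I n t) ω : ℝ) < c * (I n t).card / Real.log n} ∩
          Qe M (n ^ (B + 1)) (n ^ (2 * (B + 1) + 1))) = ∅ from Set.eq_empty_of_forall_notMem
            fun ω hω => hco hω.1.1, measure_empty]
        exact zero_le
    calc law κ (Bad n) ≤ (∑ t ∈ range (n ^ T), ENNReal.ofReal (2 / (n : ℝ) ^ (T + 3))) +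
          ENNReal.ofReal (1 / (n : ℝ) ^ 2) := by
          refine (measure_union_le _ _).trans (add_le_add ?_ h2)
          exact (measure_biUnion_finset_le _ _).trans (sum_le_sum h6)
      _ = ENNReal.ofReal ((n : ℝ) ^ T * (2 / (n : ℝ) ^ (T + 3)) + 1 / (n : ℝ) ^ 2) := by
          rw [sum_const, card_range, nsmul_eq_mul, ENNReal.ofReal_add (by positivity) (by positivity),
            ENNReal.ofReal_mul (by positivity)]
          congr 2
          rw [← Nat.cast_pow, ENNReal.ofReal_natCast]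
      _ ≤ ENNReal.ofReal (3 / (n : ℝ) ^ 2) := by
          refine ENNReal.ofReal_le_ofReal ?_
          have h7 : (n : ℝ) ^ T * (2 / (n : ℝ) ^ (T + 3)) = 2 / (n : ℝ) ^ 3 := by
            rw [pow_add]; field_simp
          have h8 : 2 / (n : ℝ) ^ 3 ≤ 2 / (n : ℝ) ^ 2 := by
            apply div_le_div_of_nonneg_left (by norm_num) (by positivity)
            exact pow_le_pow_right₀ hn1 (by norm_num)
          rw [h7]
          calc 2 / (n : ℝ) ^ 3 + 1 / (n : ℝ) ^ 2 ≤ 2 / (n : ℝ) ^ 2 + 1 / (n : ℝ) ^ 2 := by linarith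
            _ = 3 / (n : ℝ) ^ 2 := by ring
  filter_upwards [bc κ hb] with ω hω
  filter_upwards [hω] with n hn t ht hco hcard
  by_contra hlt
  apply hn
  by_cases hQ : ω ∈ Qe M (n ^ (B + 1)) (n ^ (2 * (B + 1) + 1))
  · left
    rw [Set.mem_iUnion₂]
    exact ⟨t, mem_range.2 ht, ⟨⟨hco, hcard⟩, not_le.1 hlt⟩, hQ⟩
  · right
    exact hQ

/-! ### Elements by their number -/

/-- the `j`-th element, `j = 1, 2, …` (`0` if there are fewer than `j` elements) -/
noncomputable def P (M : ℕ) (ω : Om) (j : ℕ) : ℕ := Nat.nth (El M ω) (j - 1)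

/-- the `j`-th element exists and is followed by another one at distance `2` -/
def Twin (M : ℕ) (ω : Om) (j : ℕ) : Prop := El M ω (P M ω j) ∧ El M ω (P M ω j + 2)

theorem nth_of_at {M i p : ℕ} {ω : Om} (h : ω ∈ At M i p) : Nat.nth (El M ω) i = p := by
  have h1 := h.2
  unfold cnt at h1
  rw [← h1]
  exact Nat.nth_count h.1

theorem twin_of_E {M i : ℕ} {ω : Om} (h : E M i ω) : Twin M ω (i + 1) := by
  obtain ⟨r, hr, hr2⟩ := h
  unfold Twin P
  rw [Nat.add_sub_cancel, nth_of_at hr]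
  exact ⟨hr.1, hr2⟩

open Classical in
/-- families of sets of indices, counted from `1` -/
theorem fam_one {κ : ℝ} (hκ : 0 < κ) {M : ℕ} (hM : Even M) (hM0 : 0 < M) (A B T : ℕ) :
    ∃ c K : ℝ, 0 < c ∧ 0 < K ∧ ∀ I : ℕ → ℕ → Finset ℕ, ∀ᵐ ω ∂(law κ), ∀ᶠ n : ℕ in atTop, ∀ t < n ^ T,
      (∀ j ∈ I n t, n ≤ j ^ A ∧ j ≤ n ^ B) → K * Real.log n ^ 2 ≤ (I n t).card →
      c * (I n t).card / Real.log n ≤ ((I n t).filter (Twin M ω)).card := by
  obtain ⟨c, K, hc, hK, hf⟩ := fam hκ hM hM0 (A + 1) B T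
  refine ⟨c, K, hc, hK, fun I => ?_⟩
  filter_upwards [hf fun n t => (I n t).image fun j => j - 1] with ω hω
  filter_upwards [hω, eventually_gt_atTop ((2 ^ (A + 1)) ^ A), eventually_ge_atTop 1] with n hn h4 h5 t ht hco hcard
  have hpos : ∀ j ∈ I n t, 0 < j := by
    intro j hj
    have h8 := pred_pow h4 (hco j hj).1
    rcases Nat.eq_zero_or_pos j with h | h
    · rw [h] at h8
      simp at h8
      omega
    · exact h
  have hinj : Set.InjOn (fun j => j - 1) (I n t : Set ℕ) := by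
    intro j hj j' hj' h
    have h1 := hpos j hj
    have h2 := hpos j' hj'
    have h3 : j - 1 = j' - 1 := h
    omega
  have h6 := hn t ht ?_ ?_
  · rw [card_image_of_injOn hinj] at h6
    refine h6.trans ?_
    have h7 : num M ((I n t).image fun j => j - 1) ω ≤ ((I n t).filter (Twin M ω)).card := by
      unfold num
      rw [filter_image]
      refine card_image_le.trans (card_le_card fun j hj => ?_)
      rw [mem_filter] at hj ⊢
      refine ⟨hj.1, ?_⟩
      have h8 := twin_of_E hj.2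
      rwa [Nat.sub_add_cancel (hpos j hj.1)] at h8
    exact_mod_cast h7
  · intro j hj
    obtain ⟨j', hj', rfl⟩ := mem_image.1 hj
    exact ⟨pred_pow h4 (hco j' hj').1, (Nat.sub_le _ _).trans (hco j' hj').2⟩
  · rw [card_image_of_injOn hinj]
    exact hcard

end Pool.Agent.W2helper70.CG
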