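import Pool.Agent.W2helper70.CG.LowFam

set_option autoImplicit false

/-!
The least `k` for which the element number `f k * n` is followed by another one at distance `2`.
-/

namespace Pool.Agent.W2helper70.CG

open MeasureTheory ProbabilityTheory Finset Filter
open scoped ENNReal Topology

theorem windows {κ : ℝ} (hκ : 0 < κ) {M : ℕ} (hM : Even M) (hM0 : 0 < M) (D T : ℕ) :
    ∃ C : ℝ, 0 < C ∧ ∀ f : ℕ → ℕ, StrictMono f → (∀ k, f k ≤ (k + 1) ^ D) →
      ∀ᵐ ω ∂(law κ), ∀ᶠ n : ℕ in atTop, ∀ r < n ^ T, ∀ y < n ^ T,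
        ∃ k : ℕ, y < k ∧ (k : ℝ) ≤ y + C * Real.log n ^ 2 ∧ Twin M ω (f k * n + r) := by
  classical
  obtain ⟨c, K, hc, hK, hf⟩ := fam_one hκ hM hM0 1 ((T + 2) * D + T + 2) (2 * T)
  refine ⟨K + 1, by positivity, fun f hmono hfD => ?_⟩
  filter_upwards [hf fun n t => (Ioc (t % n ^ T) (t % n ^ T + ⌈K * Real.log n ^ 2⌉₊)).image
    fun k => f k * n + t / n ^ T] with ω hω
  filter_upwards [hω, eventually_ge_atTop 3, ev_log 1, ev_log_pow 2 (K + 1)] with n hn h3 h1 hlog r hr y hy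
  have hl0 : 0 < Real.log n := by linarith
  have hnT : 0 < n ^ T := by positivity
  have ht : y + n ^ T * r < n ^ (2 * T) := by
    calc y + n ^ T * r < n ^ T + n ^ T * r := by omega
      _ = n ^ T * (r + 1) := by ring
      _ ≤ n ^ T * n ^ T := Nat.mul_le_mul_left _ hr
      _ = n ^ (2 * T) := by ring
  have hmod : (y + n ^ T * r) % n ^ T = y := by rw [Nat.add_mul_mod_self_left, Nat.mod_eq_of_lt hy]
  have hdiv : (y + n ^ T * r) / n ^ T = r := by
    rw [Nat.add_mul_div_left _ _ hnT, Nat.div_eq_of_lt hy, zero_add]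
  have hceil : (⌈K * Real.log n ^ 2⌉₊ : ℝ) ≤ (K + 1) * Real.log n ^ 2 := by
    have h4 : (⌈K * Real.log n ^ 2⌉₊ : ℝ) < K * Real.log n ^ 2 + 1 := Nat.ceil_lt_add_one (by positivity)
    nlinarith
  have hceil' : ⌈K * Real.log n ^ 2⌉₊ ≤ n := by exact_mod_cast hceil.trans hlog
  have h5 := hn (y + n ^ T * r) ht
  rw [hmod, hdiv] at h5
  have hinj : Set.InjOn (fun k => f k * n + r) (Ioc y (y + ⌈K * Real.log n ^ 2⌉₊) : Finset ℕ) := by
    intro k _ k' _ h
    have h6 : f k * n + r = f k' * n + r := h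
    have h7 : f k * n = f k' * n := by omega
    exact hmono.injective (Nat.eq_of_mul_eq_mul_right (by omega) h7)
  have hcard : ((Ioc y (y + ⌈K * Real.log n ^ 2⌉₊)).image fun k => f k * n + r).card = ⌈K * Real.log n ^ 2⌉₊ := by
    rw [card_image_of_injOn hinj, Nat.card_Ioc]
    omega
  have h6 := h5 ?_ ?_
  · rw [hcard] at h6
    have h7 : 0 < c * (⌈K * Real.log n ^ 2⌉₊ : ℝ) / Real.log n := by
      have : (0 : ℝ) < ⌈K * Real.log n ^ 2⌉₊ := by
        have : 0 < ⌈K * Real.log n ^ 2⌉₊ := Nat.ceil_pos.2 (by positivity)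
        exact_mod_cast this
      positivity
    have h8 : 0 < (((Ioc y (y + ⌈K * Real.log n ^ 2⌉₊)).image fun k => f k * n + r).filter (Twin M ω)).card := by
      exact_mod_cast h7.trans_le h6
    obtain ⟨j, hj⟩ := card_pos.1 h8
    obtain ⟨hj1, hj2⟩ := mem_filter.1 hj
    obtain ⟨k, hk, rfl⟩ := mem_image.1 hj1
    rw [mem_Ioc] at hk
    refine ⟨k, hk.1, ?_, hj2⟩
    have h9 : (k : ℝ) ≤ y + ⌈K * Real.log n ^ 2⌉₊ := by exact_mod_cast hk.2
    linarith
  · intro j hj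
    obtain ⟨k, hk, rfl⟩ := mem_image.1 hj
    rw [mem_Ioc] at hk
    have h7 : 1 ≤ f k := by
      have := hmono.id_le k
      simp only [id] at this
      omega
    refine ⟨?_, ?_⟩
    · rw [pow_one]
      nlinarith
    · have hk1 : k + 1 ≤ n ^ (T + 2) := by
        calc k + 1 ≤ n ^ T + n + 1 := by omega
          _ ≤ n ^ T * (n + 2) := by
              have : 1 ≤ n ^ T := hnT
              nlinarith
          _ ≤ n ^ T * n ^ 2 := Nat.mul_le_mul_left _ (by nlinarith)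
          _ = n ^ (T + 2) := by ring
      calc f k * n + r ≤ (n ^ (T + 2)) ^ D * n + n ^ T := by
            gcongr
            exact (hfD k).trans (Nat.pow_le_pow_left hk1 D)
        _ = n ^ ((T + 2) * D + 1) + n ^ T := by
            rw [← pow_mul, pow_succ]
        _ ≤ n ^ ((T + 2) * D + T + 1) + n ^ ((T + 2) * D + T + 1) := by
            gcongr <;> omega
        _ = n ^ ((T + 2) * D + T + 1) * 2 := by ring
        _ ≤ n ^ ((T + 2) * D + T + 1) * n := Nat.mul_le_mul_left _ (by omega)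
        _ = n ^ ((T + 2) * D + T + 2) := by ring
  · rw [hcard]
    exact Nat.le_ceil _

theorem slow {κ : ℝ} (hκ : 0 < κ) {M : ℕ} (hM : Even M) (hM0 : 0 < M) :
    ∃ c : ℝ, 0 < c ∧ ∀ f : ℕ → ℕ, StrictMono f → (∃ D, ∀ k, f k ≤ (k + 1) ^ D) →
      ∀ᵐ ω ∂(law κ), ∀ᶠ N : ℕ in atTop, ∃ n, N ≤ n ∧ n ≤ 2 * N ∧
        ∀ k : ℕ, 1 ≤ k → (k : ℝ) ≤ c * Real.log N ^ 2 → ¬ Twin M ω (f k * n) := by
  classical
  obtain ⟨c, hc, hlow⟩ := lowfam hκ hM hM0 1 3 (show (0 : ℝ) < 1 / 4 by norm_num)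
  refine ⟨c, hc, fun f hmono hD => ?_⟩
  obtain ⟨D, hfD⟩ := hD
  set H : ℕ → ℕ := fun N => ⌊c * Real.log N ^ 2⌋₊ with hH
  set Q : ℕ → ℕ := fun N => f (H N) + 1 with hQ
  set nn : ℕ → ℕ → ℕ := fun N s => Q N * (N / Q N + 1 + s) + 1 with hnn
  set I : ℕ → ℕ → Finset ℕ := fun N s => (Icc 1 (H N)).image fun k => f k * nn N s with hI
  have hfpos : ∀ k, 1 ≤ k → 1 ≤ f k := by
    intro k hk
    have := hmono.id_le k
    simp only [id] at this
    omega
  have hdis : ∀ N s s' k k', 1 ≤ k → k ≤ H N → 1 ≤ k' → k' ≤ H N → f k * nn N s = f k' * nn N s' → s = s' := by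
    intro N s s' k k' hk hkH hk' hkH' h
    have h1 : f k < Q N := by
      have := hmono.monotone hkH
      simp only [hQ]; omega
    have h1' : f k' < Q N := by
      have := hmono.monotone hkH'
      simp only [hQ]; omega
    have h2 : ∀ k s, f k < Q N → (f k * nn N s) % Q N = f k := by
      intro k s hk
      have : f k * nn N s = f k + Q N * (f k * (N / Q N + 1 + s)) := by
        simp only [hnn]; ring
      rw [this, Nat.add_mul_mod_self_left, Nat.mod_eq_of_lt hk]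
    have h3 : f k = f k' := by rw [← h2 k s h1, h, h2 k' s' h1']
    rw [← h3] at h
    have h4 := Nat.eq_of_mul_eq_mul_left (hfpos k hk) h
    have h5 : Q N * (N / Q N + 1 + s) = Q N * (N / Q N + 1 + s') := by
      simp only [hnn] at h4; omega
    have h6 := Nat.eq_of_mul_eq_mul_left (by simp only [hQ]; omega) h5
    omega
  have hev : ∀ᶠ N : ℕ in atTop, 1 ≤ H N ∧ 4 * Q N ≤ Nat.sqrt N ∧ 2 ≤ Nat.sqrt N := by
    filter_upwards [ev_log (1 + 1 / c), ev_log_pow (4 * D) (16 * (2 * (c + 1) ^ D) ^ 2), eventually_ge_atTop 4]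
      with N h1 h2 h3
    have hl1 : 1 ≤ Real.log N := by
      have : 0 < 1 / c := by positivity
      linarith
    have hcl : 1 ≤ c * Real.log N ^ 2 := by
      have h4 : 1 ≤ c * Real.log N := by
        calc (1 : ℝ) = c * (1 / c) := by field_simp
          _ ≤ c * Real.log N := by gcongr; linarith
      nlinarith
    have hH1 : 1 ≤ H N := by
      simp only [hH]
      exact Nat.le_floor (by simpa using hcl)
    have hHr : (H N : ℝ) ≤ c * Real.log N ^ 2 := Nat.floor_le (by positivity)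
    have hQr : (Q N : ℝ) ≤ 2 * (c + 1) ^ D * Real.log N ^ (2 * D) := by
      have h4 : (f (H N) : ℝ) ≤ ((H N : ℝ) + 1) ^ D := by exact_mod_cast hfD (H N)
      have h5 : ((H N : ℝ) + 1) ^ D ≤ ((c + 1) * Real.log N ^ 2) ^ D := by
        gcongr
        nlinarith
      have h6 : ((c + 1) * Real.log N ^ 2) ^ D = (c + 1) ^ D * Real.log N ^ (2 * D) := by
        rw [mul_pow, ← pow_mul]
      have h7 : 1 ≤ (c + 1) ^ D * Real.log N ^ (2 * D) :=
        one_le_mul_of_one_le_of_one_le (one_le_pow₀ (by linarith)) (one_le_pow₀ hl1)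
      have h8 : (Q N : ℝ) = f (H N) + 1 := by simp only [hQ]; push_cast; ring
      rw [h8]
      linarith
    have h16 : 4 * Q N * (4 * Q N) ≤ N := by
      have h4 : (4 * (Q N : ℝ)) * (4 * Q N) ≤ N := by
        calc (4 * (Q N : ℝ)) * (4 * Q N) = 16 * (Q N : ℝ) ^ 2 := by ring
          _ ≤ 16 * (2 * (c + 1) ^ D * Real.log N ^ (2 * D)) ^ 2 := by gcongr
          _ = 16 * (2 * (c + 1) ^ D) ^ 2 * Real.log N ^ (4 * D) := by
              rw [mul_pow _ (Real.log N ^ (2 * D)), ← pow_mul, show 2 * D * 2 = 4 * D by ring]; ring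
          _ ≤ N := h2
      exact_mod_cast h4
    exact ⟨hH1, Nat.le_sqrt.2 h16, Nat.le_sqrt.2 (by omega)⟩
  have hbound : ∀ N, 4 * Q N ≤ Nat.sqrt N → 2 ≤ Nat.sqrt N → ∀ s < Nat.sqrt N, N ≤ nn N s ∧ nn N s ≤ 2 * N := by
    intro N h1 h2 s hs
    have hQ0 : 0 < Q N := by simp only [hQ]; omega
    have h3 : Q N * (N / Q N) ≤ N := Nat.mul_div_le _ _
    have h4 : N < Q N * (N / Q N) + Q N := by
      have := Nat.lt_mul_div_succ N hQ0
      rw [Nat.mul_add, mul_one] at this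
      exact this
    have h5 : nn N s = Q N * (N / Q N) + Q N + Q N * s + 1 := by simp only [hnn]; ring
    have h6 : Nat.sqrt N * Nat.sqrt N ≤ N := Nat.sqrt_le N
    rw [h5]
    constructor
    · have := Nat.zero_le (Q N * s)
      omega
    · have h7 : 4 * (Q N * s) ≤ Nat.sqrt N * Nat.sqrt N := by nlinarith
      have h8 : 2 * Nat.sqrt N ≤ Nat.sqrt N * Nat.sqrt N := Nat.mul_le_mul_right _ h2
      omega
  have hae := hlow (fun N => (range (Nat.sqrt N)).image (I N)) ?_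
  · filter_upwards [hae] with ω hω
    filter_upwards [hω, hev] with N hN hN2
    obtain ⟨I', hI', hno⟩ := hN
    obtain ⟨s, hs, rfl⟩ := mem_image.1 hI'
    obtain ⟨h1, h2⟩ := hbound N hN2.2.1 hN2.2.2 s (mem_range.1 hs)
    refine ⟨nn N s, h1, h2, fun k hk hk2 => hno _ ?_⟩
    exact mem_image.2 ⟨k, mem_Icc.2 ⟨hk, Nat.le_floor hk2⟩, rfl⟩
  · filter_upwards [hev, eventually_ge_atTop 2] with N hN hN2
    obtain ⟨hH1, h4Q, hs2⟩ := hN
    have hdisj : ∀ s s', s ≠ s' → Disjoint (I N s) (I N s') := by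
      intro s s' hne
      rw [disjoint_left]
      intro x hx hx'
      obtain ⟨k, hk, hkx⟩ := mem_image.1 hx
      obtain ⟨k', hk', hkx'⟩ := mem_image.1 hx'
      rw [mem_Icc] at hk hk'
      exact hne (hdis N s s' k k' hk.1 hk.2 hk'.1 hk'.2 (hkx.trans hkx'.symm))
    refine ⟨?_, ?_, ?_⟩
    · rw [card_image_of_injOn, card_range]
      · have h1 : N ≤ (Nat.sqrt N) ^ 4 := by
          have h2 : N < (Nat.sqrt N + 1) * (Nat.sqrt N + 1) := Nat.lt_succ_sqrt N
          have h3 : (Nat.sqrt N + 1) * (Nat.sqrt N + 1) ≤ (Nat.sqrt N) ^ 4 := by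
            have h4 : Nat.sqrt N + 1 ≤ (Nat.sqrt N) ^ 2 := by nlinarith
            calc (Nat.sqrt N + 1) * (Nat.sqrt N + 1) ≤ (Nat.sqrt N) ^ 2 * (Nat.sqrt N) ^ 2 := Nat.mul_le_mul h4 h4
              _ = _ := by ring
          omega
        have h2 : (N : ℝ) ≤ ((Nat.sqrt N : ℕ) : ℝ) ^ (4 : ℕ) := by exact_mod_cast h1
        calc (N : ℝ) ^ (1 / 4 : ℝ) ≤ (((Nat.sqrt N : ℕ) : ℝ) ^ (4 : ℕ)) ^ (1 / 4 : ℝ) :=
              Real.rpow_le_rpow (by positivity) h2 (by norm_num)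
          _ = (Nat.sqrt N : ℕ) := by
              rw [← Real.rpow_natCast, ← Real.rpow_mul (by positivity)]
              norm_num
      · intro s _ s' _ h
        by_contra hne
        have h1 := hdisj s s' hne
        have h2 : I N s = I N s' := h
        rw [← h2, disjoint_self_iff_empty] at h1
        have h3 : f 1 * nn N s ∈ I N s := mem_image.2 ⟨1, mem_Icc.2 ⟨le_rfl, hH1⟩, rfl⟩
        rw [h1] at h3
        simp at h3
    · intro I' hI' I'' hI'' hne
      obtain ⟨s, hs, rfl⟩ := mem_image.1 hI'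
      obtain ⟨s', hs', rfl⟩ := mem_image.1 hI''
      exact hdisj s s' fun h => hne (by rw [h])
    · intro I' hI'
      obtain ⟨s, hs, rfl⟩ := mem_image.1 hI'
      obtain ⟨h1, h2⟩ := hbound N h4Q hs2 s (mem_range.1 hs)
      refine ⟨?_, ?_⟩
      · have h3 : ((I N s).card : ℝ) ≤ H N := by
          have : (I N s).card ≤ H N := by
            refine card_image_le.trans ?_
            rw [Nat.card_Icc]; omega
          exact_mod_cast this
        exact h3.trans (Nat.floor_le (by positivity))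
      · intro j hj
        obtain ⟨k, hk, rfl⟩ := mem_image.1 hj
        rw [mem_Icc] at hk
        have h3 := hfpos k hk.1
        have h4 : f k < Q N := by
          have := hmono.monotone hk.2
          simp only [hQ]; omega
        have h5 : Nat.sqrt N ≤ N := Nat.sqrt_le_self N
        refine ⟨?_, ?_⟩
        · rw [pow_one]; nlinarith
        · calc f k * nn N s ≤ N * (2 * N) := Nat.mul_le_mul (by omega) h2
            _ ≤ N * (N * N) := Nat.mul_le_mul_left _ (Nat.mul_le_mul_right _ hN2)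
            _ = N ^ 3 := by ring

/-- the three assertions, in the model -/
theorem sun {κ : ℝ} (hκ : 0 < κ) {M : ℕ} (hM : Even M) (hM0 : 0 < M) :
    ∀ᵐ ω ∂(law κ), ∀ᶠ n : ℕ in atTop,
      (∃ k, 1 ≤ k ∧ k ≤ n ∧ Twin M ω (k * n)) ∧ (∃ k, 1 ≤ k ∧ k ≤ n ∧ Twin M ω (k ^ 2 * n)) ∧
      ∃ k : ℕ, 1 ≤ k ∧ (k : ℝ) < 3 * √n + 6 ∧ Twin M ω (k * n) := by
  obtain ⟨C, hC, hw⟩ := windows hκ hM hM0 2 0
  have h1 := hw id strictMono_id (fun k => by simp only [id]; nlinarith)
  have h2 := hw (fun k => k ^ 2) (fun a b h => Nat.pow_lt_pow_left h (by norm_num))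
    (fun k => Nat.pow_le_pow_left (by omega) 2)
  filter_upwards [h1, h2] with ω hω1 hω2
  filter_upwards [hω1, hω2, ev_log_pow 2 C, ev_log_pow 4 (C ^ 2)] with n hn1 hn2 hn3 hn4
  obtain ⟨k, hk, hk2, hk3⟩ := hn1 0 (by simp) 0 (by simp)
  obtain ⟨k', hk', hk2', hk3'⟩ := hn2 0 (by simp) 0 (by simp)
  rw [Nat.cast_zero, zero_add] at hk2 hk2'
  refine ⟨⟨k, hk, by exact_mod_cast hk2.trans hn3, by simpa using hk3⟩,
    ⟨k', hk', by exact_mod_cast hk2'.trans hn3, by simpa using hk3'⟩, k, hk, ?_, by simpa using hk3⟩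
  have h3 : C * Real.log n ^ 2 ≤ √n := by
    refine Real.le_sqrt_of_sq_le ?_
    calc (C * Real.log n ^ 2) ^ 2 = C ^ 2 * Real.log n ^ 4 := by ring
      _ ≤ (n : ℝ) := hn4
  have h4 : 0 ≤ √(n : ℝ) := Real.sqrt_nonneg _
  linarith

end Pool.Agent.W2helper70.CG
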