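import Pool.Agent.W2helper70.CG.Fam

set_option autoImplicit false

/-!
Index sets without elements followed by another one at distance `2`.
-/

namespace Pool.Agent.W2helper70.CG

open MeasureTheory ProbabilityTheory Finset Filter
open scoped ENNReal Topology

theorem det_adapt_fun {M i X : ℕ} {h : Om → ℝ≥0∞} (hh : Adapt M i h) :
    DetF (range (X + 1)) fun ω => h ω * (Qe M i X).indicator 1 ω := by
  intro ω ω' hω
  have hω' : ∀ j ≤ X, ω j = ω' j := fun j hj => hω j (mem_range.2 (by omega))
  show h ω * (Qe M i X).indicator 1 ω = h ω' * (Qe M i X).indicator 1 ω'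
  by_cases h1 : ω ∈ Qe M i X
  · have h2 := Qe_congr hω' h1
    obtain ⟨p, hp, hp'⟩ := h1
    rw [hh p ω ω' (fun j hj => hω' j (hj.trans hp)) hp', Set.indicator_of_mem h2,
      Set.indicator_of_mem (show ω ∈ Qe M i X from ⟨p, hp, hp'⟩)]
    rfl
  · have h2 : ω' ∉ Qe M i X := fun h2 => h1 (Qe_congr (fun j hj => (hω' j hj).symm) h2)
    rw [Set.indicator_of_notMem h1, Set.indicator_of_notMem h2, mul_zero, mul_zero]

theorem int_coord (κ : ℝ) (q : ℕ) :
    ∫⁻ ω, {ω : Om | ω q = true}.indicator 1 ω ∂(law κ) = ENNReal.ofReal (rho κ q) := by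
  have h1 : {ω : Om | ω q = true} = {ω | ∀ j ∈ ({q} : Finset ℕ), ω j = (fun _ => true) j} := by
    ext ω; simp
  have hm : MeasurableSet {ω : Om | ω q = true} := 
    measurableSet_eq_fun (measurable_pi_apply q) measurable_const
  rw [lintegral_indicator_one hm, h1, law_pi, prod_singleton, coin_true]

open Classical in
/-- an element is followed by another one at distance `2` with a small conditional probability -/
theorem low_step (κ : ℝ) {M j X : ℕ} {h : Om → ℝ≥0∞} (hh : Adapt M j h) {θ : ℝ≥0∞}
    (hθ : ∀ q, j ≤ q → ENNReal.ofReal (rho κ (q + 2)) ≤ θ) :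
    ∫⁻ ω, h ω * {ω | E M j ω}.indicator 1 ω * (Qe M j X).indicator 1 ω ∂(law κ) ≤
      θ * ∫⁻ ω, h ω * (Qe M j X).indicator 1 ω ∂(law κ) := by
  have hsum : ∀ ω, (Qe M j X).indicator (1 : Om → ℝ≥0∞) ω = ∑ p ∈ range (X + 1), (At M j p).indicator 1 ω := by
    intro ω
    by_cases h1 : ω ∈ Qe M j X
    · obtain ⟨p, hp, hp'⟩ := h1
      rw [Set.indicator_of_mem (show ω ∈ Qe M j X from ⟨p, hp, hp'⟩), sum_eq_single p]
      · rw [Set.indicator_of_mem hp']
      · intro q _ hq
        exact Set.indicator_of_notMem (fun h2 => hq (at_unique h2 hp')) _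
      · intro h2
        exact absurd (mem_range.2 (by omega)) h2
    · rw [Set.indicator_of_notMem h1]
      symm
      refine sum_eq_zero fun p hp => Set.indicator_of_notMem (fun h2 => h1 ⟨p, ?_, h2⟩) _
      have := mem_range.1 hp
      omega
  have hdet : ∀ p, DetF (range (p + 1)) fun ω => h ω * (At M j p).indicator 1 ω := by
    intro p ω ω' hω
    have hω' : ∀ j ≤ p, ω j = ω' j := fun j hj => hω j (mem_range.2 (by omega))
    show h ω * (At M j p).indicator 1 ω = h ω' * (At M j p).indicator 1 ω'
    by_cases h1 : ω ∈ At M j p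
    · rw [hh p ω ω' hω' h1, Set.indicator_of_mem h1, Set.indicator_of_mem (at_congr hω' h1)]
      rfl
    · have h2 : ω' ∉ At M j p := fun h2 => h1 (at_congr (fun j hj => (hω' j hj).symm) h2)
      rw [Set.indicator_of_notMem h1, Set.indicator_of_notMem h2, mul_zero, mul_zero]
  have hdet2 : ∀ p, DetF {p + 2} fun ω : Om => {ω : Om | ω (p + 2) = true}.indicator (1 : Om → ℝ≥0∞) ω := by
    intro p ω ω' hω
    have h3 := hω (p + 2) (mem_singleton_self _)
    show {ω : Om | ω (p + 2) = true}.indicator (1 : Om → ℝ≥0∞) ω = {ω : Om | ω (p + 2) = true}.indicator 1 ω'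
    by_cases h1 : ω (p + 2) = true
    · rw [Set.indicator_of_mem (show ω ∈ {ω : Om | ω (p + 2) = true} from h1),
        Set.indicator_of_mem (show ω' ∈ {ω : Om | ω (p + 2) = true} from h3.symm.trans h1)]
      rfl
    · have h2 : ω' ∉ {ω : Om | ω (p + 2) = true} := fun h => h1 (by rw [h3]; exact h)
      rw [Set.indicator_of_notMem (show ω ∉ {ω : Om | ω (p + 2) = true} from h1), Set.indicator_of_notMem h2]
  calc ∫⁻ ω, h ω * {ω | E M j ω}.indicator 1 ω * (Qe M j X).indicator 1 ω ∂(law κ)
      ≤ ∫⁻ ω, ∑ p ∈ range (X + 1), (h ω * (At M j p).indicator 1 ω) *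
          {ω : Om | ω (p + 2) = true}.indicator 1 ω ∂(law κ) := by
        refine lintegral_mono fun ω => ?_
        rw [hsum ω, mul_sum]
        refine sum_le_sum fun p _ => ?_
        by_cases h1 : ω ∈ At M j p
        · rw [Set.indicator_of_mem h1, Pi.one_apply, mul_one, mul_one]
          refine mul_le_mul_right ?_ _
          by_cases h2 : E M j ω
          · obtain ⟨r, hr, hr2⟩ := h2
            have h3 := at_unique h1 hr
            rw [Set.indicator_of_mem (show ω ∈ {ω : Om | ω (p + 2) = true} from h3 ▸ hr2.2)]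
            exact Set.indicator_le_self' (fun _ _ => zero_le) _
          · rw [Set.indicator_of_notMem (show ω ∉ {ω | E M j ω} from h2)]
            exact zero_le
        · rw [Set.indicator_of_notMem h1, mul_zero]
          exact zero_le
    _ = ∑ p ∈ range (X + 1), ∫⁻ ω, (h ω * (At M j p).indicator 1 ω) *
          {ω : Om | ω (p + 2) = true}.indicator 1 ω ∂(law κ) := by
        rw [lintegral_finsetSum]
        intro p _
        exact (hdet p).meas.mul (hdet2 p).meas
    _ = ∑ p ∈ range (X + 1), (∫⁻ ω, h ω * (At M j p).indicator 1 ω ∂(law κ)) * ENNReal.ofReal (rho κ (p + 2)) := by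
        refine sum_congr rfl fun p _ => ?_
        rw [← int_coord]
        refine lint_mul κ ?_ (hdet p) (hdet2 p)
        rw [disjoint_left]
        intro j hj hj'
        have := mem_range.1 hj
        have := mem_singleton.1 hj'
        omega
    _ ≤ ∑ p ∈ range (X + 1), (∫⁻ ω, h ω * (At M j p).indicator 1 ω ∂(law κ)) * θ := by
        refine sum_le_sum fun p hp => ?_
        by_cases h1 : j ≤ p
        · gcongr
          exact hθ p h1
        · have h2 : ∀ ω, h ω * (At M j p).indicator 1 ω = 0 := by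
            intro ω
            rw [Set.indicator_of_notMem (fun h3 => h1 (at_le h3)), mul_zero]
          simp only [h2, lintegral_zero, zero_mul, le_refl]
    _ = θ * ∫⁻ ω, h ω * (Qe M j X).indicator 1 ω ∂(law κ) := by
        rw [← sum_mul, mul_comm, ← lintegral_finsetSum _ fun p _ => (hdet p).meas]
        congr 1
        refine lintegral_congr fun ω => ?_
        rw [hsum ω, mul_sum]

open Classical in
/-- `1` if an index of colour `n` in `J` is good, else `u n` -/
noncomputable def ph {ι : Type} (M : ℕ) (col : ℕ → ι) (J : Finset ℕ) (u : ι → ℝ) (n : ι) (ω : Om) : ℝ≥0∞ :=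
  if ∃ j ∈ J, col j = n ∧ E M j ω then 1 else ENNReal.ofReal (u n)

theorem adapt_ph {ι : Type} {M : ℕ} (hM : Even M) (col : ℕ → ι) {J : Finset ℕ} {i : ℕ} (hJ : ∀ j ∈ J, j + 1 ≤ i)
    (u : ι → ℝ) (n : ι) : Adapt M i (ph M col J u n) := by
  classical
  intro p ω ω' hω hp
  unfold ph
  have h1 : (∃ j ∈ J, col j = n ∧ E M j ω) ↔ ∃ j ∈ J, col j = n ∧ E M j ω' := by
    refine exists_congr fun j => and_congr_right fun hj => and_congr_right fun _ => iff_of_eq ?_
    exact (adapt_E hM j).mono (hJ j hj) p ω ω' hω hp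
  simp only [h1]

theorem adapt_prod' {ι : Type} {M i : ℕ} (N : Finset ι) {f : ι → Om → ℝ≥0∞} (hf : ∀ n ∈ N, Adapt M i (f n)) :
    Adapt M i fun ω => ∏ n ∈ N, f n ω := by
  intro p ω ω' hω hp
  exact prod_congr rfl fun n hn => hf n hn p ω ω' hω hp

theorem Qind_mono {M X a b : ℕ} (hab : a ≤ b) (ω : Om) :
    (Qe M b X).indicator (1 : Om → ℝ≥0∞) ω ≤ (Qe M a X).indicator 1 ω :=
  Set.indicator_le_indicator_of_subset (Qe_anti hab) (fun _ => zero_le) ω

open Classical in
/-- **Domination by independent coins.** -/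
theorem dom (κ : ℝ) {M : ℕ} (hM : Even M) {X : ℕ} {ι : Type} (col : ℕ → ι) (N : Finset ι) {θ : ℝ}
    (h0 : 0 ≤ θ) (h1 : θ ≤ 1) (J : Finset ℕ) :
    (∀ j ∈ J, ∀ q, j ≤ q → rho κ (q + 2) ≤ θ) → (∀ j ∈ J, col j ∈ N) →
    ∀ u : ι → ℝ, (∀ n, 0 ≤ u n ∧ u n ≤ 1) → ∀ b, (∀ j ∈ J, j ≤ b) →
    ∫⁻ ω, (∏ n ∈ N, ph M col J u n ω) * (Qe M b X).indicator 1 ω ∂(law κ) ≤
      ∏ n ∈ N, ENNReal.ofReal (1 - (1 - u n) * (1 - θ) ^ (J.filter fun j => col j = n).card) := by
  induction J using Finset.induction_on_max with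
  | empty =>
    intro _ _ u hu b _
    calc ∫⁻ ω, (∏ n ∈ N, ph M col ∅ u n ω) * (Qe M b X).indicator 1 ω ∂(law κ)
        ≤ ∫⁻ _, ∏ n ∈ N, ENNReal.ofReal (u n) ∂(law κ) := by
          refine lintegral_mono fun ω => ?_
          have h2 : (Qe M b X).indicator (1 : Om → ℝ≥0∞) ω ≤ 1 := Set.indicator_le_self' (fun _ _ => zero_le) ω
          calc (∏ n ∈ N, ph M col ∅ u n ω) * (Qe M b X).indicator 1 ω ≤ (∏ n ∈ N, ph M col ∅ u n ω) * 1 := by
                gcongr
            _ = _ := by
                rw [mul_one]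
                refine prod_congr rfl fun n _ => ?_
                unfold ph
                simp
      _ ≤ _ := by
          rw [lintegral_const, measure_univ, mul_one]
          refine prod_le_prod' fun n _ => ?_
          rw [filter_empty, card_empty, pow_zero, mul_one, sub_sub_cancel]
  | insert a s has ih =>
    intro hθ hcol u hu b hb
    have ha : a ∉ s := fun h => lt_irrefl _ (has a h)
    set n0 := col a with hn0
    have hn0N : n0 ∈ N := hcol a (mem_insert_self _ _)
    set u' : ι → ℝ := Function.update u n0 (u n0 + θ * (1 - u n0)) with hu'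
    have hu1 : ∀ n, 0 ≤ u' n ∧ u' n ≤ 1 := by
      intro n
      rw [hu']
      by_cases h : n = n0
      · rw [h, Function.update_self]
        have := hu n0
        constructor <;> nlinarith
      · rw [Function.update_of_ne h]; exact hu n
    have ih' := ih (fun j hj => hθ j (mem_insert_of_mem hj)) (fun j hj => hcol j (mem_insert_of_mem hj)) u' hu1 a
      (fun j hj => (has j hj).le)
    have hle1 : ∀ n ω, ph M col s u n ω ≤ 1 := by
      intro n ω
      unfold ph
      split_ifs
      · exact le_rfl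
      · exact ENNReal.ofReal_le_one.2 (hu n).2
    have hins : ∀ n ω, n ≠ n0 → ph M col (insert a s) u n ω = ph M col s u n ω := by
      intro n ω hn
      unfold ph
      have : (∃ j ∈ insert a s, col j = n ∧ E M j ω) ↔ ∃ j ∈ s, col j = n ∧ E M j ω := by
        constructor
        · rintro ⟨j, hj, hj2, hj3⟩
          rcases mem_insert.1 hj with h | h
          · exact absurd (by rw [← hj2, h]) hn
          · exact ⟨j, h, hj2, hj3⟩
        · rintro ⟨j, hj, hj2, hj3⟩
          exact ⟨j, mem_insert_of_mem hj, hj2, hj3⟩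
      simp only [this]
    have hins' : ∀ n ω, n ≠ n0 → ph M col s u' n ω = ph M col s u n ω := by
      intro n ω hn
      unfold ph
      rw [hu', Function.update_of_ne hn]
    have h2 : ∀ ω, ph M col (insert a s) u n0 ω =
        ph M col s u n0 ω + (1 - ph M col s u n0 ω) * {ω | E M a ω}.indicator 1 ω := by
      intro ω
      by_cases h3 : ∃ j ∈ s, col j = n0 ∧ E M j ω
      · have h4 : ph M col s u n0 ω = 1 := if_pos h3
        have h5 : ph M col (insert a s) u n0 ω = 1 := by
          obtain ⟨j, hj, hj2⟩ := h3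
          exact if_pos ⟨j, mem_insert_of_mem hj, hj2⟩
        rw [h4, h5, tsub_self, zero_mul, add_zero]
      · have h4 : ph M col s u n0 ω = ENNReal.ofReal (u n0) := if_neg h3
        by_cases h6 : E M a ω
        · have h5 : ph M col (insert a s) u n0 ω = 1 := if_pos ⟨a, mem_insert_self _ _, rfl, h6⟩
          rw [h4, h5, Set.indicator_of_mem (show ω ∈ {ω | E M a ω} from h6), Pi.one_apply, mul_one]
          exact (add_tsub_cancel_of_le (ENNReal.ofReal_le_one.2 (hu n0).2)).symm
        · have h5 : ph M col (insert a s) u n0 ω = ENNReal.ofReal (u n0) := by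
            refine if_neg ?_
            rintro ⟨j, hj, hj2, hj3⟩
            rcases mem_insert.1 hj with h | h
            · exact h6 (h ▸ hj3)
            · exact h3 ⟨j, h, hj2, hj3⟩
          rw [h4, h5, Set.indicator_of_notMem (show ω ∉ {ω | E M a ω} from h6), mul_zero, add_zero]
    have h3 : ∀ ω, ph M col s u' n0 ω =
        ph M col s u n0 ω + (1 - ph M col s u n0 ω) * ENNReal.ofReal θ := by
      intro ω
      by_cases h3 : ∃ j ∈ s, col j = n0 ∧ E M j ω
      · have h4 : ph M col s u n0 ω = 1 := if_pos h3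
        have h5 : ph M col s u' n0 ω = 1 := if_pos h3
        rw [h4, h5, tsub_self, zero_mul, add_zero]
      · have h4 : ph M col s u n0 ω = ENNReal.ofReal (u n0) := if_neg h3
        have h5 : ph M col s u' n0 ω = ENNReal.ofReal (u' n0) := if_neg h3
        have h6 := hu n0
        rw [h4, h5, hu', Function.update_self, ← ENNReal.ofReal_one, ← ENNReal.ofReal_sub _ h6.1,
          ← ENNReal.ofReal_mul (by linarith), ← ENNReal.ofReal_add h6.1 (mul_nonneg (by linarith) h0)]
        congr 1
        ring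
    set Z : Om → ℝ≥0∞ := fun ω => ∏ n ∈ N.erase n0, ph M col s u n ω with hZ
    have hadZ : Adapt M a Z := adapt_prod' _ fun n _ => adapt_ph hM col (fun j hj => has j hj) u n
    have had1 : Adapt M a fun ω => Z ω * ph M col s u n0 ω :=
      adapt_mul hadZ (adapt_ph hM col (fun j hj => has j hj) u n0)
    have had2 : Adapt M a fun ω => Z ω * (1 - ph M col s u n0 ω) :=
      adapt_mul hadZ (adapt_comp (adapt_ph hM col (fun j hj => has j hj) u n0) fun x => 1 - x)
    have hls := low_step κ (X := X) had2 (θ := ENNReal.ofReal θ)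
      fun q hq => ENNReal.ofReal_le_ofReal (hθ a (mem_insert_self _ _) q hq)
    calc ∫⁻ ω, (∏ n ∈ N, ph M col (insert a s) u n ω) * (Qe M b X).indicator 1 ω ∂(law κ)
        ≤ ∫⁻ ω, ((Z ω * ph M col s u n0 ω) * (Qe M a X).indicator 1 ω +
            (Z ω * (1 - ph M col s u n0 ω)) * {ω | E M a ω}.indicator 1 ω * (Qe M a X).indicator 1 ω) ∂(law κ) := by
          refine lintegral_mono fun ω => ?_
          rw [← mul_prod_erase N _ hn0N, h2 ω, prod_congr rfl fun n hn => hins n ω (ne_of_mem_erase hn)]
          calc (ph M col s u n0 ω + (1 - ph M col s u n0 ω) * {ω | E M a ω}.indicator 1 ω) * (Z ω) *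
                (Qe M b X).indicator 1 ω
              ≤ (ph M col s u n0 ω + (1 - ph M col s u n0 ω) * {ω | E M a ω}.indicator 1 ω) * (Z ω) *
                (Qe M a X).indicator 1 ω := by
                exact mul_le_mul_right (Qind_mono (hb a (mem_insert_self _ _)) ω) _
            _ = _ := by ring
      _ = (∫⁻ ω, (Z ω * ph M col s u n0 ω) * (Qe M a X).indicator 1 ω ∂(law κ)) +
            ∫⁻ ω, (Z ω * (1 - ph M col s u n0 ω)) * {ω | E M a ω}.indicator 1 ω * (Qe M a X).indicator 1 ω ∂(law κ) :=
          lintegral_add_left (det_adapt_fun had1).meas _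
      _ ≤ (∫⁻ ω, (Z ω * ph M col s u n0 ω) * (Qe M a X).indicator 1 ω ∂(law κ)) +
            ENNReal.ofReal θ * ∫⁻ ω, (Z ω * (1 - ph M col s u n0 ω)) * (Qe M a X).indicator 1 ω ∂(law κ) := by
          gcongr
      _ = ∫⁻ ω, ((Z ω * ph M col s u n0 ω) * (Qe M a X).indicator 1 ω +
            ENNReal.ofReal θ * ((Z ω * (1 - ph M col s u n0 ω)) * (Qe M a X).indicator 1 ω)) ∂(law κ) := by
          rw [lintegral_add_left (det_adapt_fun had1).meas, lintegral_const_mul' _ _ ENNReal.ofReal_ne_top]
      _ = ∫⁻ ω, (∏ n ∈ N, ph M col s u' n ω) * (Qe M a X).indicator 1 ω ∂(law κ) := by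
          refine lintegral_congr fun ω => ?_
          rw [← mul_prod_erase N _ hn0N, h3 ω, prod_congr rfl fun n hn => hins' n ω (ne_of_mem_erase hn)]
          show (Z ω * ph M col s u n0 ω) * (Qe M a X).indicator 1 ω +
            ENNReal.ofReal θ * ((Z ω * (1 - ph M col s u n0 ω)) * (Qe M a X).indicator 1 ω) =
            (ph M col s u n0 ω + (1 - ph M col s u n0 ω) * ENNReal.ofReal θ) * (Z ω) * (Qe M a X).indicator 1 ω
          ring
      _ ≤ _ := ih'
      _ = _ := by
          refine prod_congr rfl fun n _ => ?_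
          congr 2
          by_cases h : n = n0
          · rw [h, hu', Function.update_self, filter_insert, if_pos hn0.symm,
              card_insert_of_notMem (fun hh => ha (mem_filter.1 hh).1), pow_succ]
            ring
          · rw [hu', Function.update_of_ne h, filter_insert, if_neg (fun hh => h (by rw [hn0, hh]))]

end Pool.Agent.W2helper70.CG
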