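import Pool.Agent.W2helper70.CG.Low

set_option autoImplicit false

/-!
Families of disjoint small sets of indices.
-/

namespace Pool.Agent.W2helper70.CG

open MeasureTheory ProbabilityTheory Finset Filter
open scoped ENNReal Topology

theorem twin_iff {M : ℕ} (hM : Even M) {ω : Om} {j : ℕ} (hj : 0 < j) : Twin M ω j ↔ E M (j - 1) ω := by
  constructor
  · rintro ⟨h1, h2⟩
    refine ⟨P M ω j, ⟨h1, ?_⟩, h2⟩
    unfold cnt P
    refine Nat.count_nth fun hf => ?_
    by_contra hc
    have h3 : Nat.nth (El M ω) (j - 1) = 0 := Nat.nth_of_card_le hf (not_lt.1 hc)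
    unfold P at h1
    rw [h3] at h1
    have := h1.odd hM
    simp at this
  · intro h
    have := twin_of_E h
    rwa [Nat.sub_add_cancel hj] at this

theorem one_sub_ge_exp {x : ℝ} (h0 : 0 ≤ x) (h1 : x ≤ 1 / 2) : Real.exp (-(2 * x)) ≤ 1 - x := by
  have h2 : 1 ≤ (1 - x) * Real.exp (2 * x) := by
    have h3 := Real.add_one_le_exp (2 * x)
    nlinarith
  rw [Real.exp_neg, inv_le_iff_one_le_mul₀ (Real.exp_pos _)]
  exact h2

theorem lowfam {κ : ℝ} (hκ : 0 < κ) {M : ℕ} (hM : Even M) (hM0 : 0 < M) (A B : ℕ) {τ : ℝ} (hτ : 0 < τ) :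
    ∃ c : ℝ, 0 < c ∧ ∀ F : ℕ → Finset (Finset ℕ),
      (∀ᶠ n : ℕ in atTop, (n : ℝ) ^ τ ≤ (F n).card ∧ (∀ I ∈ F n, ∀ I' ∈ F n, I ≠ I' → Disjoint I I') ∧
        ∀ I ∈ F n, (I.card : ℝ) ≤ c * Real.log n ^ 2 ∧ ∀ j ∈ I, n ≤ j ^ A ∧ j ≤ n ^ B) →
      ∀ᵐ ω ∂(law κ), ∀ᶠ n : ℕ in atTop, ∃ I ∈ F n, ∀ j ∈ I, ¬ Twin M ω j := by
  classical
  refine ⟨τ / (4 * κ * (A + 1)), by positivity, fun F hF => ?_⟩
  set Bad : ℕ → Set Om := fun n => ({ω | ∀ I ∈ F n, ∃ j ∈ I, Twin M ω j} ∩
    Qe M (n ^ (B + 1)) (n ^ (2 * (B + 1) + 1))) ∪ (Qe M (n ^ (B + 1)) (n ^ (2 * (B + 1) + 1)))ᶜ with hBad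
  have hb : ∀ᶠ n : ℕ in atTop, law κ (Bad n) ≤ ENNReal.ofReal (2 / (n : ℝ) ^ 2) := by
    have hlo : ∀ᶠ n : ℕ in atTop, 2 * Real.log n ≤ (n : ℝ) ^ (τ / 2) := by
      have h1 := (isLittleO_log_rpow_atTop (show 0 < τ / 2 by positivity)).def (show (0 : ℝ) < 1 / 2 by norm_num)
      filter_upwards [tendsto_natCast_atTop_atTop.eventually h1, ev_log 0] with n hn h0
      rw [Real.norm_of_nonneg h0, Real.norm_of_nonneg (by positivity)] at hn
      linarith
    filter_upwards [hF, q_small hκ hM0 (B := B + 1) (by omega), ev_log 1, ev_log (2 * (κ * (A + 1))),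
      eventually_ge_atTop 3, hlo] with n hn h2 h3 h4 h5 h6
    obtain ⟨hcardF, hdisj, hI⟩ := hn
    set l : ℝ := Real.log n with hl
    have hl0 : 0 < l := by linarith
    have hn0 : (0 : ℝ) < n := by exact_mod_cast (by omega : 0 < n)
    have hn1 : (1 : ℝ) ≤ n := by exact_mod_cast (by omega : 1 ≤ n)
    have hjpos : ∀ I ∈ F n, ∀ j ∈ I, 2 ≤ j := by
      intro I hI' j hj
      have h7 := ((hI I hI').2 j hj).1
      by_contra hc
      have : j ^ A ≤ 1 := by
        calc j ^ A ≤ 1 ^ A := Nat.pow_le_pow_left (by omega) A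
          _ = 1 := one_pow A
      omega
    set J : Finset ℕ := ((F n).biUnion id).image fun j => j - 1 with hJ
    set col : ℕ → Finset ℕ := fun j => if h : ∃ I ∈ F n, j + 1 ∈ I then h.choose else ∅ with hcol
    have hcol1 : ∀ I ∈ F n, ∀ j ∈ I, col (j - 1) = I := by
      intro I hI' j hj
      have h7 := hjpos I hI' j hj
      have hex : ∃ I ∈ F n, (j - 1) + 1 ∈ I := ⟨I, hI', by rwa [Nat.sub_add_cancel (by omega)]⟩
      have h8 : col (j - 1) = hex.choose := by rw [hcol]; exact dif_pos hex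
      have h9 := hex.choose_spec
      by_contra hne
      rw [h8] at hne
      have h10 := hdisj _ h9.1 _ hI' hne
      rw [disjoint_left] at h10
      exact h10 h9.2 (by rwa [Nat.sub_add_cancel (by omega)])
    have hJ1 : ∀ j ∈ J, ∃ I ∈ F n, j + 1 ∈ I := by
      intro j hj
      obtain ⟨j', hj', rfl⟩ := mem_image.1 hj
      obtain ⟨I, hI', hj2⟩ := mem_biUnion.1 hj'
      have := hjpos I hI' j' hj2
      exact ⟨I, hI', by rwa [Nat.sub_add_cancel (by omega)]⟩
    have hJ2 : ∀ j ∈ J, col j ∈ F n ∧ j + 1 ∈ col j := by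
      intro j hj
      have hex := hJ1 j hj
      have h8 : col j = hex.choose := by rw [hcol]; exact dif_pos hex
      rw [h8]
      exact hex.choose_spec
    set W : Set Om := {ω | ∀ I ∈ F n, ∃ j ∈ J, col j = I ∧ E M j ω} with hW
    have hsub : ({ω | ∀ I ∈ F n, ∃ j ∈ I, Twin M ω j} ∩ Qe M (n ^ (B + 1)) (n ^ (2 * (B + 1) + 1))) ⊆
        W ∩ Qe M (n ^ (B + 1)) (n ^ (2 * (B + 1) + 1)) := by
      rintro ω ⟨h7, h8⟩
      refine ⟨fun I hI' => ?_, h8⟩
      obtain ⟨j, hj, hjt⟩ := h7 I hI'
      have h9 := hjpos I hI' j hj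
      refine ⟨j - 1, mem_image.2 ⟨j, mem_biUnion.2 ⟨I, hI', hj⟩, rfl⟩, hcol1 I hI' j hj, ?_⟩
      exact (twin_iff hM (by omega)).1 hjt
    have hJb : ∀ j ∈ J, j + 1 ≤ n ^ (B + 1) := by
      intro j hj
      obtain ⟨I, hI', hj2⟩ := hJ1 j hj
      exact ((hI I hI').2 _ hj2).2.trans (Nat.pow_le_pow_right (by omega) (by omega))
    have hWad : Adapt M (n ^ (B + 1)) fun ω => ω ∈ W := by
      intro p ω ω' hω hp
      have h7 : (∀ I ∈ F n, ∃ j ∈ J, col j = I ∧ E M j ω) ↔ ∀ I ∈ F n, ∃ j ∈ J, col j = I ∧ E M j ω' := by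
        refine forall_congr' fun I => imp_congr_right fun _ => exists_congr fun j => and_congr_right fun hj =>
          and_congr_right fun _ => iff_of_eq ?_
        exact (adapt_E hM j).mono (hJb j hj) p ω ω' hω hp
      exact propext h7
    have hWm := meas_adapt (X := n ^ (2 * (B + 1) + 1)) hWad
    set θ : ℝ := κ * (A + 1) / l with hθ
    have hθ0 : 0 ≤ θ := by positivity
    have hθ1 : θ ≤ 1 / 2 := by
      rw [hθ, div_le_iff₀ hl0]
      linarith
    have hdom := dom κ hM (X := n ^ (2 * (B + 1) + 1)) col (F n) hθ0 (by linarith) J ?_ (fun j hj => (hJ2 j hj).1)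
      (fun _ => 0) (fun _ => ⟨le_rfl, zero_le_one⟩) (n ^ (B + 1)) (fun j hj => by have := hJb j hj; omega)
    · have h7 : law κ (W ∩ Qe M (n ^ (B + 1)) (n ^ (2 * (B + 1) + 1))) ≤ ENNReal.ofReal (1 / (n : ℝ) ^ 2) := by
        calc law κ (W ∩ Qe M (n ^ (B + 1)) (n ^ (2 * (B + 1) + 1)))
            = ∫⁻ ω, (W ∩ Qe M (n ^ (B + 1)) (n ^ (2 * (B + 1) + 1))).indicator 1 ω ∂(law κ) :=
              (lintegral_indicator_one hWm).symm
          _ ≤ ∫⁻ ω, (∏ I ∈ F n, ph M col J (fun _ => 0) I ω) *
                (Qe M (n ^ (B + 1)) (n ^ (2 * (B + 1) + 1))).indicator 1 ω ∂(law κ) := by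
              refine lintegral_mono fun ω => ?_
              by_cases h8 : ω ∈ W ∩ Qe M (n ^ (B + 1)) (n ^ (2 * (B + 1) + 1))
              · rw [Set.indicator_of_mem h8, Set.indicator_of_mem h8.2, prod_eq_one fun I hI' => ?_]
                · simp
                · unfold ph
                  exact if_pos (h8.1 I hI')
              · rw [Set.indicator_of_notMem h8]
                exact zero_le
          _ ≤ _ := hdom
          _ ≤ ∏ I ∈ F n, ENNReal.ofReal (1 - (n : ℝ) ^ (-(τ / 2))) := by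
              refine prod_le_prod' fun I hI' => ENNReal.ofReal_le_ofReal ?_
              rw [sub_zero, one_mul]
              refine sub_le_sub_left ?_ _
              have h9 : (J.filter fun j => col j = I).card ≤ I.card := by
                refine card_le_card_of_injOn (fun j => j + 1) ?_ ?_
                · intro j hj
                  rw [mem_coe, mem_filter] at hj
                  rw [mem_coe, ← hj.2]
                  exact (hJ2 j hj.1).2
                · intro j _ j' _ h
                  have h' : j + 1 = j' + 1 := h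
                  omega
              have h10 : ((J.filter fun j => col j = I).card : ℝ) ≤ τ / (4 * κ * (A + 1)) * l ^ 2 :=
                (Nat.cast_le.2 h9).trans (hI I hI').1
              calc (n : ℝ) ^ (-(τ / 2)) = Real.exp (-(τ / 2 * l)) := by
                    rw [Real.rpow_def_of_pos hn0, hl]; congr 1; ring
                _ ≤ Real.exp (-(2 * θ * (J.filter fun j => col j = I).card)) := by
                    refine Real.exp_le_exp.2 (neg_le_neg ?_)
                    calc 2 * θ * (J.filter fun j => col j = I).card ≤ 2 * θ * (τ / (4 * κ * (A + 1)) * l ^ 2) := by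
                          gcongr
                      _ = τ / 2 * l := by
                          rw [hθ]; field_simp; ring
                _ = Real.exp (-(2 * θ)) ^ (J.filter fun j => col j = I).card := by
                    rw [← Real.exp_nat_mul]; congr 1; ring
                _ ≤ (1 - θ) ^ (J.filter fun j => col j = I).card := by
                    refine pow_le_pow_left₀ (Real.exp_pos _).le ?_ _
                    exact one_sub_ge_exp hθ0 hθ1
                _ = _ := by congr
          _ = ENNReal.ofReal ((1 - (n : ℝ) ^ (-(τ / 2))) ^ (F n).card) := by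
              rw [prod_const, ENNReal.ofReal_pow]
              rw [sub_nonneg]
              exact Real.rpow_le_one_of_one_le_of_nonpos hn1 (by linarith)
          _ ≤ ENNReal.ofReal (1 / (n : ℝ) ^ 2) := by
              refine ENNReal.ofReal_le_ofReal ?_
              have h8 : (0 : ℝ) ≤ 1 - (n : ℝ) ^ (-(τ / 2)) := by
                rw [sub_nonneg]
                exact Real.rpow_le_one_of_one_le_of_nonpos hn1 (by linarith)
              calc (1 - (n : ℝ) ^ (-(τ / 2))) ^ (F n).card
                  ≤ Real.exp (-(n : ℝ) ^ (-(τ / 2))) ^ (F n).card := by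
                    refine pow_le_pow_left₀ h8 ?_ _
                    have := Real.add_one_le_exp (-(n : ℝ) ^ (-(τ / 2)))
                    linarith
                _ = Real.exp (-((F n).card * (n : ℝ) ^ (-(τ / 2)))) := by
                    rw [← Real.exp_nat_mul]; congr 1; ring
                _ ≤ Real.exp (-((2 : ℕ) * Real.log n)) := by
                    refine Real.exp_le_exp.2 (neg_le_neg ?_)
                    calc ((2 : ℕ) : ℝ) * Real.log n ≤ (n : ℝ) ^ (τ / 2) := by push_cast; exact h6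
                      _ = (n : ℝ) ^ τ * (n : ℝ) ^ (-(τ / 2)) := by
                          rw [← Real.rpow_add hn0]; congr 1; ring
                      _ ≤ (F n).card * (n : ℝ) ^ (-(τ / 2)) := by gcongr
                _ = 1 / (n : ℝ) ^ 2 := exp_neg_log (by omega) 2
      calc law κ (Bad n) ≤ ENNReal.ofReal (1 / (n : ℝ) ^ 2) + ENNReal.ofReal (1 / (n : ℝ) ^ 2) :=
            (measure_union_le _ _).trans (add_le_add ((measure_mono hsub).trans h7) h2)
        _ = ENNReal.ofReal (2 / (n : ℝ) ^ 2) := by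
            rw [← ENNReal.ofReal_add (by positivity) (by positivity)]
            congr 1
            ring
    · intro j hj q hq
      obtain ⟨I, hI', hj2⟩ := hJ1 j hj
      have h7 := ((hI I hI').2 _ hj2).1
      have h8 : l ≤ A * Real.log ((j + 1 : ℕ) : ℝ) := by
        have h9 : (n : ℝ) ≤ ((j + 1 : ℕ) : ℝ) ^ A := by exact_mod_cast h7
        have h10 := Real.log_le_log hn0 h9
        rwa [Real.log_pow] at h10
      have h9 : Real.log ((j + 1 : ℕ) : ℝ) ≤ Real.log ((q + 2 : ℕ) : ℝ) :=
        Real.log_le_log (by exact_mod_cast (by omega : 0 < j + 1)) (by exact_mod_cast (by omega : j + 1 ≤ q + 2))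
      have h10 : 0 ≤ Real.log ((q + 2 : ℕ) : ℝ) := Real.log_natCast_nonneg _
      have hA0 : (0 : ℝ) ≤ A := Nat.cast_nonneg A
      have h11 : l ≤ (A + 1) * Real.log ((q + 2 : ℕ) : ℝ) := by nlinarith
      have h12 : 0 < Real.log ((q + 2 : ℕ) : ℝ) := by
        by_contra hc
        have h13 : Real.log ((q + 2 : ℕ) : ℝ) = 0 := le_antisymm (not_lt.1 hc) h10
        rw [h13, mul_zero] at h11
        linarith
      refine (min_le_right _ _).trans ?_
      rw [hθ, div_le_div_iff₀ h12 hl0]
      nlinarith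
  filter_upwards [bc κ hb] with ω hω
  filter_upwards [hω] with n hn
  by_contra hlt
  apply hn
  by_cases hQ : ω ∈ Qe M (n ^ (B + 1)) (n ^ (2 * (B + 1) + 1))
  · left
    refine ⟨?_, hQ⟩
    push Not at hlt
    exact hlt
  · right
    exact hQ

end Pool.Agent.W2helper70.CG
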