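import Pool.Agent.W2helper70.CG.Base

set_option autoImplicit false

/-!
Probabilities of the events `F`, of empty blocks; numerical estimates.
-/

namespace Pool.Agent.W2helper70.CG

open MeasureTheory ProbabilityTheory Finset Filter
open scoped ENNReal

/-! ### Numbers `≡ -1` modulo `M` -/

theorem card_dvd {M : ℕ} (hM : 0 < M) (p L : ℕ) :
    L / M ≤ ((Ioc p (p + L)).filter fun q => M ∣ q + 1).card := by
  have h : (range (L / M)).card ≤ ((Ioc p (p + L)).filter fun q => M ∣ q + 1).card := by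
    refine card_le_card_of_injOn (fun t => M * ((p + 1) / M + 1 + t) - 1) ?_ ?_
    · intro t ht
      have ht' : t < L / M := mem_range.1 (mem_coe.1 ht)
      have h1 : M * (t + 1) ≤ L := by
        calc M * (t + 1) ≤ M * (L / M) := Nat.mul_le_mul_left _ ht'
          _ ≤ L := Nat.mul_div_le _ _
      have h2 : M * ((p + 1) / M) ≤ p + 1 := Nat.mul_div_le _ _
      have h3 : p + 1 < M * ((p + 1) / M) + M := by
        have := Nat.lt_mul_div_succ (p + 1) hM
        rw [Nat.mul_add, mul_one] at this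
        exact this
      have h4 : M * ((p + 1) / M + 1 + t) = M * ((p + 1) / M) + M + M * t := by ring
      have h5 : M * (t + 1) = M * t + M := by ring
      have h6 : 0 ≤ M * t := Nat.zero_le _
      rw [mem_coe, mem_filter, mem_Ioc]
      refine ⟨⟨?_, ?_⟩, ?_⟩
      · show p < M * ((p + 1) / M + 1 + t) - 1
        rw [h4]; omega
      · show M * ((p + 1) / M + 1 + t) - 1 ≤ p + L
        rw [h4]; omega
      · show M ∣ M * ((p + 1) / M + 1 + t) - 1 + 1
        rw [Nat.sub_add_cancel (by rw [h4]; omega)]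
        exact Dvd.intro _ rfl
    · intro t _ t' _ htt
      have h1 : M * ((p + 1) / M + 1 + t) - 1 = M * ((p + 1) / M + 1 + t') - 1 := htt
      have h2 : 0 < M * ((p + 1) / M + 1 + t) := by positivity
      have h3 : 0 < M * ((p + 1) / M + 1 + t') := by positivity
      have h4 : M * ((p + 1) / M + 1 + t) = M * ((p + 1) / M + 1 + t') := by omega
      have h5 := Nat.eq_of_mul_eq_mul_left hM h4
      omega
  rwa [card_range] at h

/-! ### The event `F` -/

/-- a part of `F` -/
def G (p q : ℕ) : Set Om := {ω | ∀ j ∈ insert (q + 2) (insert q (Ioo p q)), ω j = decide (j = q ∨ j = q + 2)}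

theorem G_sub {M L p q : ℕ} (h1 : p < q) (h2 : q ≤ p + L) (h3 : M ∣ q + 1) : G p q ⊆ F M L p := by
  intro ω hω
  refine ⟨q, h1, h2, h3, ?_, ?_, fun j hj hj' => ?_⟩
  · rw [hω q (by simp)]; simp
  · rw [hω (q + 2) (by simp)]; simp
  · rw [hω j (by simp [hj, hj'])]
    simp only [decide_eq_false_iff_not]
    omega

theorem G_disj {p q q' : ℕ} (h1 : p < q) (h : q < q') : Disjoint (G p q) (G p q') := by
  rw [Set.disjoint_left]
  intro ω hω hω'
  have h2 := hω q (by simp)
  have h3 := hω' q (by simp [h1, h])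
  rw [h2] at h3
  have h4 : decide (q = q ∨ q = q + 2) = true := by simp
  have h5 : decide (q = q' ∨ q = q' + 2) = false := by simp; omega
  rw [h4, h5] at h3
  exact Bool.noConfusion h3

theorem G_meas (p q : ℕ) : MeasurableSet (G p q) := by
  refine DetF.measSet (S := insert (q + 2) (insert q (Ioo p q))) ?_
  have key : ∀ ω ω' : Om, (∀ i ∈ insert (q + 2) (insert q (Ioo p q)), ω i = ω' i) → ω ∈ G p q → ω' ∈ G p q := by
    intro ω ω' h hω j hj
    rw [← h j hj]
    exact hω j hj
  intro ω ω' h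
  exact propext ⟨key ω ω' h, key ω' ω fun i hi => (h i hi).symm⟩

theorem one_sub_sum_le {ι : Type} (s : Finset ι) (f : ι → ℝ) (h0 : ∀ i ∈ s, 0 ≤ f i) (h1 : ∀ i ∈ s, f i ≤ 1) :
    1 - ∑ i ∈ s, f i ≤ ∏ i ∈ s, (1 - f i) := by
  classical
  induction s using Finset.induction_on with
  | empty => simp
  | insert a s ha ih =>
    rw [sum_insert ha, prod_insert ha]
    have ih' := ih (fun i hi => h0 i (mem_insert_of_mem hi)) (fun i hi => h1 i (mem_insert_of_mem hi))
    have ha0 := h0 a (mem_insert_self _ _)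
    have ha1 := h1 a (mem_insert_self _ _)
    have hs : 0 ≤ ∑ i ∈ s, f i := sum_nonneg fun i hi => h0 i (mem_insert_of_mem hi)
    nlinarith [mul_nonneg ha0 hs, mul_le_mul_of_nonneg_left ih' (sub_nonneg.2 ha1)]

theorem law_G {κ : ℝ} (hκ : 0 ≤ κ) {p q L : ℕ} (hL : 0 < L) (hpq : p < q) (hqL : q ≤ p + L) {a : ℝ} (ha : 0 ≤ a)
    (h1 : ∀ j, p < j → j ≤ p + L → rho κ j ≤ 1 / (2 * L)) (h2 : ∀ j, p < j → j ≤ p + L + 2 → a ≤ rho κ j) :
    ENNReal.ofReal (a ^ 2 / 2) ≤ law κ (G p q) := by
  unfold G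
  rw [law_pi]
  have hn1 : q ∉ Ioo p q := by simp
  have hn2 : q + 2 ∉ insert q (Ioo p q) := by simp
  rw [prod_insert hn2, prod_insert hn1]
  have e1 : coin (rho κ (q + 2)) {decide (q + 2 = q ∨ q + 2 = q + 2)} = ENNReal.ofReal (rho κ (q + 2)) := by
    rw [show decide (q + 2 = q ∨ q + 2 = q + 2) = true by simp]
    exact coin_true _
  have e2 : coin (rho κ q) {decide (q = q ∨ q = q + 2)} = ENNReal.ofReal (rho κ q) := by
    rw [show decide (q = q ∨ q = q + 2) = true by simp]
    exact coin_true _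
  have e3 : ∏ j ∈ Ioo p q, coin (rho κ j) {decide (j = q ∨ j = q + 2)} =
      ENNReal.ofReal (∏ j ∈ Ioo p q, (1 - rho κ j)) := by
    rw [ENNReal.ofReal_prod_of_nonneg fun j _ => sub_nonneg.2 (rho_le κ j)]
    refine prod_congr rfl fun j hj => ?_
    have := mem_Ioo.1 hj
    rw [show decide (j = q ∨ j = q + 2) = false by simp; omega, coin_false,
      ENNReal.ofReal_sub _ (rho_nonneg hκ j), ENNReal.ofReal_one]
  rw [e1, e2, e3, ← ENNReal.ofReal_mul (rho_nonneg hκ _), ← ENNReal.ofReal_mul (rho_nonneg hκ _)]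
  refine ENNReal.ofReal_le_ofReal ?_
  have h3 : (1 : ℝ) / 2 ≤ ∏ j ∈ Ioo p q, (1 - rho κ j) := by
    refine le_trans ?_ (one_sub_sum_le _ _ (fun j _ => rho_nonneg hκ j) fun j _ => rho_le κ j)
    have h4 : ∑ j ∈ Ioo p q, rho κ j ≤ ∑ j ∈ Ioo p q, 1 / (2 * (L : ℝ)) := by
      refine sum_le_sum fun j hj => ?_
      have := mem_Ioo.1 hj
      exact h1 j this.1 (by omega)
    rw [sum_const, nsmul_eq_mul, Nat.card_Ioo] at h4
    have h5 : ((q - p - 1 : ℕ) : ℝ) ≤ L := by exact_mod_cast (by omega : q - p - 1 ≤ L)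
    have hL' : (0 : ℝ) < L := by exact_mod_cast hL
    have h6 : ((q - p - 1 : ℕ) : ℝ) * (1 / (2 * (L : ℝ))) ≤ 1 / 2 := by
      rw [mul_one_div, div_le_div_iff₀ (by positivity) (by norm_num)]
      linarith
    linarith
  have h4 := h2 q hpq (by omega)
  have h5 := h2 (q + 2) (by omega) (by omega)
  calc a ^ 2 / 2 = a * (a * (1 / 2)) := by ring
    _ ≤ rho κ (q + 2) * (rho κ q * ∏ j ∈ Ioo p q, (1 - rho κ j)) := by
        gcongr
        · exact ha.trans h5
        · exact ha.trans h4

theorem law_F {κ : ℝ} (hκ : 0 ≤ κ) {M : ℕ} (hM : 0 < M) {p L : ℕ} (hL : 0 < L) {a : ℝ} (ha : 0 ≤ a)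
    (h1 : ∀ j, p < j → j ≤ p + L → rho κ j ≤ 1 / (2 * L)) (h2 : ∀ j, p < j → j ≤ p + L + 2 → a ≤ rho κ j) :
    ENNReal.ofReal ((L / M : ℕ) * (a ^ 2 / 2)) ≤ law κ (F M L p) := by
  have h3 : (⋃ q ∈ (Ioc p (p + L)).filter (fun q => M ∣ q + 1), G p q) ⊆ F M L p := by
    intro ω hω
    rw [Set.mem_iUnion₂] at hω
    obtain ⟨q, hq, hω⟩ := hω
    rw [mem_filter, mem_Ioc] at hq
    exact G_sub hq.1.1 hq.1.2 hq.2 hω
  refine le_trans ?_ (measure_mono h3)
  rw [measure_biUnion_finset]
  · calc ENNReal.ofReal ((L / M : ℕ) * (a ^ 2 / 2))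
        = ((L / M : ℕ) : ℝ≥0∞) * ENNReal.ofReal (a ^ 2 / 2) := by
          rw [ENNReal.ofReal_mul (by positivity), ENNReal.ofReal_natCast]
      _ ≤ (((Ioc p (p + L)).filter (fun q => M ∣ q + 1)).card : ℝ≥0∞) * ENNReal.ofReal (a ^ 2 / 2) := by
          gcongr
          exact card_dvd hM p L
      _ = ∑ q ∈ (Ioc p (p + L)).filter (fun q => M ∣ q + 1), ENNReal.ofReal (a ^ 2 / 2) := by
          rw [sum_const, nsmul_eq_mul]
      _ ≤ ∑ q ∈ (Ioc p (p + L)).filter (fun q => M ∣ q + 1), law κ (G p q) := by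
          refine sum_le_sum fun q hq => ?_
          rw [mem_filter, mem_Ioc] at hq
          exact law_G hκ hL hq.1.1 hq.1.2 ha h1 h2
  · intro q hq q' hq' hne
    have hq1 := (mem_Ioc.1 (mem_filter.1 (mem_coe.1 hq)).1).1
    have hq1' := (mem_Ioc.1 (mem_filter.1 (mem_coe.1 hq')).1).1
    rcases lt_or_gt_of_ne hne with h | h
    · exact G_disj hq1 h
    · exact (G_disj hq1' h).symm
  · intro q _
    exact G_meas p q

theorem int_uu (κ : ℝ) (M L p : ℕ) {d : ℝ} (hd : 0 ≤ d) (h : ENNReal.ofReal (2 * d) ≤ law κ (F M L p)) :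
    ∫⁻ ω, uu M L p ω ∂(law κ) ≤ ENNReal.ofReal (1 - d) := by
  classical
  have hm : MeasurableSet (F M L p) := DetF.measSet (det_F M L p)
  have h1 : ∫⁻ ω, uu M L p ω ∂(law κ) + ENNReal.ofReal d ≤ 1 := by
    calc ∫⁻ ω, uu M L p ω ∂(law κ) + ENNReal.ofReal d
        ≤ ∫⁻ ω, uu M L p ω ∂(law κ) + 2⁻¹ * law κ (F M L p) := by
          gcongr
          calc ENNReal.ofReal d = 2⁻¹ * ENNReal.ofReal (2 * d) := by
                rw [ENNReal.ofReal_mul (by norm_num), ← mul_assoc]
                rw [show ENNReal.ofReal 2 = 2 by simp, ENNReal.inv_mul_cancel (by norm_num) (by norm_num), one_mul]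
            _ ≤ _ := by gcongr
      _ = ∫⁻ ω, uu M L p ω ∂(law κ) + ∫⁻ ω, (F M L p).indicator (fun _ => 2⁻¹) ω ∂(law κ) := by
          rw [lintegral_indicator_const hm]
      _ = ∫⁻ ω, (uu M L p ω + (F M L p).indicator (fun _ => 2⁻¹) ω) ∂(law κ) := by
          rw [lintegral_add_left (det_uu M L p).meas]
      _ = ∫⁻ _, 1 ∂(law κ) := by
          refine lintegral_congr fun ω => ?_
          unfold uu
          by_cases h2 : ω ∈ F M L p
          · rw [if_pos h2, Set.indicator_of_mem h2, ENNReal.inv_two_add_inv_two]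
          · rw [if_neg h2, Set.indicator_of_notMem h2, add_zero]
      _ = 1 := by simp
  rw [ENNReal.ofReal_sub _ hd, ENNReal.ofReal_one]
  exact ENNReal.le_sub_of_add_le_right ENNReal.ofReal_ne_top h1

/-! ### Empty blocks -/

theorem law_empty {κ : ℝ} (hκ : 0 ≤ κ) {M : ℕ} (hM : 0 < M) {p w : ℕ} {a : ℝ} (ha : 0 ≤ a) 
    (h2 : ∀ j, p < j → j ≤ p + w → a ≤ rho κ j) :
    law κ {ω | ∀ j, p < j → j ≤ p + w → ¬ El M ω j} ≤ ENNReal.ofReal (Real.exp (-(a * (w / M : ℕ)))) := by
  set S : Finset ℕ := (Ioc p (p + w)).filter fun q => M ∣ q + 1 with hS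
  calc law κ {ω | ∀ j, p < j → j ≤ p + w → ¬ El M ω j}
      ≤ law κ {ω | ∀ j ∈ S, ω j = false} := by
        refine measure_mono fun ω hω j hj => ?_
        rw [hS, mem_filter, mem_Ioc] at hj
        have h3 := hω j hj.1.1 hj.1.2
        unfold El at h3
        push Not at h3
        have h4 := h3 (coprime_of_dvd hj.2).1
        simpa using h4
    _ = ∏ j ∈ S, coin (rho κ j) {false} := law_pi κ S fun _ => false
    _ ≤ ∏ _j ∈ S, ENNReal.ofReal (Real.exp (-a)) := by
        refine prod_le_prod' fun j hj => ?_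
        rw [hS, mem_filter, mem_Ioc] at hj
        rw [coin_false, ← ENNReal.ofReal_one, ← ENNReal.ofReal_sub _ (rho_nonneg hκ j)]
        refine ENNReal.ofReal_le_ofReal ?_
        have h3 := h2 j hj.1.1 hj.1.2
        have h4 := Real.add_one_le_exp (-a)
        linarith
    _ = ENNReal.ofReal (Real.exp (-(a * S.card))) := by
        rw [prod_const, ← ENNReal.ofReal_pow (Real.exp_pos _).le, ← Real.exp_nat_mul]
        congr 2
        ring
    _ ≤ _ := by
        refine ENNReal.ofReal_le_ofReal (Real.exp_le_exp.2 ?_)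
        have h5 : ((w / M : ℕ) : ℝ) ≤ S.card := by exact_mod_cast card_dvd hM p w
        nlinarith

/-- the element with index `b` exists and is at most `(b + 2) w`, up to a small probability -/
theorem law_Qe {κ : ℝ} (hκ : 0 ≤ κ) {M : ℕ} (hM : 0 < M) {b w X : ℕ} (hw : 2 ≤ w) (hX : (b + 2) * w ≤ X + 1)
    {a : ℝ} (ha : 0 ≤ a) (h2 : ∀ j, 2 ≤ j → j ≤ X → a ≤ rho κ j) :
    law κ (Qe M b X)ᶜ ≤ ENNReal.ofReal ((b + 1) * Real.exp (-(a * (w / M : ℕ)))) := by
  have h3 : (Qe M b X)ᶜ ⊆ ⋃ t ∈ range (b + 1), {ω | ∀ j, (t + 1) * w - 1 < j → j ≤ (t + 1) * w - 1 + w → ¬ El M ω j} := by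
    intro ω hω
    by_contra hc
    apply hω
    simp only [Set.mem_iUnion, Set.mem_ofPred_eq, not_exists, mem_range] at hc
    have h4 : ∀ t : ℕ, t < b + 1 → ∃ j, (t + 1) * w - 1 < j ∧ j ≤ (t + 1) * w - 1 + w ∧ El M ω j := by
      intro t ht
      have h5 := hc t ht
      push Not at h5
      exact h5
    choose! f hf using h4
    have h6 : b < cnt M ω ((b + 2) * w) := by
      unfold cnt
      rw [Nat.count_eq_card_filter_range]
      have h7 : (range (b + 1)).card ≤ ((range ((b + 2) * w)).filter (El M ω)).card := by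
        refine card_le_card_of_injOn f ?_ ?_
        · intro t ht
          have ht' : t < b + 1 := mem_range.1 (mem_coe.1 ht)
          obtain ⟨h8, h9, h10⟩ := hf t ht'
          rw [mem_coe, mem_filter, mem_range]
          refine ⟨?_, h10⟩
          have h11 : (t + 1) * w + w ≤ (b + 2) * w := by
            calc (t + 1) * w + w = (t + 2) * w := by ring
              _ ≤ (b + 2) * w := Nat.mul_le_mul_right _ (by omega)
          have h12 : 0 < (t + 1) * w := by positivity
          omega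
        · intro t ht t' ht' htt
          have ht1 : t < b + 1 := mem_range.1 (mem_coe.1 ht)
          have ht1' : t' < b + 1 := mem_range.1 (mem_coe.1 ht')
          obtain ⟨h8, h9, -⟩ := hf t ht1
          obtain ⟨h8', h9', -⟩ := hf t' ht1'
          rw [htt] at h8 h9
          have h12 : 0 < (t + 1) * w := by positivity
          have h12' : 0 < (t' + 1) * w := by positivity
          by_contra hne
          rcases lt_or_gt_of_ne hne with h | h
          · have : (t + 1) * w + w ≤ (t' + 1) * w := by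
              calc (t + 1) * w + w = (t + 1 + 1) * w := by ring
                _ ≤ (t' + 1) * w := Nat.mul_le_mul_right _ (by omega)
            omega
          · have : (t' + 1) * w + w ≤ (t + 1) * w := by
              calc (t' + 1) * w + w = (t' + 1 + 1) * w := by ring
                _ ≤ (t + 1) * w := Nat.mul_le_mul_right _ (by omega)
            omega
      rw [card_range] at h7
      refine lt_of_lt_of_le (Nat.lt_succ_self b) (h7.trans (le_of_eq ?_))
      congr
    obtain ⟨p, hp, hp'⟩ := exists_at h6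
    exact ⟨p, by omega, hp'⟩
  refine (measure_mono h3).trans ((measure_biUnion_finset_le _ _).trans ?_)
  calc ∑ t ∈ range (b + 1), law κ {ω | ∀ j, (t + 1) * w - 1 < j → j ≤ (t + 1) * w - 1 + w → ¬ El M ω j}
      ≤ ∑ t ∈ range (b + 1), ENNReal.ofReal (Real.exp (-(a * (w / M : ℕ)))) := by
        refine sum_le_sum fun t ht => law_empty hκ hM ha fun j hj hj' => h2 j ?_ ?_
        · have h12 : w ≤ (t + 1) * w := Nat.le_mul_of_pos_left _ (by omega)
          omega
        · have ht1 : t < b + 1 := mem_range.1 ht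
          have h11 : (t + 1) * w + w ≤ (b + 2) * w := by
            calc (t + 1) * w + w = (t + 2) * w := by ring
              _ ≤ (b + 2) * w := Nat.mul_le_mul_right _ (by omega)
          have h12 : 0 < (t + 1) * w := by positivity
          omega
    _ = _ := by
        rw [sum_const, card_range, nsmul_eq_mul, ENNReal.ofReal_mul (by positivity)]
        congr 1
        rw [show ((b : ℝ) + 1) = ((b + 1 : ℕ) : ℝ) by push_cast; ring, ENNReal.ofReal_natCast]

end Pool.Agent.W2helper70.CG
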