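import Pool.Agent.W2helper70.CG.Sharp

set_option autoImplicit false

/-!
The representations `n = k + m` with `P k + 2` and `P (P m) + 2` in the random set.
-/

namespace Pool.Agent.W2helper70.CG

open MeasureTheory ProbabilityTheory Finset Filter
open scoped ENNReal Topology

open Classical in
/-- the `k` in `(a, b]` for which `P k + 2` and `P (P (n - k)) + 2` are in the random set -/
noncomputable def reps (M : ℕ) (ω : Om) (n a b : ℕ) : Finset ℕ :=
  (Ioc a b).filter fun k => Twin M ω k ∧ Twin M ω (P M ω (n - k))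

theorem window_two {κ : ℝ} (hκ : 0 < κ) {M : ℕ} (hM : Even M) (hM0 : 0 < M) (A : ℕ) :
    ∃ c C : ℝ, 0 < c ∧ 0 < C ∧ ∀ᵐ ω ∂(law κ), ∀ᶠ n : ℕ in atTop, ∀ y H : ℕ, n ≤ y ^ A → 2 * (y + H) ≤ n →
      C * Real.log n ^ 3 ≤ H →
      c * H / Real.log n ^ 2 ≤ (reps M ω n y (y + H)).card ∧
      (reps M ω n y (y + H)).card ≤ C * H / Real.log n ^ 2 := by
  classical
  obtain ⟨c, K, hc, hK, h1⟩ := fam_two hκ hM hM0 A 2
  obtain ⟨C, K', hC, hK', h2⟩ := fam_two_up hκ hM hM0 A 2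
  refine ⟨c, C + K + K', hc, by positivity, ?_⟩
  set S : ℕ → ℕ → Finset ℕ := fun n t => Ioc (t / n) (t / n + t % n) with hS
  filter_upwards [h1 S, h2 S] with ω hω1 hω2
  filter_upwards [hω1, hω2, ev_log 1, eventually_ge_atTop 3] with n hn1 hn2 hlog h3 y H hy hyH hH
  have hl0 : 0 < Real.log n := by linarith
  have hn0 : 0 < n := by omega
  have hHn : H < n := by
    by_contra hc
    omega
  have hyn : y < n := by
    by_contra hc
    omega
  have ht : y * n + H < n ^ 2 := by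
    calc y * n + H < y * n + n := by omega
      _ = (y + 1) * n := by ring
      _ ≤ n * n := Nat.mul_le_mul_right _ hyn
      _ = n ^ 2 := by ring
  have hdiv : (y * n + H) / n = y := by
    rw [mul_comm y n, Nat.mul_add_div hn0, Nat.div_eq_of_lt hHn, add_zero]
  have hmod : (y * n + H) % n = H := by
    rw [mul_comm y n, Nat.mul_add_mod, Nat.mod_eq_of_lt hHn]
  have hSn : S n (y * n + H) = Ioc y (y + H) := by
    simp only [hS, hdiv, hmod]
  have hco : ∀ k ∈ S n (y * n + H), n ≤ k ^ A ∧ 2 * k ≤ n := by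
    intro k hk
    rw [hSn, mem_Ioc] at hk
    exact ⟨hy.trans (Nat.pow_le_pow_left hk.1.le A), by omega⟩
  have hcard : ((S n (y * n + H)).card : ℝ) = H := by
    rw [hSn, Nat.card_Ioc]
    congr 1
    omega
  have hl3 : 0 ≤ Real.log n ^ 3 := by positivity
  have h4 := hn1 _ ht hco (by rw [hcard]; nlinarith)
  have h5 := hn2 _ ht hco (by rw [hcard]; nlinarith)
  rw [hcard, hSn] at h4 h5
  refine ⟨?_, ?_⟩
  · refine h4.trans (le_of_eq ?_)
    unfold reps
    congr
  · have h6 : C * H / Real.log n ^ 2 ≤ (C + K + K') * H / Real.log n ^ 2 := by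
      gcongr
      linarith
    refine le_trans (le_of_eq ?_) (h5.trans h6)
    unfold reps
    congr

theorem count_two {κ : ℝ} (hκ : 0 < κ) {M : ℕ} (hM : Even M) (hM0 : 0 < M) :
    ∃ c C : ℝ, 0 < c ∧ 0 < C ∧ ∀ᵐ ω ∂(law κ), ∀ᶠ n : ℕ in atTop,
      c * n / Real.log n ^ 2 ≤ (reps M ω n 0 (n / 2)).card ∧
      (reps M ω n 0 (n / 2)).card ≤ C * n / Real.log n ^ 2 := by
  classical
  obtain ⟨c, C, hc, hC, h⟩ := window_two hκ hM hM0 2
  refine ⟨c / 5, C + 1, by positivity, by positivity, ?_⟩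
  filter_upwards [h] with ω hω
  filter_upwards [hω, ev_log 1, ev_log_pow 3 (5 * C), ev_log_pow 4 16, eventually_ge_atTop 100]
    with n hn hlog hlog3 hlog4 hn100
  have hl0 : 0 < Real.log n := by linarith
  have hn0 : (0 : ℝ) < n := by exact_mod_cast (by omega : 0 < n)
  have hmono : ∀ a b, b ≤ n / 2 → (reps M ω n a b).card ≤ (reps M ω n 0 (n / 2)).card := by
    intro a b hb
    unfold reps
    refine card_le_card (filter_subset_filter _ ?_)
    intro k hk
    rw [mem_Ioc] at hk ⊢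
    omega
  constructor
  · have h1 : n ≤ (n / 4) ^ 2 := by
      have h2 : n < 4 * (n / 4) + 4 := by omega
      have h3 : 25 ≤ n / 4 := by omega
      nlinarith
    have hH : (n : ℝ) / 5 ≤ ((n / 2 - n / 4 : ℕ) : ℝ) := by
      have h2 : n ≤ 5 * (n / 2 - n / 4) := by omega
      have h3 : (n : ℝ) ≤ 5 * ((n / 2 - n / 4 : ℕ) : ℝ) := by exact_mod_cast h2
      linarith
    have h2 := (hn (n / 4) (n / 2 - n / 4) h1 (by omega) (by linarith)).1
    have h3 := hmono (n / 4) (n / 4 + (n / 2 - n / 4)) (by omega)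
    calc c / 5 * n / Real.log n ^ 2 = c * (n / 5) / Real.log n ^ 2 := by ring
      _ ≤ c * ((n / 2 - n / 4 : ℕ) : ℝ) / Real.log n ^ 2 := by gcongr
      _ ≤ (reps M ω n (n / 4) (n / 4 + (n / 2 - n / 4))).card := h2
      _ ≤ _ := by exact_mod_cast h3
  · set y := Nat.sqrt n + 1 with hy
    have h1 : n ≤ y ^ 2 := by
      have := Nat.lt_succ_sqrt n
      rw [pow_two]
      exact this.le
    have h10 : 10 ≤ Nat.sqrt n := Nat.le_sqrt.2 (by omega)
    have hss : Nat.sqrt n * Nat.sqrt n ≤ n := Nat.sqrt_le n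
    have hy4 : 4 * y ≤ n := by nlinarith
    have hH : (n : ℝ) / 5 ≤ ((n / 2 - y : ℕ) : ℝ) := by
      have h2 : n ≤ 5 * (n / 2 - y) := by omega
      have h3 : (n : ℝ) ≤ 5 * ((n / 2 - y : ℕ) : ℝ) := by exact_mod_cast h2
      linarith
    have h2 := (hn y (n / 2 - y) h1 (by omega) (by linarith)).2
    have h3 : (reps M ω n 0 (n / 2)).card ≤ y + (reps M ω n y (y + (n / 2 - y))).card := by
      have h4 : reps M ω n 0 (n / 2) ⊆ Ioc 0 y ∪ reps M ω n y (y + (n / 2 - y)) := by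
        intro k hk
        unfold reps at hk ⊢
        rw [mem_filter, mem_Ioc] at hk
        rw [mem_union, mem_Ioc, mem_filter, mem_Ioc]
        by_cases h5 : k ≤ y
        · exact Or.inl ⟨hk.1.1, h5⟩
        · exact Or.inr ⟨⟨by omega, by omega⟩, hk.2⟩
      refine (card_le_card h4).trans ((card_union_le _ _).trans ?_)
      rw [Nat.card_Ioc]
      omega
    have h4 : (y : ℝ) ≤ n / Real.log n ^ 2 := by
      rw [le_div_iff₀ (by positivity)]
      have h5 : 4 * Real.log n ^ 2 ≤ √(n : ℝ) := by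
        refine Real.le_sqrt_of_sq_le ?_
        calc (4 * Real.log n ^ 2) ^ 2 = 16 * Real.log n ^ 4 := by ring
          _ ≤ (n : ℝ) := hlog4
      have h6 : ((Nat.sqrt n : ℕ) : ℝ) ≤ √(n : ℝ) := Real.nat_sqrt_le_real_sqrt
      have h7 : √(n : ℝ) * √(n : ℝ) = n := Real.mul_self_sqrt hn0.le
      have h8 : (1 : ℝ) ≤ √(n : ℝ) := by
        rw [Real.one_le_sqrt]
        exact_mod_cast (by omega : 1 ≤ n)
      have h9 : (y : ℝ) = (Nat.sqrt n : ℕ) + 1 := by rw [hy]; push_cast; ring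
      have h10 : 0 ≤ Real.log n ^ 2 := by positivity
      rw [h9]
      nlinarith
    have h5 : ((n / 2 - y : ℕ) : ℝ) ≤ n := by exact_mod_cast (by omega : n / 2 - y ≤ n)
    calc ((reps M ω n 0 (n / 2)).card : ℝ) ≤ y + (reps M ω n y (y + (n / 2 - y))).card := by exact_mod_cast h3
      _ ≤ n / Real.log n ^ 2 + C * ((n / 2 - y : ℕ) : ℝ) / Real.log n ^ 2 := add_le_add h4 h2
      _ ≤ n / Real.log n ^ 2 + C * n / Real.log n ^ 2 := by gcongr
      _ = (C + 1) * n / Real.log n ^ 2 := by ring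

theorem gap_two {κ : ℝ} (hκ : 0 < κ) {M : ℕ} (hM : Even M) (hM0 : 0 < M) :
    ∃ c : ℝ, 0 < c ∧ ∀ᵐ ω ∂(law κ), ∀ᶠ n : ℕ in atTop, ∃ y : ℕ, n ≤ 4 * y ∧
      2 * (y + c * Real.log n ^ 3) ≤ (n : ℝ) ∧
      ∀ k : ℕ, y < k → (k : ℝ) ≤ y + c * Real.log n ^ 3 → ¬ (Twin M ω k ∧ Twin M ω (P M ω (n - k))) := by
  classical
  obtain ⟨C1, hC1, hup⟩ := fam_up hκ hM hM0 2 1 1
  set c : ℝ := 1 / (24 * κ * C1) with hc
  have hc0 : 0 < c := by positivity
  refine ⟨c, hc0, ?_⟩
  set H : ℕ → ℕ := fun n => ⌊c * Real.log n ^ 3⌋₊ with hH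
  set B0 : ℕ → ℕ := fun n => ⌊C1 * c * Real.log n ^ 2⌋₊ with hB0
  set yy : ℕ → ℕ → ℕ := fun n s => n / 4 + 1 + s * H n with hyy
  set S : ℕ → ℕ → Finset ℕ := fun n s => Ioc (yy n s) (yy n s + H n) with hS
  have hev : ∀ᶠ n : ℕ in atTop, 9 ≤ n ∧ 1 ≤ Real.log n ∧ 5 * Real.log n ^ 2 ≤ H n ∧
      (∀ s < Nat.sqrt n, 2 * ((yy n s : ℝ) + c * Real.log n ^ 3) ≤ n) := by
    filter_upwards [ev_log 1, ev_log (6 / c), ev_log_pow 6 ((16 * c + 1) ^ 2), eventually_ge_atTop 100]
      with n hlog hlog2 hlog6 hn100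
    have hl0 : 0 < Real.log n := by linarith
    have h3 : 0 ≤ Real.log n ^ 3 := by positivity
    have h1 : 1 ≤ Real.log n ^ 3 := one_le_pow₀ hlog
    refine ⟨by omega, hlog, ?_, ?_⟩
    · have h4 : c * Real.log n ^ 3 < H n + 1 := Nat.lt_floor_add_one _
      have h5 : 6 ≤ c * Real.log n := by
        rwa [div_le_iff₀' hc0] at hlog2
      have h6 : 6 * Real.log n ^ 2 ≤ c * Real.log n ^ 3 := by
        calc 6 * Real.log n ^ 2 ≤ c * Real.log n * Real.log n ^ 2 := by gcongr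
          _ = c * Real.log n ^ 3 := by ring
      have h7 : 1 ≤ Real.log n ^ 2 := one_le_pow₀ hlog
      linarith
    · intro s hs
      have hn0 : (0 : ℝ) ≤ n := Nat.cast_nonneg n
      have h4 : 16 * c * Real.log n ^ 3 + 1 ≤ √(n : ℝ) := by
        refine Real.le_sqrt_of_sq_le ?_
        calc (16 * c * Real.log n ^ 3 + 1) ^ 2 ≤ ((16 * c + 1) * Real.log n ^ 3) ^ 2 := by
              gcongr
              linarith
          _ = (16 * c + 1) ^ 2 * Real.log n ^ 6 := by ring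
          _ ≤ (n : ℝ) := hlog6
      have h5 : √(n : ℝ) < ((Nat.sqrt n : ℕ) : ℝ) + 1 := Real.real_sqrt_lt_nat_sqrt_succ
      have h6 : 16 * c * Real.log n ^ 3 ≤ ((Nat.sqrt n : ℕ) : ℝ) := by linarith
      have h7 : ((Nat.sqrt n : ℕ) : ℝ) * ((Nat.sqrt n : ℕ) : ℝ) ≤ n := by exact_mod_cast Nat.sqrt_le n
      have h8 : (H n : ℝ) ≤ c * Real.log n ^ 3 := Nat.floor_le (by positivity)
      have h9 : ((yy n s : ℕ) : ℝ) = ((n / 4 : ℕ) : ℝ) + 1 + s * H n := by simp only [hyy]; push_cast; ring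
      have h10 : ((n / 4 : ℕ) : ℝ) ≤ n / 4 := by
        have : ((n / 4 : ℕ) : ℝ) * 4 ≤ n := by exact_mod_cast Nat.div_mul_le_self n 4
        linarith
      have h11 : (s : ℝ) + 1 ≤ ((Nat.sqrt n : ℕ) : ℝ) := by exact_mod_cast hs
      have h12 : (s : ℝ) * H n + c * Real.log n ^ 3 ≤ ((Nat.sqrt n : ℕ) : ℝ) * (c * Real.log n ^ 3) := by
        have h13 : (0 : ℝ) ≤ s := Nat.cast_nonneg s
        have h14 : 0 ≤ c * Real.log n ^ 3 := by positivity
        nlinarith [mul_le_mul_of_nonneg_left h8 h13, mul_le_mul_of_nonneg_right h11 h14]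
      have h13 : ((Nat.sqrt n : ℕ) : ℝ) * (c * Real.log n ^ 3) ≤ n / 16 := by
        have h14 : (0 : ℝ) ≤ ((Nat.sqrt n : ℕ) : ℝ) := Nat.cast_nonneg _
        nlinarith [mul_le_mul_of_nonneg_left h6 h14]
      have h14 : (100 : ℝ) ≤ n := by exact_mod_cast hn100
      rw [h9]
      linarith
  set Bad : ℕ → Set Om := fun n => (({ω | (∀ s : Fin (Nat.sqrt n), (JJ M n (n ^ 3) (S n s) ω).card ≤ B0 n) ∧
    ∀ s : Fin (Nat.sqrt n), ∃ v ∈ JJ M n (n ^ 3) (S n s) ω, E M v ω} ∩ Qe M (n ^ 4) (n ^ 9)) ∪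
    (Qe M (n ^ 4) (n ^ (2 * 4 + 1)))ᶜ) ∪ (Qe M (n ^ 1) (n ^ (2 * 1 + 1)))ᶜ with hBad
  have hSok : ∀ n : ℕ, 9 ≤ n → 1 ≤ Real.log n → (∀ s < Nat.sqrt n, 2 * ((yy n s : ℝ) + c * Real.log n ^ 3) ≤ n) →
      ∀ s < Nat.sqrt n, ∀ k ∈ S n s, 2 ≤ k ∧ 2 * k ≤ n := by
    intro n hn9 hlog h s hs k hk
    have h1 := h s hs
    rw [hS, mem_Ioc] at hk
    have h2 : (H n : ℝ) ≤ c * Real.log n ^ 3 := Nat.floor_le (by positivity)
    have h3 : (k : ℝ) ≤ yy n s + H n := by exact_mod_cast hk.2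
    have h4 : (2 : ℝ) * k ≤ n := by linarith
    have h5 : n / 4 + 1 ≤ yy n s := by simp only [hyy]; omega
    exact ⟨by omega, by exact_mod_cast h4⟩
  have hb : ∀ᶠ n : ℕ in atTop, law κ (Bad n) ≤ ENNReal.ofReal (3 / (n : ℝ) ^ 2) := by
    filter_upwards [sharp_one hκ hM, q_small hκ hM0 (B := 4) (by omega), q_small hκ hM0 (B := 1) (by omega),
      hev, ev_log_pow 4 256] with n h1 h2 h3 h4 h5
    obtain ⟨hn9, hlog, hHl, hyl⟩ := h4
    have hl0 : 0 < Real.log n := by linarith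
    have hn0 : (0 : ℝ) < n := by exact_mod_cast (by omega : 0 < n)
    have hdisj : ∀ s s' : Fin (Nat.sqrt n), s ≠ s' → Disjoint (S n s) (S n s') := by
      intro s s' hne
      rw [disjoint_left]
      intro k hk hk'
      simp only [hS, hyy, mem_Ioc] at hk hk'
      have hne' : (s : ℕ) ≠ (s' : ℕ) := fun h => hne (Fin.ext h)
      rcases lt_or_gt_of_ne hne' with h | h
      · have : ((s : ℕ) + 1) * H n ≤ s' * H n := Nat.mul_le_mul_right _ h
        have h6 : ((s : ℕ) + 1) * H n = s * H n + H n := by ring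
        omega
      · have : ((s' : ℕ) + 1) * H n ≤ s * H n := Nat.mul_le_mul_right _ h
        have h6 : ((s' : ℕ) + 1) * H n = s' * H n + H n := by ring
        omega
    have h6 := h1 (Nat.sqrt n) (B0 n) (fun s => S n s)
      (fun s => hSok n hn9 hlog hyl s s.2) hdisj
    have h7 : (1 - Real.exp (-(6 * κ * B0 n / Real.log n))) ^ (Nat.sqrt n) ≤ 1 / (n : ℝ) ^ 2 := by
      set z : ℝ := Real.exp (Real.log n / 4) with hz
      have hz0 : 0 < z := Real.exp_pos _
      have hz4 : z ^ 4 = n := by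
        rw [hz, ← Real.exp_nat_mul]
        push_cast
        rw [mul_div_cancel₀ _ (by norm_num), Real.exp_log hn0]
      have hz1 : 4 * Real.log n ≤ z := by
        have h8 : (4 * Real.log n) ^ 4 ≤ z ^ 4 := by
          rw [hz4]
          calc (4 * Real.log n) ^ 4 = 256 * Real.log n ^ 4 := by ring
            _ ≤ (n : ℝ) := h5
        exact le_of_pow_le_pow_left₀ (by norm_num) hz0.le h8
      have hm : z ^ 2 / 2 ≤ ((Nat.sqrt n : ℕ) : ℝ) := by
        have h8 : √(n : ℝ) < ((Nat.sqrt n : ℕ) : ℝ) + 1 := Real.real_sqrt_lt_nat_sqrt_succ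
        have h9 : √(n : ℝ) = z ^ 2 := by
          rw [← hz4, show z ^ 4 = (z ^ 2) ^ 2 by ring, Real.sqrt_sq (by positivity)]
        rw [h9] at h8
        have h10 : 4 ≤ z := by linarith
        nlinarith
      have he : 1 / z ≤ Real.exp (-(6 * κ * B0 n / Real.log n)) := by
        rw [one_div, hz, ← Real.exp_neg]
        refine Real.exp_le_exp.2 (neg_le_neg ?_)
        have h8 : (B0 n : ℝ) ≤ C1 * c * Real.log n ^ 2 := Nat.floor_le (by positivity)
        calc 6 * κ * B0 n / Real.log n ≤ 6 * κ * (C1 * c * Real.log n ^ 2) / Real.log n := by gcongr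
          _ = Real.log n / 4 := by
              rw [hc]
              field_simp
              ring
      have he1 : Real.exp (-(6 * κ * B0 n / Real.log n)) ≤ 1 := by
        rw [Real.exp_le_one_iff, neg_nonpos]
        positivity
      have h1z : 0 ≤ 1 - 1 / z := by linarith
      calc (1 - Real.exp (-(6 * κ * B0 n / Real.log n))) ^ (Nat.sqrt n) ≤ (1 - 1 / z) ^ (Nat.sqrt n) := by
            apply pow_le_pow_left₀ (by linarith)
            linarith
        _ ≤ Real.exp (-(1 / z)) ^ (Nat.sqrt n) := by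
            refine pow_le_pow_left₀ h1z ?_ _
            have := Real.add_one_le_exp (-(1 / z))
            linarith
        _ = Real.exp (-((Nat.sqrt n : ℕ) * (1 / z))) := by
            rw [← Real.exp_nat_mul]; congr 1; ring
        _ ≤ Real.exp (-((2 : ℕ) * Real.log n)) := by
            refine Real.exp_le_exp.2 (neg_le_neg ?_)
            calc ((2 : ℕ) : ℝ) * Real.log n ≤ z / 2 := by push_cast; linarith
              _ = z ^ 2 / 2 * (1 / z) := by field_simp
              _ ≤ (Nat.sqrt n : ℕ) * (1 / z) := by gcongr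
        _ = 1 / (n : ℝ) ^ 2 := exp_neg_log (by omega) 2
    calc law κ (Bad n) ≤ (ENNReal.ofReal (1 / (n : ℝ) ^ 2) + ENNReal.ofReal (1 / (n : ℝ) ^ 2)) +
          ENNReal.ofReal (1 / (n : ℝ) ^ 2) := by
          refine (measure_union_le _ _).trans (add_le_add ((measure_union_le _ _).trans (add_le_add ?_ h2)) h3)
          exact h6.trans (ENNReal.ofReal_le_ofReal h7)
      _ = ENNReal.ofReal (3 / (n : ℝ) ^ 2) := by
          rw [← ENNReal.ofReal_add (by positivity) (by positivity), ← ENNReal.ofReal_add (by positivity) (by positivity)]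
          congr 1
          ring
  filter_upwards [bc κ hb, hup S] with ω hω hω2
  filter_upwards [hω, hω2, hev] with n hn hn2 hn3
  obtain ⟨hn9, hlog, hHl, hyl⟩ := hn3
  have hl0 : 0 < Real.log n := by linarith
  have hQ4 : ω ∈ Qe M (n ^ 4) (n ^ (2 * 4 + 1)) := by
    by_contra h
    exact hn (Or.inl (Or.inr h))
  have hQ1 : ω ∈ Qe M (n - 3) (n ^ 3) := by
    by_contra h
    refine hn (Or.inr fun h2 => h ?_)
    exact Qe_anti (by rw [pow_one]; omega) h2
  have hok := hSok n hn9 hlog hyl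
  have hHn : H n ≤ n := by
    by_cases h0 : 0 < Nat.sqrt n
    · have h1 := hyl 0 h0
      have h2 : (H n : ℝ) ≤ c * Real.log n ^ 3 := Nat.floor_le (by positivity)
      have h3 : (0 : ℝ) ≤ (yy n 0 : ℝ) := Nat.cast_nonneg _
      have h4 : (H n : ℝ) ≤ n := by linarith
      exact_mod_cast h4
    · exact absurd (Nat.sqrt_pos.2 (by omega)) h0
  have hB : ∀ s : Fin (Nat.sqrt n), (JJ M n (n ^ 3) (S n s) ω).card ≤ B0 n := by
    intro s
    have hcardS : (S n s).card = H n := by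
      simp only [hS, Nat.card_Ioc]
      omega
    have h1 := hn2 s (by rw [pow_one]; exact s.2.trans_le (Nat.sqrt_le_self n)) ?_ (H n) hHn
      (by rw [hcardS]) (by push_cast; linarith)
    · refine Nat.le_floor ?_
      have h2 : ((JJ M n (n ^ 3) (S n s) ω).card : ℝ) ≤ ((S n s).filter (Twin M ω)).card := by
        exact_mod_cast JJ_le (hok s s.2) ω
      have h3 : (H n : ℝ) ≤ c * Real.log n ^ 3 := Nat.floor_le (by positivity)
      calc ((JJ M n (n ^ 3) (S n s) ω).card : ℝ) ≤ C1 * H n / Real.log n := h2.trans h1.le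
        _ ≤ C1 * (c * Real.log n ^ 3) / Real.log n := by gcongr
        _ = C1 * c * Real.log n ^ 2 := by field_simp
    · intro j hj
      have h2 := (hok s s.2 j hj).2
      refine ⟨?_, by rw [pow_one]; omega⟩
      simp only [hS, hyy, mem_Ioc] at hj
      have h3 : n / 4 + 2 ≤ j := by
        have := Nat.zero_le ((s : ℕ) * H n)
        omega
      have h4 : n < 4 * j := by omega
      have h5 : 4 ≤ j := by omega
      nlinarith
  have hex : ∃ s : Fin (Nat.sqrt n), ∀ v ∈ JJ M n (n ^ 3) (S n s) ω, ¬ E M v ω := by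
    by_contra hcon
    push Not at hcon
    exact hn (Or.inl (Or.inl ⟨⟨hB, hcon⟩, hQ4⟩))
  obtain ⟨s, hs⟩ := hex
  refine ⟨yy n s, ?_, hyl s s.2, fun k hk hk2 => ?_⟩
  · simp only [hyy]; omega
  · rintro ⟨h1, h2⟩
    have hkS : k ∈ S n s := by
      rw [hS, mem_Ioc]
      refine ⟨hk, ?_⟩
      have h3 : ((k - yy n s : ℕ) : ℝ) ≤ c * Real.log n ^ 3 := by
        rw [Nat.cast_sub hk.le]
        linarith
      have h4 : k - yy n s ≤ H n := Nat.le_floor h3
      omega
    obtain ⟨v, hv, hv2, -⟩ := rep_mem hM (hok s s.2) hQ1 hkS h1 h2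
    exact hs v hv hv2

end Pool.Agent.W2helper70.CG
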