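import Pool.Agent.W2helper70.CG.UpTwo

set_option autoImplicit false

/-!
Intervals without representations.
-/

namespace Pool.Agent.W2helper70.CG

open MeasureTheory ProbabilityTheory Finset Filter
open scoped ENNReal Topology

open Classical in
/-- **Domination by independent coins**, given the past. -/
theorem domh (κ : ℝ) {M : ℕ} (hM : Even M) {X : ℕ} {ι : Type} (col : ℕ → ι) (N : Finset ι) {θ : ℝ}
    (h0 : 0 ≤ θ) (h1 : θ ≤ 1) {i : ℕ} {h : Om → ℝ≥0∞} (hh : Adapt M i h) (J : Finset ℕ) :
    (∀ j ∈ J, i ≤ j) → (∀ j ∈ J, ∀ q, j ≤ q → rho κ (q + 2) ≤ θ) → (∀ j ∈ J, col j ∈ N) →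
    ∀ u : ι → ℝ, (∀ n, 0 ≤ u n ∧ u n ≤ 1) → ∀ b, i ≤ b → (∀ j ∈ J, j ≤ b) →
    ∫⁻ ω, h ω * (∏ n ∈ N, ph M col J u n ω) * (Qe M b X).indicator 1 ω ∂(law κ) ≤
      (∏ n ∈ N, ENNReal.ofReal (1 - (1 - u n) * (1 - θ) ^ (J.filter fun j => col j = n).card)) *
        ∫⁻ ω, h ω * (Qe M i X).indicator 1 ω ∂(law κ) := by
  induction J using Finset.induction_on_max with
  | empty =>
    intro _ _ _ u hu b hib _
    calc ∫⁻ ω, h ω * (∏ n ∈ N, ph M col ∅ u n ω) * (Qe M b X).indicator 1 ω ∂(law κ)
        ≤ ∫⁻ ω, (∏ n ∈ N, ENNReal.ofReal (u n)) * (h ω * (Qe M i X).indicator 1 ω) ∂(law κ) := by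
          refine lintegral_mono fun ω => ?_
          have h2 : ∏ n ∈ N, ph M col ∅ u n ω = ∏ n ∈ N, ENNReal.ofReal (u n) := by
            refine prod_congr rfl fun n _ => ?_
            unfold ph
            simp
          rw [h2, mul_comm (h ω), mul_assoc]
          exact mul_le_mul_right (mul_le_mul_right (Qind_mono hib ω) _) _
      _ = (∏ n ∈ N, ENNReal.ofReal (u n)) * ∫⁻ ω, h ω * (Qe M i X).indicator 1 ω ∂(law κ) :=
          lintegral_const_mul' _ _ (ENNReal.prod_ne_top fun _ _ => ENNReal.ofReal_ne_top)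
      _ ≤ _ := by
          gcongr with n _
          rw [filter_empty, card_empty, pow_zero, mul_one, sub_sub_cancel]
  | insert a s has ih =>
    intro hJ hθ hcol u hu b hib hb
    have ha : a ∉ s := fun h => lt_irrefl _ (has a h)
    have hia : i ≤ a := hJ a (mem_insert_self _ _)
    set n0 := col a with hn0
    have hn0N : n0 ∈ N := hcol a (mem_insert_self _ _)
    set u' : ι → ℝ := Function.update u n0 (u n0 + θ * (1 - u n0)) with hu'
    have hu1 : ∀ n, 0 ≤ u' n ∧ u' n ≤ 1 := by
      intro n
      rw [hu']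
      by_cases h : n = n0
      · rw [h, Function.update_self]
        have := hu n0
        constructor <;> nlinarith
      · rw [Function.update_of_ne h]; exact hu n
    have ih' := ih (fun j hj => hJ j (mem_insert_of_mem hj)) (fun j hj => hθ j (mem_insert_of_mem hj))
      (fun j hj => hcol j (mem_insert_of_mem hj)) u' hu1 a hia (fun j hj => (has j hj).le)
    have hins : ∀ n ω, n ≠ n0 → ph M col (insert a s) u n ω = ph M col s u n ω := by
      intro n ω hn
      unfold ph
      have : (∃ j ∈ insert a s, col j = n ∧ E M j ω) ↔ ∃ j ∈ s, col j = n ∧ E M j ω := by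
        constructor
        · rintro ⟨j, hj, hj2, hj3⟩
          rcases mem_insert.1 hj with h | h
          · exact absurd (by rw [← hj2, h]) hn
          · exact ⟨j, h, hj2, hj3⟩
        · rintro ⟨j, hj, hj2, hj3⟩
          exact ⟨j, mem_insert_of_mem hj, hj2, hj3⟩
      simp only [this]
    have hins' : ∀ n ω, n ≠ n0 → ph M col s u' n ω = ph M col s u n ω := by
      intro n ω hn
      unfold ph
      rw [hu', Function.update_of_ne hn]
    have h2 : ∀ ω, ph M col (insert a s) u n0 ω =
        ph M col s u n0 ω + (1 - ph M col s u n0 ω) * {ω | E M a ω}.indicator 1 ω := by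
      intro ω
      by_cases h3 : ∃ j ∈ s, col j = n0 ∧ E M j ω
      · have h4 : ph M col s u n0 ω = 1 := if_pos h3
        have h5 : ph M col (insert a s) u n0 ω = 1 := by
          obtain ⟨j, hj, hj2⟩ := h3
          exact if_pos ⟨j, mem_insert_of_mem hj, hj2⟩
        rw [h4, h5, tsub_self, zero_mul, add_zero]
      · have h4 : ph M col s u n0 ω = ENNReal.ofReal (u n0) := if_neg h3
        by_cases h6 : E M a ω
        · have h5 : ph M col (insert a s) u n0 ω = 1 := if_pos ⟨a, mem_insert_self _ _, rfl, h6⟩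
          rw [h4, h5, Set.indicator_of_mem (show ω ∈ {ω | E M a ω} from h6), Pi.one_apply, mul_one]
          exact (add_tsub_cancel_of_le (ENNReal.ofReal_le_one.2 (hu n0).2)).symm
        · have h5 : ph M col (insert a s) u n0 ω = ENNReal.ofReal (u n0) := by
            refine if_neg ?_
            rintro ⟨j, hj, hj2, hj3⟩
            rcases mem_insert.1 hj with h | h
            · exact h6 (h ▸ hj3)
            · exact h3 ⟨j, h, hj2, hj3⟩
          rw [h4, h5, Set.indicator_of_notMem (show ω ∉ {ω | E M a ω} from h6), mul_zero, add_zero]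
    have h3 : ∀ ω, ph M col s u' n0 ω =
        ph M col s u n0 ω + (1 - ph M col s u n0 ω) * ENNReal.ofReal θ := by
      intro ω
      by_cases h3 : ∃ j ∈ s, col j = n0 ∧ E M j ω
      · have h4 : ph M col s u n0 ω = 1 := if_pos h3
        have h5 : ph M col s u' n0 ω = 1 := if_pos h3
        rw [h4, h5, tsub_self, zero_mul, add_zero]
      · have h4 : ph M col s u n0 ω = ENNReal.ofReal (u n0) := if_neg h3
        have h5 : ph M col s u' n0 ω = ENNReal.ofReal (u' n0) := if_neg h3
        have h6 := hu n0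
        rw [h4, h5, hu', Function.update_self, ← ENNReal.ofReal_one, ← ENNReal.ofReal_sub _ h6.1,
          ← ENNReal.ofReal_mul (by linarith), ← ENNReal.ofReal_add h6.1 (mul_nonneg (by linarith) h0)]
        congr 1
        ring
    set Z : Om → ℝ≥0∞ := fun ω => h ω * ∏ n ∈ N.erase n0, ph M col s u n ω with hZ
    have hadZ : Adapt M a Z :=
      adapt_mul (hh.mono hia) (adapt_prod' _ fun n _ => adapt_ph hM col (fun j hj => has j hj) u n)
    have had1 : Adapt M a fun ω => Z ω * ph M col s u n0 ω :=
      adapt_mul hadZ (adapt_ph hM col (fun j hj => has j hj) u n0)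
    have had2 : Adapt M a fun ω => Z ω * (1 - ph M col s u n0 ω) :=
      adapt_mul hadZ (adapt_comp (adapt_ph hM col (fun j hj => has j hj) u n0) fun x => 1 - x)
    have hls := low_step κ (X := X) had2 (θ := ENNReal.ofReal θ)
      fun q hq => ENNReal.ofReal_le_ofReal (hθ a (mem_insert_self _ _) q hq)
    calc ∫⁻ ω, h ω * (∏ n ∈ N, ph M col (insert a s) u n ω) * (Qe M b X).indicator 1 ω ∂(law κ)
        ≤ ∫⁻ ω, ((Z ω * ph M col s u n0 ω) * (Qe M a X).indicator 1 ω +
            (Z ω * (1 - ph M col s u n0 ω)) * {ω | E M a ω}.indicator 1 ω * (Qe M a X).indicator 1 ω) ∂(law κ) := by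
          refine lintegral_mono fun ω => ?_
          rw [← mul_prod_erase N _ hn0N, h2 ω, prod_congr rfl fun n hn => hins n ω (ne_of_mem_erase hn)]
          calc h ω * ((ph M col s u n0 ω + (1 - ph M col s u n0 ω) * {ω | E M a ω}.indicator 1 ω) *
                ∏ n ∈ N.erase n0, ph M col s u n ω) * (Qe M b X).indicator 1 ω
              ≤ h ω * ((ph M col s u n0 ω + (1 - ph M col s u n0 ω) * {ω | E M a ω}.indicator 1 ω) *
                ∏ n ∈ N.erase n0, ph M col s u n ω) * (Qe M a X).indicator 1 ω :=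
                mul_le_mul_right (Qind_mono (hb a (mem_insert_self _ _)) ω) _
            _ = _ := by
                simp only [hZ]
                ring
      _ = (∫⁻ ω, (Z ω * ph M col s u n0 ω) * (Qe M a X).indicator 1 ω ∂(law κ)) +
            ∫⁻ ω, (Z ω * (1 - ph M col s u n0 ω)) * {ω | E M a ω}.indicator 1 ω * (Qe M a X).indicator 1 ω ∂(law κ) :=
          lintegral_add_left (det_adapt_fun had1).meas _
      _ ≤ (∫⁻ ω, (Z ω * ph M col s u n0 ω) * (Qe M a X).indicator 1 ω ∂(law κ)) +
            ENNReal.ofReal θ * ∫⁻ ω, (Z ω * (1 - ph M col s u n0 ω)) * (Qe M a X).indicator 1 ω ∂(law κ) := by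
          gcongr
      _ = ∫⁻ ω, ((Z ω * ph M col s u n0 ω) * (Qe M a X).indicator 1 ω +
            ENNReal.ofReal θ * ((Z ω * (1 - ph M col s u n0 ω)) * (Qe M a X).indicator 1 ω)) ∂(law κ) := by
          rw [lintegral_add_left (det_adapt_fun had1).meas, lintegral_const_mul' _ _ ENNReal.ofReal_ne_top]
      _ = ∫⁻ ω, h ω * (∏ n ∈ N, ph M col s u' n ω) * (Qe M a X).indicator 1 ω ∂(law κ) := by
          refine lintegral_congr fun ω => ?_
          rw [← mul_prod_erase N _ hn0N, h3 ω, prod_congr rfl fun n hn => hins' n ω (ne_of_mem_erase hn)]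
          simp only [hZ]
          ring
      _ ≤ _ := ih'
      _ = _ := by
          congr 1
          refine prod_congr rfl fun n _ => ?_
          congr 2
          by_cases h : n = n0
          · rw [h, hu', Function.update_self, filter_insert, if_pos hn0.symm,
              card_insert_of_notMem (fun hh => ha (mem_filter.1 hh).1), pow_succ]
            ring
          · rw [hu', Function.update_of_ne h, filter_insert, if_neg (fun hh => h (by rw [hn0, hh]))]

/-- disjoint sets of `k`: with small sets of indices in the second step, one of them has no representation -/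
theorem sharp_one {κ : ℝ} (hκ : 0 < κ) {M : ℕ} (hM : Even M) :
    ∀ᶠ n : ℕ in atTop, ∀ (m B0 : ℕ) (S : Fin m → Finset ℕ), (∀ s, ∀ k ∈ S s, 2 ≤ k ∧ 2 * k ≤ n) →
      (∀ s s', s ≠ s' → Disjoint (S s) (S s')) →
      law κ ({ω | (∀ s, (JJ M n (n ^ 3) (S s) ω).card ≤ B0) ∧ ∀ s, ∃ v ∈ JJ M n (n ^ 3) (S s) ω, E M v ω} ∩
        Qe M (n ^ 4) (n ^ 9)) ≤ ENNReal.ofReal ((1 - Real.exp (-(6 * κ * B0 / Real.log n))) ^ m) := by
  classical
  filter_upwards [eventually_ge_atTop 9, ev_log 1, ev_log (6 * κ)] with n hn9 hlog hlog2 m B0 S hS hdisj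
  have hl0 : 0 < Real.log n := by linarith
  have hi1 : n ≤ (n - 3) ^ 2 := by
    obtain ⟨m, rfl⟩ := Nat.exists_eq_add_of_le hn9
    rw [show 9 + m - 3 = 6 + m by omega]
    nlinarith
  have hi2 : n - 3 ≤ n ^ 4 := (Nat.sub_le _ _).trans (Nat.le_self_pow (by norm_num) n)
  set θ : ℝ := κ * (((2 : ℕ) : ℝ) + 1) / Real.log n with hθ
  have hθ0 : 0 ≤ θ := by positivity
  have hθ1 : θ ≤ 1 / 2 := by
    rw [hθ, div_le_iff₀ hl0]
    push_cast
    linarith
  have he0 : 0 < Real.exp (-(6 * κ * B0 / Real.log n)) := Real.exp_pos _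
  have he1 : Real.exp (-(6 * κ * B0 / Real.log n)) ≤ 1 := by
    rw [Real.exp_le_one_iff, neg_nonpos]
    positivity
  set W : (Fin m → Finset ℕ) → Set Om := fun g => {ω | ∀ s, JJ M n (n ^ 3) (S s) ω = g s} with hW
  have hWad : ∀ g, Adapt M (n - 3) fun ω => ω ∈ W g := by
    intro g p ω ω' hω hp
    have h1 : (∀ s, JJ M n (n ^ 3) (S s) ω = g s) ↔ ∀ s, JJ M n (n ^ 3) (S s) ω' = g s := by
      refine forall_congr' fun s => ?_
      rw [adapt_JJ hM (X := n ^ 3) (by omega) (hS s) p ω ω' hω hp]
    exact propext h1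
  set GG : Finset (Fin m → Finset ℕ) := (Fintype.piFinset fun _ : Fin m => (range (n ^ 3 + 1)).powerset).filter
    fun g => ∀ s, (g s).card ≤ B0 with hGG
  have hsub : ({ω | (∀ s, (JJ M n (n ^ 3) (S s) ω).card ≤ B0) ∧ ∀ s, ∃ v ∈ JJ M n (n ^ 3) (S s) ω, E M v ω} ∩
        Qe M (n ^ 4) (n ^ 9)) ⊆
      ⋃ g ∈ GG, ({ω | ω ∈ W g ∧ ∀ s, ∃ v ∈ g s, E M v ω} ∩ Qe M (n ^ 4) (n ^ 9)) := by
    rintro ω ⟨⟨h1, h2⟩, h3⟩
    rw [Set.mem_iUnion₂]
    refine ⟨fun s => JJ M n (n ^ 3) (S s) ω, ?_, ⟨fun s => rfl, h2⟩, h3⟩
    rw [hGG, mem_filter, Fintype.mem_piFinset]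
    exact ⟨fun s => mem_powerset.2 (by unfold JJ; exact filter_subset _ _), h1⟩
  refine (measure_mono hsub).trans ((measure_biUnion_finset_le _ _).trans ?_)
  calc ∑ g ∈ GG, law κ ({ω | ω ∈ W g ∧ ∀ s, ∃ v ∈ g s, E M v ω} ∩ Qe M (n ^ 4) (n ^ 9))
      ≤ ∑ g ∈ GG, ENNReal.ofReal ((1 - Real.exp (-(6 * κ * B0 / Real.log n))) ^ m) *
          law κ (W g ∩ Qe M (n - 3) (n ^ 9)) := by
        refine sum_le_sum fun g hg => ?_
        have hgB : ∀ s, (g s).card ≤ B0 := (mem_filter.1 hg).2
        by_cases hne : ∃ ω0, ω0 ∈ W g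
        · obtain ⟨ω0, hω0⟩ := hne
          have hb : ∀ s, ∀ v ∈ g s, n - 2 ≤ v ∧ v ≤ n ^ 3 := by
            intro s v hv
            rw [← hω0 s] at hv
            exact JJ_bounds hM (by omega) (hS s) hv
          have hdg : ∀ s s', s ≠ s' → Disjoint (g s) (g s') := by
            intro s s' hne
            rw [disjoint_left]
            intro v hv hv'
            rw [← hω0 s] at hv
            rw [← hω0 s'] at hv'
            unfold JJ at hv hv'
            obtain ⟨-, k, hk, -, hk3⟩ := mem_filter.1 hv
            obtain ⟨-, k', hk', -, hk3'⟩ := mem_filter.1 hv'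
            have h1 := at_index hk3 hk3'
            have h2 := hS s k hk
            have h3 := hS s' k' hk'
            have h4 : k = k' := by omega
            have h5 := hdisj s s' hne
            rw [disjoint_left] at h5
            exact h5 hk (h4 ▸ hk')
          set J : Finset ℕ := univ.biUnion g with hJ
          set col : ℕ → ℕ := fun v => if h : ∃ s : Fin m, v ∈ g s then (h.choose : ℕ) else 0 with hcol
          have hcol1 : ∀ s : Fin m, ∀ v ∈ g s, col v = (s : ℕ) := by
            intro s v hv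
            have hex : ∃ s : Fin m, v ∈ g s := ⟨s, hv⟩
            have h8 : col v = (hex.choose : ℕ) := by rw [hcol]; exact dif_pos hex
            rw [h8]
            by_contra hne
            have h9 : hex.choose ≠ s := fun h => hne (by rw [h])
            have h10 := hdg _ _ h9
            rw [disjoint_left] at h10
            exact h10 hex.choose_spec hv
          have hJ1 : ∀ v ∈ J, ∃ s : Fin m, v ∈ g s := by
            intro v hv
            obtain ⟨s, -, hs⟩ := mem_biUnion.1 hv
            exact ⟨s, hs⟩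
          have hJb : ∀ j ∈ J, j + 1 ≤ n ^ 4 := by
            intro j hj
            obtain ⟨s, hs⟩ := hJ1 j hj
            have := (hb s j hs).2
            calc j + 1 ≤ n ^ 3 + 1 := by omega
              _ ≤ n ^ 3 * 2 := by have := Nat.one_le_pow 3 n (by omega); omega
              _ ≤ n ^ 3 * n := Nat.mul_le_mul_left _ (by omega)
              _ = n ^ 4 := by ring
          have hdom := domh κ hM (X := n ^ 9) col (range m) hθ0 (by linarith) (adapt_ind (hWad g)) J
            (fun j hj => by obtain ⟨s, hs⟩ := hJ1 j hj; have := (hb s j hs).1; omega)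
            (fun j hj q hq => by
              obtain ⟨s, hs⟩ := hJ1 j hj
              have := (hb s j hs).1
              exact rho_le_of hκ hl0 hi1 (by omega))
            (fun j hj => by
              obtain ⟨s, hs⟩ := hJ1 j hj
              rw [hcol1 s j hs]
              exact mem_range.2 s.2)
            (fun _ => 0) (fun _ => ⟨le_rfl, zero_le_one⟩) (n ^ 4) hi2 (fun j hj => by have := hJb j hj; omega)
          have hV : Adapt M (n ^ 4) fun ω => ω ∈ {ω | ω ∈ W g ∧ ∀ s, ∃ v ∈ g s, E M v ω} := by
            refine adapt_and ((hWad g).mono hi2) ?_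
            intro p ω ω' hω hp
            have h7 : (∀ s, ∃ v ∈ g s, E M v ω) ↔ ∀ s, ∃ v ∈ g s, E M v ω' := by
              refine forall_congr' fun s => exists_congr fun v => and_congr_right fun hv => iff_of_eq ?_
              exact (adapt_E hM v).mono (hJb v (mem_biUnion.2 ⟨s, mem_univ _, hv⟩)) p ω ω' hω hp
            exact propext h7
          calc law κ ({ω | ω ∈ W g ∧ ∀ s, ∃ v ∈ g s, E M v ω} ∩ Qe M (n ^ 4) (n ^ 9))
              = ∫⁻ ω, ({ω | ω ∈ W g ∧ ∀ s, ∃ v ∈ g s, E M v ω} ∩ Qe M (n ^ 4) (n ^ 9)).indicator 1 ω ∂(law κ) :=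
                (lintegral_indicator_one (meas_adapt hV)).symm
            _ ≤ ∫⁻ ω, (W g).indicator 1 ω * (∏ s ∈ range m, ph M col J (fun _ => 0) s ω) *
                  (Qe M (n ^ 4) (n ^ 9)).indicator 1 ω ∂(law κ) := by
                refine lintegral_mono fun ω => ?_
                by_cases h8 : ω ∈ {ω | ω ∈ W g ∧ ∀ s, ∃ v ∈ g s, E M v ω} ∩ Qe M (n ^ 4) (n ^ 9)
                · rw [Set.indicator_of_mem h8, Set.indicator_of_mem h8.2, Set.indicator_of_mem h8.1.1,
                    prod_eq_one fun s hs => ?_]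
                  · simp
                  · unfold ph
                    refine if_pos ?_
                    obtain ⟨v, hv, hv2⟩ := h8.1.2 ⟨s, mem_range.1 hs⟩
                    exact ⟨v, mem_biUnion.2 ⟨_, mem_univ _, hv⟩, hcol1 _ v hv, hv2⟩
                · rw [Set.indicator_of_notMem h8]
                  exact zero_le
            _ ≤ _ := hdom
            _ ≤ (∏ _s ∈ range m, ENNReal.ofReal (1 - Real.exp (-(6 * κ * B0 / Real.log n)))) *
                  law κ (W g ∩ Qe M (n - 3) (n ^ 9)) := by
                refine mul_le_mul' (prod_le_prod' fun s hs => ENNReal.ofReal_le_ofReal ?_) ?_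
                · rw [sub_zero, one_mul]
                  refine sub_le_sub_left ?_ _
                  have h9 : (J.filter fun j => col j = s).card ≤ B0 := by
                    refine le_trans (card_le_card fun v hv => ?_) (hgB ⟨s, mem_range.1 hs⟩)
                    obtain ⟨hv1, hv2⟩ := mem_filter.1 hv
                    obtain ⟨s', hs'⟩ := hJ1 v hv1
                    have h10 := hcol1 s' v hs'
                    have h11 : s' = ⟨s, mem_range.1 hs⟩ := Fin.ext (by rw [← h10]; exact hv2)
                    rw [← h11]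
                    exact hs'
                  calc Real.exp (-(6 * κ * B0 / Real.log n)) = Real.exp (-(2 * θ)) ^ B0 := by
                        rw [← Real.exp_nat_mul, hθ]
                        congr 1
                        push_cast
                        ring
                    _ ≤ (1 - θ) ^ B0 := pow_le_pow_left₀ (Real.exp_pos _).le (one_sub_ge_exp hθ0 hθ1) _
                    _ ≤ (1 - θ) ^ (J.filter fun j => col j = s).card :=
                        pow_le_pow_of_le_one (by linarith) (by linarith) h9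
                    _ = _ := by congr
                · rw [← lintegral_indicator_one (meas_adapt (hWad g))]
                  exact le_of_eq (lintegral_congr fun ω => Wind_mul (W g) ω)
            _ = _ := by
                rw [prod_const, card_range, ← ENNReal.ofReal_pow (by linarith)]
        · have : ({ω | ω ∈ W g ∧ ∀ s, ∃ v ∈ g s, E M v ω} ∩ Qe M (n ^ 4) (n ^ 9)) = ∅ :=
            Set.eq_empty_of_forall_notMem fun ω hω => hne ⟨ω, hω.1.1⟩
          rw [this, measure_empty]
          exact zero_le
    _ = ENNReal.ofReal ((1 - Real.exp (-(6 * κ * B0 / Real.log n))) ^ m) *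
          law κ (⋃ g ∈ GG, (W g ∩ Qe M (n - 3) (n ^ 9))) := by
        rw [← mul_sum, measure_biUnion_finset]
        · intro g _ g' _ hne
          rw [Function.onFun, Set.disjoint_left]
          rintro ω ⟨h1, -⟩ ⟨h2, -⟩
          exact hne (funext fun s => (h1 s).symm.trans (h2 s))
        · intro g _
          exact meas_adapt (hWad g)
    _ ≤ ENNReal.ofReal ((1 - Real.exp (-(6 * κ * B0 / Real.log n))) ^ m) * 1 := by
        gcongr
        exact prob_le_one
    _ = _ := mul_one _

end Pool.Agent.W2helper70.CG
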