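import Pool.Agent.W2helper70.CG.LowFam

set_option autoImplicit false

/-!
Indices which are elements: the numbers `k` for which `P k + 2` and `P (P (n - k)) + 2` are elements.
-/

namespace Pool.Agent.W2helper70.CG

open MeasureTheory ProbabilityTheory Finset Filter
open scoped ENNReal Topology

theorem at_index {M i i' q : ℕ} {ω : Om} (h : ω ∈ At M i q) (h' : ω ∈ At M i' q) : i = i' := by
  rw [← h.2, ← h'.2]

theorem adapt_at {M i j q : ℕ} (hij : i ≤ j) : Adapt M j fun ω => ω ∈ At M i q := by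
  have key : ∀ (p : ℕ) (ω ω' : Om), (∀ j ≤ p, ω j = ω' j) → ω ∈ At M j p → ω ∈ At M i q → ω' ∈ At M i q := by
    intro p ω ω' hω hp hq
    obtain ⟨r, hr, hr'⟩ := exists_at_of_le hp hij
    have h1 := at_unique hq hr'
    exact at_congr (fun k hk => hω k (by omega)) hq
  intro p ω ω' hω hp
  exact propext ⟨key p ω ω' hω hp, key p ω' ω (fun k hk => (hω k hk).symm) (at_congr hω hp)⟩

theorem two_at {M : ℕ} (hM : Even M) {i q : ℕ} {ω : Om} (h : ω ∈ At M i q) : 2 * i + 1 ≤ q := by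
  have h1 := two_cnt hM ω q
  rw [h.2] at h1
  have h2 := h.1.odd hM
  rw [Nat.odd_iff] at h2
  omega

open Classical in
/-- the indices, counted from `0`, which belong to the numbers `P (n - k)`, `k ∈ S` with `P k + 2 ∈ R` -/
noncomputable def JJ (M n X : ℕ) (S : Finset ℕ) (ω : Om) : Finset ℕ :=
  (range (X + 1)).filter fun v => ∃ k ∈ S, E M (k - 1) ω ∧ ω ∈ At M (n - k - 1) (v + 1)

theorem adapt_JJ {M : ℕ} (hM : Even M) {n X : ℕ} (hn : 6 ≤ n) {S : Finset ℕ} (hS : ∀ k ∈ S, 2 ≤ k ∧ 2 * k ≤ n) :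
    Adapt M (n - 3) (JJ M n X S) := by
  classical
  intro p ω ω' hω hp
  unfold JJ
  refine filter_congr fun v _ => exists_congr fun k => and_congr_right fun hk => ?_
  have h1 := hS k hk
  have h2 : E M (k - 1) ω = E M (k - 1) ω' := (adapt_E hM (k - 1)).mono (by omega) p ω ω' hω hp
  have h3 : (ω ∈ At M (n - k - 1) (v + 1)) = (ω' ∈ At M (n - k - 1) (v + 1)) :=
    adapt_at (by omega) p ω ω' hω hp
  rw [h2, h3]

open Classical in
theorem card_JJ {M : ℕ} {n X : ℕ} (hn : 6 ≤ n) {S : Finset ℕ} (hS : ∀ k ∈ S, 2 ≤ k ∧ 2 * k ≤ n)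
    (hM : Even M) {ω : Om} (hQ : ω ∈ Qe M (n - 3) X) :
    (S.filter fun k => E M (k - 1) ω).card ≤ (JJ M n X S ω).card := by
  have hex : ∀ k ∈ S, ∃ v, v ∈ range (X + 1) ∧ ω ∈ At M (n - k - 1) (v + 1) := by
    intro k hk
    have h1 := hS k hk
    obtain ⟨p, hp, hp'⟩ := Qe_anti (show n - k - 1 ≤ n - 3 by omega) hQ
    have h2 := two_at hM hp'
    exact ⟨p - 1, mem_range.2 (by omega), by rwa [Nat.sub_add_cancel (by omega)]⟩
  choose! f hf using hex
  refine card_le_card_of_injOn f ?_ ?_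
  · intro k hk
    obtain ⟨hk1, hk2⟩ := mem_filter.1 (mem_coe.1 hk)
    unfold JJ
    rw [mem_coe, mem_filter]
    exact ⟨(hf k hk1).1, k, hk1, hk2, (hf k hk1).2⟩
  · intro k hk k' hk' h
    obtain ⟨hk1, -⟩ := mem_filter.1 (mem_coe.1 hk)
    obtain ⟨hk1', -⟩ := mem_filter.1 (mem_coe.1 hk')
    have h1 := (hf k hk1).2
    rw [h] at h1
    have h2 := at_index h1 (hf k' hk1').2
    have h3 := hS k hk1
    have h4 := hS k' hk1'
    omega

open Classical in
theorem num_JJ {M : ℕ} {n X : ℕ} {S : Finset ℕ} (hS : ∀ k ∈ S, 2 ≤ k ∧ 2 * k ≤ n) (ω : Om) :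
    num M (JJ M n X S ω) ω ≤ (S.filter fun k => Twin M ω k ∧ Twin M ω (P M ω (n - k))).card := by
  have hex : ∀ v ∈ JJ M n X S ω, ∃ k, k ∈ S ∧ E M (k - 1) ω ∧ ω ∈ At M (n - k - 1) (v + 1) := by
    intro v hv
    unfold JJ at hv
    obtain ⟨-, k, h⟩ := mem_filter.1 hv
    exact ⟨k, h⟩
  choose! f hf using hex
  unfold num
  refine card_le_card_of_injOn f ?_ ?_
  · intro v hv
    obtain ⟨hv1, hv2⟩ := mem_filter.1 (mem_coe.1 hv)
    obtain ⟨h1, h2, h3⟩ := hf v hv1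
    have h4 := hS _ h1
    rw [mem_coe, mem_filter]
    refine ⟨h1, ?_, ?_⟩
    · have := twin_of_E h2
      rwa [Nat.sub_add_cancel (by omega)] at this
    · have h5 : P M ω (n - f v) = v + 1 := by
        unfold P
        exact nth_of_at h3
      rw [h5]
      exact twin_of_E hv2
  · intro v hv v' hv' h
    obtain ⟨hv1, -⟩ := mem_filter.1 (mem_coe.1 hv)
    obtain ⟨hv1', -⟩ := mem_filter.1 (mem_coe.1 hv')
    have h1 := (hf v hv1).2.2
    have h2 := (hf v' hv1').2.2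
    have h : f v = f v' := h
    rw [← h] at h2
    have := at_unique h1 h2
    omega

/-- **One set, two steps.** -/
theorem single_two {κ : ℝ} (hκ : 0 < κ) {M : ℕ} (hM : Even M) (hM0 : 0 < M) :
    ∃ c : ℝ, 0 < c ∧ ∀ᶠ n : ℕ in atTop, ∀ (x : ℝ) (S : Finset ℕ), (∀ k ∈ S, 2 ≤ k ∧ 2 * k ≤ n) →
      law κ ({ω | x ≤ ((JJ M n (n ^ 3) S ω).card : ℝ) ∧
        (num M (JJ M n (n ^ 3) S ω) ω : ℝ) < c * (JJ M n (n ^ 3) S ω).card / Real.log n} ∩
        Qe M (n ^ 4) (n ^ 9)) ≤ ENNReal.ofReal (2 * Real.exp (-(c * x / Real.log n))) := by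
  classical
  obtain ⟨c, hc, hsi⟩ := single hκ hM hM0 (A := 2) (B := 4) (by norm_num)
  refine ⟨c, hc, ?_⟩
  filter_upwards [hsi, eventually_ge_atTop 9, ev_log 1] with n hn hn9 hlog x S hS
  have hl0 : 0 < Real.log n := by linarith
  have hi1 : n ≤ (n - 3) ^ 2 := by
    obtain ⟨m, rfl⟩ := Nat.exists_eq_add_of_le hn9
    rw [show 9 + m - 3 = 6 + m by omega]
    nlinarith
  have hi2 : n - 3 ≤ n ^ 4 := (Nat.sub_le _ _).trans (Nat.le_self_pow (by norm_num) n)
  set W : Finset ℕ → Set Om := fun J0 => {ω | JJ M n (n ^ 3) S ω = J0} with hW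
  have hWad : ∀ J0, Adapt M (n - 3) fun ω => ω ∈ W J0 := by
    intro J0
    exact adapt_comp (adapt_JJ hM (X := n ^ 3) (by omega) hS) fun y => y = J0
  set FF : Finset (Finset ℕ) := (range (n ^ 3 + 1)).powerset.filter fun J0 => x ≤ (J0.card : ℝ) with hFF
  have hsub : ({ω | x ≤ ((JJ M n (n ^ 3) S ω).card : ℝ) ∧
        (num M (JJ M n (n ^ 3) S ω) ω : ℝ) < c * (JJ M n (n ^ 3) S ω).card / Real.log n} ∩
        Qe M (n ^ 4) (n ^ 9)) ⊆
      ⋃ J0 ∈ FF, ({ω | ω ∈ W J0 ∧ (num M J0 ω : ℝ) < c * J0.card / Real.log n} ∩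
        Qe M (n ^ 4) (n ^ (2 * 4 + 1))) := by
    rintro ω ⟨⟨h1, h2⟩, h3⟩
    rw [Set.mem_iUnion₂]
    refine ⟨JJ M n (n ^ 3) S ω, ?_, ⟨rfl, h2⟩, h3⟩
    rw [hFF, mem_filter, mem_powerset]
    exact ⟨by unfold JJ; exact filter_subset _ _, h1⟩
  refine (measure_mono hsub).trans ((measure_biUnion_finset_le _ _).trans ?_)
  calc ∑ J0 ∈ FF, law κ ({ω | ω ∈ W J0 ∧ (num M J0 ω : ℝ) < c * J0.card / Real.log n} ∩
        Qe M (n ^ 4) (n ^ (2 * 4 + 1)))
      ≤ ∑ J0 ∈ FF, ENNReal.ofReal (2 * Real.exp (-(c * x / Real.log n))) *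
          law κ (W J0 ∩ Qe M (n - 3) (n ^ (2 * 4 + 1))) := by
        refine sum_le_sum fun J0 hJ0 => ?_
        have hx : x ≤ (J0.card : ℝ) := (mem_filter.1 hJ0).2
        by_cases hne : ∃ ω0, JJ M n (n ^ 3) S ω0 = J0
        · obtain ⟨ω0, hω0⟩ := hne
          refine (hn (n - 3) (W J0) J0 hi1 hi2 (hWad J0) ?_).trans ?_
          · intro j hj
            rw [← hω0] at hj
            unfold JJ at hj
            obtain ⟨hj1, k, hk, -, hk3⟩ := mem_filter.1 hj
            have h1 := two_at hM hk3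
            have h2 := hS k hk
            have h3 := mem_range.1 hj1
            refine ⟨by omega, ?_⟩
            calc j + 1 ≤ n ^ 3 + 1 := by omega
              _ ≤ n ^ 3 * 2 := by have := Nat.one_le_pow 3 n (by omega); omega
              _ ≤ n ^ 3 * n := Nat.mul_le_mul_left _ (by omega)
              _ = n ^ 4 := by ring
          · gcongr
        · have : ({ω | ω ∈ W J0 ∧ (num M J0 ω : ℝ) < c * J0.card / Real.log n} ∩
              Qe M (n ^ 4) (n ^ (2 * 4 + 1))) = ∅ :=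
            Set.eq_empty_of_forall_notMem fun ω hω => hne ⟨ω, hω.1.1⟩
          rw [this, measure_empty]
          exact zero_le
    _ = ENNReal.ofReal (2 * Real.exp (-(c * x / Real.log n))) *
          law κ (⋃ J0 ∈ FF, (W J0 ∩ Qe M (n - 3) (n ^ (2 * 4 + 1)))) := by
        rw [← mul_sum, measure_biUnion_finset]
        · intro J0 _ J1 _ hne
          rw [Function.onFun, Set.disjoint_left]
          rintro ω ⟨h1, -⟩ ⟨h2, -⟩
          exact hne (h1.symm.trans h2)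
        · intro J0 _
          exact meas_adapt (hWad J0)
    _ ≤ ENNReal.ofReal (2 * Real.exp (-(c * x / Real.log n))) * 1 := by
        gcongr
        exact prob_le_one
    _ = _ := mul_one _

open Classical in
/-- families of sets of `k` -/
theorem fam_two {κ : ℝ} (hκ : 0 < κ) {M : ℕ} (hM : Even M) (hM0 : 0 < M) (A T : ℕ) :
    ∃ c K : ℝ, 0 < c ∧ 0 < K ∧ ∀ S : ℕ → ℕ → Finset ℕ, ∀ᵐ ω ∂(law κ), ∀ᶠ n : ℕ in atTop, ∀ t < n ^ T,
      (∀ k ∈ S n t, n ≤ k ^ A ∧ 2 * k ≤ n) → K * Real.log n ^ 3 ≤ (S n t).card →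
      c * (S n t).card / Real.log n ^ 2 ≤
        ((S n t).filter fun k => Twin M ω k ∧ Twin M ω (P M ω (n - k))).card := by
  obtain ⟨c, hc, hsi⟩ := single_two hκ hM hM0
  obtain ⟨c1, K1, hc1, hK1, hf⟩ := fam_one hκ hM hM0 A 1 T
  set K2 : ℝ := (T + 3) / c with hK2
  have hK2' : 0 < K2 := by positivity
  refine ⟨c * c1, K1 + K2 / c1, by positivity, by positivity, fun S => ?_⟩
  set Bad : ℕ → Set Om := fun n => ((⋃ t ∈ range (n ^ T), {ω | (∀ k ∈ S n t, 2 ≤ k ∧ 2 * k ≤ n) ∧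
    (K2 * Real.log n ^ 2 ≤ ((JJ M n (n ^ 3) (S n t) ω).card : ℝ) ∧
    (num M (JJ M n (n ^ 3) (S n t) ω) ω : ℝ) < c * (JJ M n (n ^ 3) (S n t) ω).card / Real.log n)} ∩
      Qe M (n ^ 4) (n ^ 9)) ∪ (Qe M (n ^ 4) (n ^ (2 * 4 + 1)))ᶜ) ∪ (Qe M (n ^ 1) (n ^ (2 * 1 + 1)))ᶜ with hBad
  have hb : ∀ᶠ n : ℕ in atTop, law κ (Bad n) ≤ ENNReal.ofReal (4 / (n : ℝ) ^ 2) := by
    filter_upwards [hsi, q_small hκ hM0 (B := 4) (by omega), q_small hκ hM0 (B := 1) (by omega), ev_log 1,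
      eventually_ge_atTop 3] with n h1 h2 h3 h4 h5
    have hl0 : 0 < Real.log n := by linarith
    have hn0 : (0 : ℝ) < n := by exact_mod_cast (by omega : 0 < n)
    have hn1 : (1 : ℝ) ≤ n := by exact_mod_cast (by omega : 1 ≤ n)
    have h6 : ∀ t ∈ range (n ^ T), law κ ({ω | (∀ k ∈ S n t, 2 ≤ k ∧ 2 * k ≤ n) ∧
        (K2 * Real.log n ^ 2 ≤ ((JJ M n (n ^ 3) (S n t) ω).card : ℝ) ∧
        (num M (JJ M n (n ^ 3) (S n t) ω) ω : ℝ) < c * (JJ M n (n ^ 3) (S n t) ω).card / Real.log n)} ∩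
          Qe M (n ^ 4) (n ^ 9)) ≤ ENNReal.ofReal (2 / (n : ℝ) ^ (T + 3)) := by
      intro t _
      by_cases hco : ∀ k ∈ S n t, 2 ≤ k ∧ 2 * k ≤ n
      · refine (measure_mono ?_).trans ((h1 (K2 * Real.log n ^ 2) (S n t) hco).trans (ENNReal.ofReal_le_ofReal ?_))
        · rintro ω ⟨hω1, hω2⟩
          exact ⟨hω1.2, hω2⟩
        · have h8 : ((T + 3 : ℕ) : ℝ) * Real.log n = c * (K2 * Real.log n ^ 2) / Real.log n := by
            rw [hK2]
            field_simp
            push_cast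
            ring
          rw [div_eq_mul_one_div 2, ← exp_neg_log (by omega), h8]
      · rw [show ({ω : Om | (∀ k ∈ S n t, 2 ≤ k ∧ 2 * k ≤ n) ∧
          (K2 * Real.log n ^ 2 ≤ ((JJ M n (n ^ 3) (S n t) ω).card : ℝ) ∧
          (num M (JJ M n (n ^ 3) (S n t) ω) ω : ℝ) < c * (JJ M n (n ^ 3) (S n t) ω).card / Real.log n)} ∩
          Qe M (n ^ 4) (n ^ 9)) = ∅ from Set.eq_empty_of_forall_notMem fun ω hω => hco hω.1.1, measure_empty]
        exact zero_le
    calc law κ (Bad n) ≤ ((∑ t ∈ range (n ^ T), ENNReal.ofReal (2 / (n : ℝ) ^ (T + 3))) +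
          ENNReal.ofReal (1 / (n : ℝ) ^ 2)) + ENNReal.ofReal (1 / (n : ℝ) ^ 2) := by
          refine (measure_union_le _ _).trans (add_le_add ((measure_union_le _ _).trans (add_le_add ?_ h2)) h3)
          exact (measure_biUnion_finset_le _ _).trans (sum_le_sum h6)
      _ = ENNReal.ofReal ((n : ℝ) ^ T * (2 / (n : ℝ) ^ (T + 3)) + 1 / (n : ℝ) ^ 2 + 1 / (n : ℝ) ^ 2) := by
          rw [sum_const, card_range, nsmul_eq_mul, ENNReal.ofReal_add (by positivity) (by positivity),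
            ENNReal.ofReal_add (by positivity) (by positivity), ENNReal.ofReal_mul (by positivity)]
          congr 3
          rw [← Nat.cast_pow, ENNReal.ofReal_natCast]
      _ ≤ ENNReal.ofReal (4 / (n : ℝ) ^ 2) := by
          refine ENNReal.ofReal_le_ofReal ?_
          have h7 : (n : ℝ) ^ T * (2 / (n : ℝ) ^ (T + 3)) = 2 / (n : ℝ) ^ 3 := by
            rw [pow_add]; field_simp
          have h8 : 2 / (n : ℝ) ^ 3 ≤ 2 / (n : ℝ) ^ 2 := by
            apply div_le_div_of_nonneg_left (by norm_num) (by positivity)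
            exact pow_le_pow_right₀ hn1 (by norm_num)
          rw [h7]
          calc 2 / (n : ℝ) ^ 3 + 1 / (n : ℝ) ^ 2 + 1 / (n : ℝ) ^ 2 ≤
                2 / (n : ℝ) ^ 2 + 1 / (n : ℝ) ^ 2 + 1 / (n : ℝ) ^ 2 := by linarith
            _ = 4 / (n : ℝ) ^ 2 := by ring
  filter_upwards [bc κ hb, hf S] with ω hω hω2
  filter_upwards [hω, hω2, ev_log 1, eventually_ge_atTop 6] with n hn hn2 hlog hn6 t ht hco hcard
  have hl0 : 0 < Real.log n := by linarith
  have hS : ∀ k ∈ S n t, 2 ≤ k ∧ 2 * k ≤ n := by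
    intro k hk
    have h1 := hco k hk
    refine ⟨?_, h1.2⟩
    by_contra hc
    have : k ^ A ≤ 1 := by
      calc k ^ A ≤ 1 ^ A := Nat.pow_le_pow_left (by omega) A
        _ = 1 := one_pow A
    omega
  have hQ4 : ω ∈ Qe M (n ^ 4) (n ^ (2 * 4 + 1)) := by
    by_contra h
    exact hn (Or.inl (Or.inr h))
  have hQ1 : ω ∈ Qe M (n - 3) (n ^ 3) := by
    by_contra h
    refine hn (Or.inr fun h2 => h ?_)
    exact Qe_anti (by rw [pow_one]; omega) h2
  have h3 : c1 * (S n t).card / Real.log n ≤ ((S n t).filter (Twin M ω)).card := by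
    refine hn2 t ht (fun j hj => ⟨(hco j hj).1, by have := (hco j hj).2; rw [pow_one]; omega⟩) ?_
    calc K1 * Real.log n ^ 2 ≤ (K1 + K2 / c1) * Real.log n ^ 3 := by
          have h4 : Real.log n ^ 2 ≤ Real.log n ^ 3 := pow_le_pow_right₀ hlog (by norm_num)
          have h5 : 0 ≤ K2 / c1 := by positivity
          have h6 : 0 ≤ Real.log n ^ 3 := by positivity
          nlinarith
      _ ≤ _ := hcard
  have h4 : (S n t).filter (Twin M ω) = (S n t).filter fun k => E M (k - 1) ω := by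
    refine filter_congr fun k hk => ?_
    exact twin_iff hM (by have := (hS k hk).1; omega)
  rw [h4] at h3
  have h5 : (((S n t).filter fun k => E M (k - 1) ω).card : ℝ) ≤ (JJ M n (n ^ 3) (S n t) ω).card := by
    exact_mod_cast card_JJ hn6 hS hM hQ1
  have h6 : c * (JJ M n (n ^ 3) (S n t) ω).card / Real.log n ≤ num M (JJ M n (n ^ 3) (S n t) ω) ω := by
    by_contra hlt
    refine hn (Or.inl (Or.inl ?_))
    rw [Set.mem_iUnion₂]
    refine ⟨t, mem_range.2 ht, ⟨hS, ?_, not_le.1 hlt⟩, hQ4⟩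
    calc K2 * Real.log n ^ 2 = c1 * (K2 / c1 * Real.log n ^ 3) / Real.log n := by
          field_simp
      _ ≤ c1 * (S n t).card / Real.log n := by
          gcongr
          calc K2 / c1 * Real.log n ^ 3 ≤ (K1 + K2 / c1) * Real.log n ^ 3 := by
                have : 0 ≤ K1 * Real.log n ^ 3 := by positivity
                linarith
            _ ≤ _ := hcard
      _ ≤ _ := h3.trans h5
  have h7 : (num M (JJ M n (n ^ 3) (S n t) ω) ω : ℝ) ≤
      ((S n t).filter fun k => Twin M ω k ∧ Twin M ω (P M ω (n - k))).card := by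
    exact_mod_cast num_JJ hS ω
  calc c * c1 * (S n t).card / Real.log n ^ 2 = c * (c1 * (S n t).card / Real.log n) / Real.log n := by
        field_simp
    _ ≤ c * (JJ M n (n ^ 3) (S n t) ω).card / Real.log n := by
        gcongr
        exact h3.trans h5
    _ ≤ _ := h6.trans h7

end Pool.Agent.W2helper70.CG
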