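import Pool.Agent.W2helper70.CG.Two

set_option autoImplicit false

/-!
Upper bounds for the number of the indices in a set whose elements are followed by another one at distance `2`.
-/

namespace Pool.Agent.W2helper70.CG

open MeasureTheory ProbabilityTheory Finset Filter
open scoped ENNReal Topology

open Classical in
/-- the weight `2` if the element with index `i` is followed by another one at distance `2` -/
noncomputable def w2 (M i : ℕ) (ω : Om) : ℝ≥0∞ := if E M i ω then 2 else 1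

theorem adapt_w2 {M : ℕ} (hM : Even M) (i : ℕ) : Adapt M (i + 1) (w2 M i) := by
  intro p ω ω' hω hp
  unfold w2
  rw [adapt_E hM i p ω ω' hω hp]

theorem w2_eq (M i : ℕ) (ω : Om) : w2 M i ω = 1 + {ω | E M i ω}.indicator 1 ω := by
  unfold w2
  by_cases h : E M i ω
  · rw [if_pos h, Set.indicator_of_mem (show ω ∈ {ω | E M i ω} from h)]
    norm_num
  · rw [if_neg h, Set.indicator_of_notMem (show ω ∉ {ω | E M i ω} from h), add_zero]

theorem prod_w2 (M : ℕ) (I : Finset ℕ) (ω : Om) : ∏ j ∈ I, w2 M j ω = (2 : ℝ≥0∞) ^ num M I ω := by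
  classical
  unfold w2 num
  rw [prod_ite, prod_const, prod_const_one, mul_one]

/-- **The engine for upper bounds.** -/
theorem up_engine (κ : ℝ) {M : ℕ} (hM : Even M) {i X : ℕ} {h : Om → ℝ≥0∞} (hh : Adapt M i h) {θ : ℝ≥0∞}
    (hθ : ∀ q, i ≤ q → ENNReal.ofReal (rho κ (q + 2)) ≤ θ) (I : Finset ℕ) (hI : ∀ j ∈ I, i ≤ j) :
    ∀ b, i ≤ b → (∀ j ∈ I, j ≤ b) →
    ∫⁻ ω, h ω * (∏ j ∈ I, w2 M j ω) * (Qe M b X).indicator 1 ω ∂(law κ) ≤
      (1 + θ) ^ I.card * ∫⁻ ω, h ω * (Qe M i X).indicator 1 ω ∂(law κ) := by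
  induction I using Finset.induction_on_max with
  | empty =>
    intro b hb _
    simp only [prod_empty, mul_one, card_empty, pow_zero, one_mul]
    refine lintegral_mono fun ω => ?_
    exact mul_le_mul_right (Qind_mono hb ω) _
  | insert a s has ih =>
    intro b hb hsb
    have ha1 : i ≤ a := hI a (mem_insert_self _ _)
    have hnot : a ∉ s := fun h => lt_irrefl _ (has a h)
    have ih' := ih (fun j hj => hI j (mem_insert_of_mem hj)) a ha1 (fun j hj => (has j hj).le)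
    have hpr : Adapt M a fun ω => ∏ j ∈ s, w2 M j ω := by
      intro p ω ω' hω hp
      exact prod_congr rfl fun j hj => (adapt_w2 hM j).mono (has j hj) p ω ω' hω hp
    have had : Adapt M a fun ω => h ω * ∏ j ∈ s, w2 M j ω := adapt_mul (hh.mono ha1) hpr
    have hst := low_step κ (X := X) had (fun q hq => hθ q (ha1.trans hq))
    calc ∫⁻ ω, h ω * (∏ j ∈ insert a s, w2 M j ω) * (Qe M b X).indicator 1 ω ∂(law κ)
        ≤ ∫⁻ ω, (h ω * (∏ j ∈ s, w2 M j ω) * (Qe M a X).indicator 1 ω +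
            h ω * (∏ j ∈ s, w2 M j ω) * {ω | E M a ω}.indicator 1 ω * (Qe M a X).indicator 1 ω) ∂(law κ) := by
          refine lintegral_mono fun ω => ?_
          rw [prod_insert hnot, w2_eq]
          calc h ω * ((1 + {ω | E M a ω}.indicator 1 ω) * ∏ j ∈ s, w2 M j ω) * (Qe M b X).indicator 1 ω
              ≤ h ω * ((1 + {ω | E M a ω}.indicator 1 ω) * ∏ j ∈ s, w2 M j ω) * (Qe M a X).indicator 1 ω :=
                mul_le_mul_right (Qind_mono (hsb a (mem_insert_self _ _)) ω) _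
            _ = _ := by ring
      _ = (∫⁻ ω, h ω * (∏ j ∈ s, w2 M j ω) * (Qe M a X).indicator 1 ω ∂(law κ)) +
            ∫⁻ ω, h ω * (∏ j ∈ s, w2 M j ω) * {ω | E M a ω}.indicator 1 ω * (Qe M a X).indicator 1 ω ∂(law κ) :=
          lintegral_add_left (det_adapt_fun had).meas _
      _ ≤ (∫⁻ ω, h ω * (∏ j ∈ s, w2 M j ω) * (Qe M a X).indicator 1 ω ∂(law κ)) +
            θ * ∫⁻ ω, h ω * (∏ j ∈ s, w2 M j ω) * (Qe M a X).indicator 1 ω ∂(law κ) := by gcongr
      _ = (1 + θ) * ∫⁻ ω, h ω * (∏ j ∈ s, w2 M j ω) * (Qe M a X).indicator 1 ω ∂(law κ) := by ring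
      _ ≤ (1 + θ) * ((1 + θ) ^ s.card * ∫⁻ ω, h ω * (Qe M i X).indicator 1 ω ∂(law κ)) := by gcongr
      _ = (1 + θ) ^ (insert a s).card * ∫⁻ ω, h ω * (Qe M i X).indicator 1 ω ∂(law κ) := by
          rw [card_insert_of_notMem hnot, pow_succ]; ring

theorem Wind_mul {M i X : ℕ} (W : Set Om) (ω : Om) :
    W.indicator (1 : Om → ℝ≥0∞) ω * (Qe M i X).indicator 1 ω = (W ∩ Qe M i X).indicator 1 ω := by
  by_cases h1 : ω ∈ W
  · by_cases h2 : ω ∈ Qe M i X
    · rw [Set.indicator_of_mem h1, Set.indicator_of_mem h2,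
        Set.indicator_of_mem (show ω ∈ W ∩ Qe M i X from ⟨h1, h2⟩)]
      simp
    · have h3 : ω ∉ W ∩ Qe M i X := fun h => h2 h.2
      rw [Set.indicator_of_notMem h2, Set.indicator_of_notMem h3, mul_zero]
  · have h3 : ω ∉ W ∩ Qe M i X := fun h => h1 h.1
    rw [Set.indicator_of_notMem h1, Set.indicator_of_notMem h3, zero_mul]

theorem adapt_ind {M i : ℕ} {W : Set Om} (hW : Adapt M i fun ω => ω ∈ W) :
    Adapt M i fun ω => W.indicator (1 : Om → ℝ≥0∞) ω := by
  intro p ω ω' hω hp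
  have h3 : (ω ∈ W) = (ω' ∈ W) := hW p ω ω' hω hp
  show W.indicator (1 : Om → ℝ≥0∞) ω = W.indicator 1 ω'
  by_cases h1 : ω ∈ W
  · rw [Set.indicator_of_mem h1, Set.indicator_of_mem (h3.mp h1)]; rfl
  · rw [Set.indicator_of_notMem h1, Set.indicator_of_notMem fun h => h1 (h3.mpr h)]

theorem updev (κ : ℝ) {M : ℕ} (hM : Even M) {i X b : ℕ} {θ : ℝ≥0∞}
    (hθ : ∀ q, i ≤ q → ENNReal.ofReal (rho κ (q + 2)) ≤ θ) {W : Set Om} (hW : Adapt M i fun ω => ω ∈ W)
    (I : Finset ℕ) (hI : ∀ j ∈ I, i ≤ j) (hib : i ≤ b) (hIb : ∀ j ∈ I, j + 1 ≤ b) (s : ℕ) :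
    law κ ({ω | ω ∈ W ∧ s ≤ num M I ω} ∩ Qe M b X) ≤ 2⁻¹ ^ s * (1 + θ) ^ I.card * law κ (W ∩ Qe M i X) := by
  classical
  have hm : MeasurableSet ({ω | ω ∈ W ∧ s ≤ num M I ω} ∩ Qe M b X) := by
    refine meas_adapt ?_
    exact adapt_and (hW.mono hib) (adapt_comp (adapt_num hM I hIb) fun x => s ≤ x)
  calc law κ ({ω | ω ∈ W ∧ s ≤ num M I ω} ∩ Qe M b X)
      = ∫⁻ ω, ({ω | ω ∈ W ∧ s ≤ num M I ω} ∩ Qe M b X).indicator 1 ω ∂(law κ) := (lintegral_indicator_one hm).symm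
    _ ≤ ∫⁻ ω, 2⁻¹ ^ s * (W.indicator 1 ω * (∏ j ∈ I, w2 M j ω) * (Qe M b X).indicator 1 ω) ∂(law κ) := by
        refine lintegral_mono fun ω => ?_
        by_cases h1 : ω ∈ {ω | ω ∈ W ∧ s ≤ num M I ω} ∩ Qe M b X
        · rw [Set.indicator_of_mem h1, Set.indicator_of_mem h1.1.1, Set.indicator_of_mem h1.2, prod_w2]
          simp only [Pi.one_apply, one_mul, mul_one]
          obtain ⟨d, hd⟩ := Nat.exists_eq_add_of_le h1.1.2
          rw [hd, pow_add, ← mul_assoc, ← mul_pow, ENNReal.inv_mul_cancel (by norm_num) (by norm_num), one_pow,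
            one_mul]
          exact one_le_pow₀ (by norm_num)
        · rw [Set.indicator_of_notMem h1]
          exact zero_le
    _ = 2⁻¹ ^ s * ∫⁻ ω, W.indicator 1 ω * (∏ j ∈ I, w2 M j ω) * (Qe M b X).indicator 1 ω ∂(law κ) :=
        lintegral_const_mul' _ _ (by simp)
    _ ≤ 2⁻¹ ^ s * ((1 + θ) ^ I.card * ∫⁻ ω, W.indicator 1 ω * (Qe M i X).indicator 1 ω ∂(law κ)) := by
        gcongr
        exact up_engine κ hM (adapt_ind hW) hθ I hI b hib fun j hj => by have := hIb j hj; omega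
    _ = 2⁻¹ ^ s * (1 + θ) ^ I.card * law κ (W ∩ Qe M i X) := by
        rw [← mul_assoc, ← lintegral_indicator_one (meas_adapt hW)]
        congr 1
        exact lintegral_congr fun ω => Wind_mul W ω

theorem rho_le_of {κ : ℝ} (hκ : 0 < κ) {A n i q : ℕ} (hl : 0 < Real.log n) (h : n ≤ i ^ A) (hq : i ≤ q) :
    rho κ (q + 2) ≤ κ * (A + 1) / Real.log n := by
  have hn0 : (0 : ℝ) < n := by
    by_contra hc
    have h1 : n = 0 := by
      rcases Nat.eq_zero_or_pos n with h | h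
      · exact h
      · exact absurd (by exact_mod_cast h) hc
    rw [h1] at hl
    simp at hl
  have h8 : Real.log n ≤ A * Real.log ((q + 2 : ℕ) : ℝ) := by
    have h9 : (n : ℝ) ≤ ((q + 2 : ℕ) : ℝ) ^ A := by
      have : n ≤ (q + 2) ^ A := h.trans (Nat.pow_le_pow_left (by omega) A)
      exact_mod_cast this
    have h10 := Real.log_le_log hn0 h9
    rwa [Real.log_pow] at h10
  have h10 : 0 ≤ Real.log ((q + 2 : ℕ) : ℝ) := Real.log_natCast_nonneg _
  have hA0 : (0 : ℝ) ≤ A := Nat.cast_nonneg A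
  have h11 : Real.log n ≤ (A + 1) * Real.log ((q + 2 : ℕ) : ℝ) := by nlinarith
  have h12 : 0 < Real.log ((q + 2 : ℕ) : ℝ) := by
    by_contra hc
    have h13 : Real.log ((q + 2 : ℕ) : ℝ) = 0 := le_antisymm (not_lt.1 hc) h10
    rw [h13, mul_zero] at h11
    linarith
  refine (min_le_right _ _).trans ?_
  rw [div_le_div_iff₀ h12 hl]
  nlinarith

/-- **One set of indices, upper bound.** -/
theorem single_up {κ : ℝ} (hκ : 0 < κ) {M : ℕ} (hM : Even M) (A B : ℕ) :
    ∃ C : ℝ, 0 < C ∧ ∀ᶠ n : ℕ in atTop, ∀ (i : ℕ) (W : Set Om) (I : Finset ℕ) (x : ℝ), n ≤ i ^ A → i ≤ n ^ B →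
      Adapt M i (fun ω => ω ∈ W) → (∀ j ∈ I, i ≤ j ∧ j + 1 ≤ n ^ B) → (I.card : ℝ) ≤ x →
      law κ ({ω | ω ∈ W ∧ C * x / Real.log n ≤ (num M I ω : ℝ)} ∩ Qe M (n ^ B) (n ^ (2 * B + 1))) ≤
        ENNReal.ofReal (Real.exp (-(x / Real.log n))) * law κ (W ∩ Qe M i (n ^ (2 * B + 1))) := by
  refine ⟨2 * (κ * (A + 1) + 1), by positivity, ?_⟩
  filter_upwards [ev_log 1] with n hlog i W I x hi hiB hW hI hx
  have hl0 : 0 < Real.log n := by linarith
  set l : ℝ := Real.log n with hl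
  have hx0 : 0 ≤ x := (Nat.cast_nonneg _).trans hx
  set C : ℝ := 2 * (κ * (A + 1) + 1) with hC
  set s : ℕ := ⌈C * x / l⌉₊ with hs
  have hd := updev κ hM (i := i) (X := n ^ (2 * B + 1)) (b := n ^ B) (θ := ENNReal.ofReal (κ * (A + 1) / l))
    (fun q hq => ENNReal.ofReal_le_ofReal (rho_le_of hκ hl0 hi hq)) hW I (fun j hj => (hI j hj).1) hiB
    (fun j hj => (hI j hj).2) s
  refine (measure_mono ?_).trans (hd.trans ?_)
  · rintro ω ⟨⟨hω1, hω2⟩, hω3⟩
    exact ⟨⟨hω1, Nat.ceil_le.2 hω2⟩, hω3⟩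
  · gcongr
    have h0 : 0 ≤ κ * (A + 1) / l := by positivity
    have h1 : (1 : ℝ≥0∞) + ENNReal.ofReal (κ * (A + 1) / l) = ENNReal.ofReal (1 + κ * (A + 1) / l) := by
      rw [ENNReal.ofReal_add (by norm_num) h0, ENNReal.ofReal_one]
    have h2 : (2⁻¹ : ℝ≥0∞) = ENNReal.ofReal (2⁻¹ : ℝ) := by
      rw [ENNReal.ofReal_inv_of_pos (by norm_num)]; norm_num
    rw [h1, h2, ← ENNReal.ofReal_pow (by norm_num), ← ENNReal.ofReal_pow (by positivity),
      ← ENNReal.ofReal_mul (by positivity)]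
    refine ENNReal.ofReal_le_ofReal ?_
    have h3 : (2⁻¹ : ℝ) ^ s ≤ Real.exp (-((κ * (A + 1) + 1) * x / l)) := by
      have h4 : (2⁻¹ : ℝ) ≤ Real.exp (-(1 / 2)) := by
        rw [Real.exp_neg]
        refine inv_anti₀ (Real.exp_pos _) ?_
        have h5 := Real.exp_one_lt_d9
        have h6 : Real.exp (1 / 2) ^ 2 = Real.exp 1 := by
          rw [← Real.exp_nat_mul]; norm_num
        have h7 := Real.exp_pos (1 / 2)
        nlinarith
      calc (2⁻¹ : ℝ) ^ s ≤ Real.exp (-(1 / 2)) ^ s := pow_le_pow_left₀ (by norm_num) h4 s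
        _ = Real.exp (-(s / 2)) := by rw [← Real.exp_nat_mul]; congr 1; ring
        _ ≤ Real.exp (-((κ * (A + 1) + 1) * x / l)) := by
            refine Real.exp_le_exp.2 (neg_le_neg ?_)
            have h5 : C * x / l ≤ s := Nat.le_ceil _
            have h6 : C * x / l = 2 * ((κ * (A + 1) + 1) * x / l) := by rw [hC]; ring
            linarith
    have h4 : (1 + κ * (A + 1) / l) ^ I.card ≤ Real.exp (κ * (A + 1) / l * x) := by
      calc (1 + κ * (A + 1) / l) ^ I.card ≤ Real.exp (κ * (A + 1) / l) ^ I.card := by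
            refine pow_le_pow_left₀ (by positivity) ?_ _
            have := Real.add_one_le_exp (κ * (A + 1) / l)
            linarith
        _ = Real.exp (κ * (A + 1) / l * I.card) := by rw [← Real.exp_nat_mul]; congr 1; ring
        _ ≤ Real.exp (κ * (A + 1) / l * x) := by
            refine Real.exp_le_exp.2 ?_
            gcongr
    calc (2⁻¹ : ℝ) ^ s * (1 + κ * (A + 1) / l) ^ I.card
        ≤ Real.exp (-((κ * (A + 1) + 1) * x / l)) * Real.exp (κ * (A + 1) / l * x) := by gcongr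
      _ = Real.exp (-(x / l)) := by
          rw [← Real.exp_add]; congr 1; ring

open Classical in
/-- families of sets of indices, counted from `1`: upper bound -/
theorem fam_up {κ : ℝ} (hκ : 0 < κ) {M : ℕ} (hM : Even M) (hM0 : 0 < M) (A B T : ℕ) :
    ∃ C : ℝ, 0 < C ∧ ∀ I : ℕ → ℕ → Finset ℕ, ∀ᵐ ω ∂(law κ), ∀ᶠ n : ℕ in atTop, ∀ t < n ^ T,
      (∀ j ∈ I n t, n ≤ j ^ A ∧ j ≤ n ^ B) → ∀ x : ℕ, x ≤ n → ((I n t).card : ℝ) ≤ x → (T + 4) * Real.log n ^ 2 ≤ x →
      (((I n t).filter (Twin M ω)).card : ℝ) < C * x / Real.log n := by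
  obtain ⟨C, hC, hsi⟩ := single_up hκ hM (A + 1) (B + 1)
  refine ⟨C, hC, fun I => ?_⟩
  set Bad : ℕ → Set Om := fun n => (⋃ t ∈ range (n ^ T), ⋃ x ∈ range (n + 1), {ω |
    ((∀ j ∈ I n t, n ≤ j ^ A ∧ j ≤ n ^ B) ∧ ((I n t).card : ℝ) ≤ x ∧ (T + 4) * Real.log n ^ 2 ≤ x) ∧
    C * x / Real.log n ≤ (num M ((I n t).image fun j => j - 1) ω : ℝ)} ∩
      Qe M (n ^ (B + 1)) (n ^ (2 * (B + 1) + 1))) ∪ (Qe M (n ^ (B + 1)) (n ^ (2 * (B + 1) + 1)))ᶜ with hBad
  have hb : ∀ᶠ n : ℕ in atTop, law κ (Bad n) ≤ ENNReal.ofReal (3 / (n : ℝ) ^ 2) := by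
    filter_upwards [hsi, q_small hκ hM0 (B := B + 1) (by omega), ev_log 1, eventually_gt_atTop ((2 ^ (A + 1)) ^ A),
      eventually_ge_atTop 3] with n h1 h2 h3 h4 h5
    have hl0 : 0 < Real.log n := by linarith
    have hn0 : (0 : ℝ) < n := by exact_mod_cast (by omega : 0 < n)
    have hn1 : (1 : ℝ) ≤ n := by exact_mod_cast (by omega : 1 ≤ n)
    have hex : ∃ i, n ≤ i ^ (A + 1) := ⟨n, Nat.le_self_pow (by omega) n⟩
    set i := Nat.find hex with hi
    have hi1 : n ≤ i ^ (A + 1) := Nat.find_spec hex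
    have hi2 : i ≤ n ^ (B + 1) := (Nat.find_min' hex (Nat.le_self_pow (by omega) n)).trans (Nat.le_self_pow (by omega) n)
    have h6 : ∀ t ∈ range (n ^ T), ∀ x ∈ range (n + 1), law κ ({ω |
        ((∀ j ∈ I n t, n ≤ j ^ A ∧ j ≤ n ^ B) ∧ ((I n t).card : ℝ) ≤ x ∧ (T + 4) * Real.log n ^ 2 ≤ x) ∧
        C * x / Real.log n ≤ (num M ((I n t).image fun j => j - 1) ω : ℝ)} ∩
        Qe M (n ^ (B + 1)) (n ^ (2 * (B + 1) + 1))) ≤ ENNReal.ofReal (1 / (n : ℝ) ^ (T + 4)) := by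
      intro t _ x _
      by_cases hco : (∀ j ∈ I n t, n ≤ j ^ A ∧ j ≤ n ^ B) ∧ ((I n t).card : ℝ) ≤ x ∧ (T + 4) * Real.log n ^ 2 ≤ x
      · have h7 := h1 i Set.univ ((I n t).image fun j => j - 1) x hi1 hi2
          (adapt_const (M := M) (i := i) True |> fun h => by simpa using h) ?_ ?_
        · refine (measure_mono ?_).trans (h7.trans ?_)
          · rintro ω ⟨hω1, hω2⟩
            exact ⟨⟨Set.mem_univ _, hω1.2⟩, hω2⟩
          · calc ENNReal.ofReal (Real.exp (-(x / Real.log n))) *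
                  law κ (Set.univ ∩ Qe M i (n ^ (2 * (B + 1) + 1)))
                ≤ ENNReal.ofReal (Real.exp (-(x / Real.log n))) * 1 := by
                  gcongr
                  exact prob_le_one
              _ ≤ ENNReal.ofReal (1 / (n : ℝ) ^ (T + 4)) := by
                  rw [mul_one]
                  refine ENNReal.ofReal_le_ofReal ?_
                  have h8 : ((T + 4 : ℕ) : ℝ) * Real.log n ≤ x / Real.log n := by
                    rw [le_div_iff₀ hl0]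
                    have h9 := hco.2.2
                    push_cast
                    nlinarith
                  rw [← exp_neg_log (by omega)]
                  gcongr
        · intro j hj
          obtain ⟨j', hj', rfl⟩ := mem_image.1 hj
          have := hco.1 j' hj'
          have h8 := pred_pow h4 this.1
          refine ⟨Nat.find_min' hex h8, ?_⟩
          calc j' - 1 + 1 ≤ n ^ B + 1 := by omega
            _ ≤ n ^ B * 2 := by have := Nat.one_le_pow B n (by omega); omega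
            _ ≤ n ^ B * n := Nat.mul_le_mul_left _ (by omega)
            _ = n ^ (B + 1) := by ring
        · exact (Nat.cast_le.2 card_image_le).trans hco.2.1
      · rw [show ({ω : Om | ((∀ j ∈ I n t, n ≤ j ^ A ∧ j ≤ n ^ B) ∧ ((I n t).card : ℝ) ≤ x ∧
          (T + 4) * Real.log n ^ 2 ≤ x) ∧ C * x / Real.log n ≤ (num M ((I n t).image fun j => j - 1) ω : ℝ)} ∩
          Qe M (n ^ (B + 1)) (n ^ (2 * (B + 1) + 1))) = ∅ from Set.eq_empty_of_forall_notMem
            fun ω hω => hco hω.1.1, measure_empty]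
        exact zero_le
    calc law κ (Bad n) ≤ (∑ t ∈ range (n ^ T), ∑ x ∈ range (n + 1), ENNReal.ofReal (1 / (n : ℝ) ^ (T + 4))) +
          ENNReal.ofReal (1 / (n : ℝ) ^ 2) := by
          refine (measure_union_le _ _).trans (add_le_add ?_ h2)
          refine (measure_biUnion_finset_le _ _).trans (sum_le_sum fun t ht => ?_)
          exact (measure_biUnion_finset_le _ _).trans (sum_le_sum (h6 t ht))
      _ = ENNReal.ofReal ((n : ℝ) ^ T * (((n : ℝ) + 1) * (1 / (n : ℝ) ^ (T + 4))) + 1 / (n : ℝ) ^ 2) := by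
          rw [sum_const, sum_const, card_range, card_range, nsmul_eq_mul, nsmul_eq_mul,
            ENNReal.ofReal_add (by positivity) (by positivity), ENNReal.ofReal_mul (by positivity),
            ENNReal.ofReal_mul (p := (n : ℝ) + 1) (by positivity)]
          congr 2
          · rw [← Nat.cast_pow, ENNReal.ofReal_natCast]
          · congr 1
            rw [show (n : ℝ) + 1 = ((n + 1 : ℕ) : ℝ) by push_cast; ring, ENNReal.ofReal_natCast]
      _ ≤ ENNReal.ofReal (3 / (n : ℝ) ^ 2) := by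
          refine ENNReal.ofReal_le_ofReal ?_
          have h7 : (n : ℝ) ^ T * (((n : ℝ) + 1) * (1 / (n : ℝ) ^ (T + 4))) ≤ 2 / (n : ℝ) ^ 2 := by
            calc (n : ℝ) ^ T * (((n : ℝ) + 1) * (1 / (n : ℝ) ^ (T + 4))) ≤
                  (n : ℝ) ^ T * ((2 * n) * (1 / (n : ℝ) ^ (T + 4))) := by gcongr; linarith
              _ = 2 / (n : ℝ) ^ 3 := by rw [pow_add]; field_simp
              _ ≤ 2 / (n : ℝ) ^ 2 := by
                  apply div_le_div_of_nonneg_left (by norm_num) (by positivity)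
                  exact pow_le_pow_right₀ hn1 (by norm_num)
          calc (n : ℝ) ^ T * (((n : ℝ) + 1) * (1 / (n : ℝ) ^ (T + 4))) + 1 / (n : ℝ) ^ 2
              ≤ 2 / (n : ℝ) ^ 2 + 1 / (n : ℝ) ^ 2 := by linarith
            _ = 3 / (n : ℝ) ^ 2 := by ring
  filter_upwards [bc κ hb] with ω hω
  filter_upwards [hω, eventually_gt_atTop ((2 ^ (A + 1)) ^ A), eventually_ge_atTop 1] with n hn h4 h5 t ht hco x hxn hcard hx
  have hpos : ∀ j ∈ I n t, 0 < j := by
    intro j hj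
    have h8 := pred_pow h4 (hco j hj).1
    rcases Nat.eq_zero_or_pos j with h | h
    · rw [h] at h8
      simp at h8
      omega
    · exact h
  have hle : ((I n t).filter (Twin M ω)).card ≤ num M ((I n t).image fun j => j - 1) ω := by
    unfold num
    refine card_le_card_of_injOn (fun j => j - 1) ?_ ?_
    · intro j hj
      obtain ⟨hj1, hj2⟩ := mem_filter.1 (mem_coe.1 hj)
      rw [mem_coe, mem_filter]
      exact ⟨mem_image.2 ⟨j, hj1, rfl⟩, (twin_iff hM (hpos j hj1)).1 hj2⟩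
    · intro j hj j' hj' h
      have h1 := hpos j (mem_filter.1 (mem_coe.1 hj)).1
      have h2 := hpos j' (mem_filter.1 (mem_coe.1 hj')).1
      have h3 : j - 1 = j' - 1 := h
      omega
  by_contra hlt
  apply hn
  by_cases hQ : ω ∈ Qe M (n ^ (B + 1)) (n ^ (2 * (B + 1) + 1))
  · left
    rw [Set.mem_iUnion₂]
    refine ⟨t, mem_range.2 ht, ?_⟩
    rw [Set.mem_iUnion₂]
    refine ⟨x, mem_range.2 (by omega), ⟨⟨hco, hcard, hx⟩, ?_⟩, hQ⟩
    have h6 : (((I n t).filter (Twin M ω)).card : ℝ) ≤ (num M ((I n t).image fun j => j - 1) ω : ℝ) := by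
      exact_mod_cast hle
    exact (not_lt.1 hlt).trans h6
  · right
    exact hQ

end Pool.Agent.W2helper70.CG
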