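import Pool.Agent.W2helper70.CG.Up

set_option autoImplicit false

/-!
Indices which are elements: upper bounds.
-/

namespace Pool.Agent.W2helper70.CG

open MeasureTheory ProbabilityTheory Finset Filter
open scoped ENNReal Topology

open Classical in
theorem JJ_le {M : ℕ} {n X : ℕ} {S : Finset ℕ} (hS : ∀ k ∈ S, 2 ≤ k ∧ 2 * k ≤ n) (ω : Om) :
    (JJ M n X S ω).card ≤ (S.filter (Twin M ω)).card := by
  have hex : ∀ v ∈ JJ M n X S ω, ∃ k, k ∈ S ∧ E M (k - 1) ω ∧ ω ∈ At M (n - k - 1) (v + 1) := by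
    intro v hv
    unfold JJ at hv
    obtain ⟨-, k, h⟩ := mem_filter.1 hv
    exact ⟨k, h⟩
  choose! f hf using hex
  refine card_le_card_of_injOn f ?_ ?_
  · intro v hv
    obtain ⟨h1, h2, -⟩ := hf v (mem_coe.1 hv)
    have h4 := hS _ h1
    rw [mem_coe, mem_filter]
    refine ⟨h1, ?_⟩
    have := twin_of_E h2
    rwa [Nat.sub_add_cancel (by omega)] at this
  · intro v hv v' hv' h
    have h1 := (hf v (mem_coe.1 hv)).2.2
    have h2 := (hf v' (mem_coe.1 hv')).2.2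
    have h : f v = f v' := h
    rw [← h] at h2
    have := at_unique h1 h2
    omega

/-- the element `P (n - k)` -/
theorem rep_mem {M : ℕ} (hM : Even M) {n X : ℕ} {S : Finset ℕ}
    (hS : ∀ k ∈ S, 2 ≤ k ∧ 2 * k ≤ n) {ω : Om} (hQ : ω ∈ Qe M (n - 3) X) {k : ℕ} (hk : k ∈ S)
    (h1 : Twin M ω k) (h2 : Twin M ω (P M ω (n - k))) :
    ∃ v, v ∈ JJ M n X S ω ∧ E M v ω ∧ ω ∈ At M (n - k - 1) (v + 1) := by
  classical
  have h3 := hS k hk
  obtain ⟨p, hp, hp'⟩ := Qe_anti (show n - k - 1 ≤ n - 3 by omega) hQ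
  have h4 := two_at hM hp'
  have h5 : P M ω (n - k) = p := by
    unfold P
    exact nth_of_at hp'
  have hp1 : ω ∈ At M (n - k - 1) (p - 1 + 1) := by rwa [Nat.sub_add_cancel (by omega)]
  refine ⟨p - 1, ?_, ?_, hp1⟩
  · unfold JJ
    rw [mem_filter, mem_range]
    exact ⟨by omega, k, hk, (twin_iff hM (by omega)).1 h1, hp1⟩
  · rw [h5] at h2
    exact (twin_iff hM (by omega)).1 h2

open Classical in
theorem reps_le {M : ℕ} (hM : Even M) {n X : ℕ} {S : Finset ℕ}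
    (hS : ∀ k ∈ S, 2 ≤ k ∧ 2 * k ≤ n) {ω : Om} (hQ : ω ∈ Qe M (n - 3) X) :
    (S.filter fun k => Twin M ω k ∧ Twin M ω (P M ω (n - k))).card ≤ num M (JJ M n X S ω) ω := by
  have hex : ∀ k ∈ S.filter fun k => Twin M ω k ∧ Twin M ω (P M ω (n - k)),
      ∃ v, v ∈ JJ M n X S ω ∧ E M v ω ∧ ω ∈ At M (n - k - 1) (v + 1) := by
    intro k hk
    obtain ⟨hk1, hk2, hk3⟩ := mem_filter.1 hk
    exact rep_mem hM hS hQ hk1 hk2 hk3
  choose! f hf using hex
  unfold num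
  refine card_le_card_of_injOn f ?_ ?_
  · intro k hk
    obtain ⟨h1, h2, -⟩ := hf k (mem_coe.1 hk)
    rw [mem_coe, mem_filter]
    exact ⟨h1, h2⟩
  · intro k hk k' hk' h
    have h1 := (hf k (mem_coe.1 hk)).2.2
    have h2 := (hf k' (mem_coe.1 hk')).2.2
    have h : f k = f k' := h
    rw [← h] at h2
    have h3 := at_index h1 h2
    have h4 := hS k (mem_filter.1 (mem_coe.1 hk)).1
    have h5 := hS k' (mem_filter.1 (mem_coe.1 hk')).1
    omega

theorem JJ_bounds {M : ℕ} (hM : Even M) {n X : ℕ} {S : Finset ℕ} (hn : 6 ≤ n)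
    (hS : ∀ k ∈ S, 2 ≤ k ∧ 2 * k ≤ n) {ω : Om} {v : ℕ} (hv : v ∈ JJ M n X S ω) : n - 2 ≤ v ∧ v ≤ X := by
  classical
  unfold JJ at hv
  obtain ⟨hj1, k, hk, -, hk3⟩ := mem_filter.1 hv
  have h1 := two_at hM hk3
  have h2 := hS k hk
  have h3 := mem_range.1 hj1
  omega

/-- **One set, two steps, upper bound.** -/
theorem single_two_up {κ : ℝ} (hκ : 0 < κ) {M : ℕ} (hM : Even M) :
    ∃ C : ℝ, 0 < C ∧ ∀ᶠ n : ℕ in atTop, ∀ (x : ℝ) (S : Finset ℕ), (∀ k ∈ S, 2 ≤ k ∧ 2 * k ≤ n) →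
      law κ ({ω | ((JJ M n (n ^ 3) S ω).card : ℝ) ≤ x ∧
        C * x / Real.log n ≤ (num M (JJ M n (n ^ 3) S ω) ω : ℝ)} ∩
        Qe M (n ^ 4) (n ^ 9)) ≤ ENNReal.ofReal (Real.exp (-(x / Real.log n))) := by
  classical
  obtain ⟨C, hC, hsi⟩ := single_up hκ hM 2 4
  refine ⟨C, hC, ?_⟩
  filter_upwards [hsi, eventually_ge_atTop 9, ev_log 1] with n hn hn9 hlog x S hS
  have hl0 : 0 < Real.log n := by linarith
  have hi1 : n ≤ (n - 3) ^ 2 := by
    obtain ⟨m, rfl⟩ := Nat.exists_eq_add_of_le hn9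
    rw [show 9 + m - 3 = 6 + m by omega]
    nlinarith
  have hi2 : n - 3 ≤ n ^ 4 := (Nat.sub_le _ _).trans (Nat.le_self_pow (by norm_num) n)
  set W : Finset ℕ → Set Om := fun J0 => {ω | JJ M n (n ^ 3) S ω = J0} with hW
  have hWad : ∀ J0, Adapt M (n - 3) fun ω => ω ∈ W J0 := by
    intro J0
    exact adapt_comp (adapt_JJ hM (X := n ^ 3) (by omega) hS) fun y => y = J0
  set FF : Finset (Finset ℕ) := (range (n ^ 3 + 1)).powerset.filter fun J0 => (J0.card : ℝ) ≤ x with hFF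
  have hsub : ({ω | ((JJ M n (n ^ 3) S ω).card : ℝ) ≤ x ∧
        C * x / Real.log n ≤ (num M (JJ M n (n ^ 3) S ω) ω : ℝ)} ∩
        Qe M (n ^ 4) (n ^ 9)) ⊆
      ⋃ J0 ∈ FF, ({ω | ω ∈ W J0 ∧ C * x / Real.log n ≤ (num M J0 ω : ℝ)} ∩
        Qe M (n ^ 4) (n ^ (2 * 4 + 1))) := by
    rintro ω ⟨⟨h1, h2⟩, h3⟩
    rw [Set.mem_iUnion₂]
    refine ⟨JJ M n (n ^ 3) S ω, ?_, ⟨rfl, h2⟩, h3⟩
    rw [hFF, mem_filter, mem_powerset]
    exact ⟨by unfold JJ; exact filter_subset _ _, h1⟩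
  refine (measure_mono hsub).trans ((measure_biUnion_finset_le _ _).trans ?_)
  calc ∑ J0 ∈ FF, law κ ({ω | ω ∈ W J0 ∧ C * x / Real.log n ≤ (num M J0 ω : ℝ)} ∩
        Qe M (n ^ 4) (n ^ (2 * 4 + 1)))
      ≤ ∑ J0 ∈ FF, ENNReal.ofReal (Real.exp (-(x / Real.log n))) *
          law κ (W J0 ∩ Qe M (n - 3) (n ^ (2 * 4 + 1))) := by
        refine sum_le_sum fun J0 hJ0 => ?_
        have hx : (J0.card : ℝ) ≤ x := (mem_filter.1 hJ0).2
        by_cases hne : ∃ ω0, JJ M n (n ^ 3) S ω0 = J0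
        · obtain ⟨ω0, hω0⟩ := hne
          refine hn (n - 3) (W J0) J0 x hi1 hi2 (hWad J0) ?_ hx
          intro j hj
          rw [← hω0] at hj
          have h1 := JJ_bounds hM (by omega) hS hj
          refine ⟨by omega, ?_⟩
          calc j + 1 ≤ n ^ 3 + 1 := by omega
            _ ≤ n ^ 3 * 2 := by have := Nat.one_le_pow 3 n (by omega); omega
            _ ≤ n ^ 3 * n := Nat.mul_le_mul_left _ (by omega)
            _ = n ^ 4 := by ring
        · have : ({ω | ω ∈ W J0 ∧ C * x / Real.log n ≤ (num M J0 ω : ℝ)} ∩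
              Qe M (n ^ 4) (n ^ (2 * 4 + 1))) = ∅ :=
            Set.eq_empty_of_forall_notMem fun ω hω => hne ⟨ω, hω.1.1⟩
          rw [this, measure_empty]
          exact zero_le
    _ = ENNReal.ofReal (Real.exp (-(x / Real.log n))) *
          law κ (⋃ J0 ∈ FF, (W J0 ∩ Qe M (n - 3) (n ^ (2 * 4 + 1)))) := by
        rw [← mul_sum, measure_biUnion_finset]
        · intro J0 _ J1 _ hne
          rw [Function.onFun, Set.disjoint_left]
          rintro ω ⟨h1, -⟩ ⟨h2, -⟩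
          exact hne (h1.symm.trans h2)
        · intro J0 _
          exact meas_adapt (hWad J0)
    _ ≤ ENNReal.ofReal (Real.exp (-(x / Real.log n))) * 1 := by
        gcongr
        exact prob_le_one
    _ = _ := mul_one _

open Classical in
/-- families of sets of `k`, upper bound -/
theorem fam_two_up {κ : ℝ} (hκ : 0 < κ) {M : ℕ} (hM : Even M) (hM0 : 0 < M) (A T : ℕ) :
    ∃ C K : ℝ, 0 < C ∧ 0 < K ∧ ∀ S : ℕ → ℕ → Finset ℕ, ∀ᵐ ω ∂(law κ), ∀ᶠ n : ℕ in atTop, ∀ t < n ^ T,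
      (∀ k ∈ S n t, n ≤ k ^ A ∧ 2 * k ≤ n) → K * Real.log n ^ 3 ≤ (S n t).card →
      ((S n t).filter fun k => Twin M ω k ∧ Twin M ω (P M ω (n - k))).card ≤
        C * (S n t).card / Real.log n ^ 2 := by
  obtain ⟨C, hC, hsi⟩ := single_two_up hκ hM
  obtain ⟨C1, hC1, hf⟩ := fam_up hκ hM hM0 A 1 T
  refine ⟨C * C1, (T + 3) / C1 + (T + 4), by positivity, by positivity, fun S => ?_⟩
  set Bad : ℕ → Set Om := fun n => ((⋃ t ∈ range (n ^ T), {ω | ((∀ k ∈ S n t, 2 ≤ k ∧ 2 * k ≤ n) ∧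
    (T + 3) / C1 * Real.log n ^ 3 ≤ (S n t).card) ∧
    (((JJ M n (n ^ 3) (S n t) ω).card : ℝ) ≤ C1 * (S n t).card / Real.log n ∧
    C * (C1 * (S n t).card / Real.log n) / Real.log n ≤ (num M (JJ M n (n ^ 3) (S n t) ω) ω : ℝ))} ∩
      Qe M (n ^ 4) (n ^ 9)) ∪ (Qe M (n ^ 4) (n ^ (2 * 4 + 1)))ᶜ) ∪ (Qe M (n ^ 1) (n ^ (2 * 1 + 1)))ᶜ with hBad
  have hb : ∀ᶠ n : ℕ in atTop, law κ (Bad n) ≤ ENNReal.ofReal (3 / (n : ℝ) ^ 2) := by
    filter_upwards [hsi, q_small hκ hM0 (B := 4) (by omega), q_small hκ hM0 (B := 1) (by omega), ev_log 1,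
      eventually_ge_atTop 3] with n h1 h2 h3 h4 h5
    have hl0 : 0 < Real.log n := by linarith
    have hn0 : (0 : ℝ) < n := by exact_mod_cast (by omega : 0 < n)
    have hn1 : (1 : ℝ) ≤ n := by exact_mod_cast (by omega : 1 ≤ n)
    have h6 : ∀ t ∈ range (n ^ T), law κ ({ω | ((∀ k ∈ S n t, 2 ≤ k ∧ 2 * k ≤ n) ∧
        (T + 3) / C1 * Real.log n ^ 3 ≤ (S n t).card) ∧
        (((JJ M n (n ^ 3) (S n t) ω).card : ℝ) ≤ C1 * (S n t).card / Real.log n ∧
        C * (C1 * (S n t).card / Real.log n) / Real.log n ≤ (num M (JJ M n (n ^ 3) (S n t) ω) ω : ℝ))} ∩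
          Qe M (n ^ 4) (n ^ 9)) ≤ ENNReal.ofReal (1 / (n : ℝ) ^ (T + 3)) := by
      intro t _
      by_cases hco : (∀ k ∈ S n t, 2 ≤ k ∧ 2 * k ≤ n) ∧ (T + 3) / C1 * Real.log n ^ 3 ≤ (S n t).card
      · refine (measure_mono ?_).trans ((h1 (C1 * (S n t).card / Real.log n) (S n t) hco.1).trans
          (ENNReal.ofReal_le_ofReal ?_))
        · rintro ω ⟨hω1, hω2⟩
          exact ⟨hω1.2, hω2⟩
        · have h8 : ((T + 3 : ℕ) : ℝ) * Real.log n ≤ C1 * (S n t).card / Real.log n / Real.log n := by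
            rw [le_div_iff₀ hl0, le_div_iff₀ hl0]
            have h9 := hco.2
            rw [div_mul_eq_mul_div, div_le_iff₀ hC1] at h9
            push_cast
            nlinarith
          rw [← exp_neg_log (by omega)]
          gcongr
      · rw [show ({ω : Om | ((∀ k ∈ S n t, 2 ≤ k ∧ 2 * k ≤ n) ∧
          (T + 3) / C1 * Real.log n ^ 3 ≤ (S n t).card) ∧
          (((JJ M n (n ^ 3) (S n t) ω).card : ℝ) ≤ C1 * (S n t).card / Real.log n ∧
          C * (C1 * (S n t).card / Real.log n) / Real.log n ≤ (num M (JJ M n (n ^ 3) (S n t) ω) ω : ℝ))} ∩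
          Qe M (n ^ 4) (n ^ 9)) = ∅ from Set.eq_empty_of_forall_notMem fun ω hω => hco hω.1.1, measure_empty]
        exact zero_le
    calc law κ (Bad n) ≤ ((∑ t ∈ range (n ^ T), ENNReal.ofReal (1 / (n : ℝ) ^ (T + 3))) +
          ENNReal.ofReal (1 / (n : ℝ) ^ 2)) + ENNReal.ofReal (1 / (n : ℝ) ^ 2) := by
          refine (measure_union_le _ _).trans (add_le_add ((measure_union_le _ _).trans (add_le_add ?_ h2)) h3)
          exact (measure_biUnion_finset_le _ _).trans (sum_le_sum h6)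
      _ = ENNReal.ofReal ((n : ℝ) ^ T * (1 / (n : ℝ) ^ (T + 3)) + 1 / (n : ℝ) ^ 2 + 1 / (n : ℝ) ^ 2) := by
          rw [sum_const, card_range, nsmul_eq_mul, ENNReal.ofReal_add (by positivity) (by positivity),
            ENNReal.ofReal_add (by positivity) (by positivity), ENNReal.ofReal_mul (by positivity)]
          congr 3
          rw [← Nat.cast_pow, ENNReal.ofReal_natCast]
      _ ≤ ENNReal.ofReal (3 / (n : ℝ) ^ 2) := by
          refine ENNReal.ofReal_le_ofReal ?_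
          have h7 : (n : ℝ) ^ T * (1 / (n : ℝ) ^ (T + 3)) = 1 / (n : ℝ) ^ 3 := by
            rw [pow_add]; field_simp
          have h8 : 1 / (n : ℝ) ^ 3 ≤ 1 / (n : ℝ) ^ 2 := by
            apply div_le_div_of_nonneg_left (by norm_num) (by positivity)
            exact pow_le_pow_right₀ hn1 (by norm_num)
          rw [h7]
          calc 1 / (n : ℝ) ^ 3 + 1 / (n : ℝ) ^ 2 + 1 / (n : ℝ) ^ 2 ≤
                1 / (n : ℝ) ^ 2 + 1 / (n : ℝ) ^ 2 + 1 / (n : ℝ) ^ 2 := by linarith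
            _ = 3 / (n : ℝ) ^ 2 := by ring
  filter_upwards [bc κ hb, hf S] with ω hω hω2
  filter_upwards [hω, hω2, ev_log 1, eventually_ge_atTop 6] with n hn hn2 hlog hn6 t ht hco hcard
  have hl0 : 0 < Real.log n := by linarith
  have hS : ∀ k ∈ S n t, 2 ≤ k ∧ 2 * k ≤ n := by
    intro k hk
    have h1 := hco k hk
    refine ⟨?_, h1.2⟩
    by_contra hc
    have : k ^ A ≤ 1 := by
      calc k ^ A ≤ 1 ^ A := Nat.pow_le_pow_left (by omega) A
        _ = 1 := one_pow A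
    omega
  have hQ4 : ω ∈ Qe M (n ^ 4) (n ^ (2 * 4 + 1)) := by
    by_contra h
    exact hn (Or.inl (Or.inr h))
  have hQ1 : ω ∈ Qe M (n - 3) (n ^ 3) := by
    by_contra h
    refine hn (Or.inr fun h2 => h ?_)
    exact Qe_anti (by rw [pow_one]; omega) h2
  have hpos3 : 0 ≤ Real.log n ^ 3 := by positivity
  have hsize : (S n t).card ≤ n := by
    have : S n t ⊆ range (n + 1) := fun k hk => mem_range.2 (by have := (hS k hk).2; omega)
    have h1 : (S n t).card ≤ (range n).card := by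
      refine card_le_card fun k hk => ?_
      have := hS k hk
      exact mem_range.2 (by omega)
    rwa [card_range] at h1
  have h3 : (((S n t).filter (Twin M ω)).card : ℝ) < C1 * (S n t).card / Real.log n := by
    refine hn2 t ht (fun j hj => ⟨(hco j hj).1, by have := (hco j hj).2; rw [pow_one]; omega⟩) (S n t).card hsize
      le_rfl ?_
    calc ((T : ℝ) + 4) * Real.log n ^ 2 ≤ ((T + 3) / C1 + (T + 4)) * Real.log n ^ 3 := by
          have h4 : Real.log n ^ 2 ≤ Real.log n ^ 3 := pow_le_pow_right₀ hlog (by norm_num)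
          have h5 : 0 ≤ (T + 3) / C1 * Real.log n ^ 3 := by positivity
          have h6 : (0 : ℝ) ≤ T := Nat.cast_nonneg T
          nlinarith
      _ ≤ _ := hcard
  have h5 : ((JJ M n (n ^ 3) (S n t) ω).card : ℝ) ≤ C1 * (S n t).card / Real.log n := by
    have : ((JJ M n (n ^ 3) (S n t) ω).card : ℝ) ≤ ((S n t).filter (Twin M ω)).card := by
      exact_mod_cast JJ_le hS ω
    linarith
  have h6 : (num M (JJ M n (n ^ 3) (S n t) ω) ω : ℝ) < C * (C1 * (S n t).card / Real.log n) / Real.log n := by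
    by_contra hlt
    refine hn (Or.inl (Or.inl ?_))
    rw [Set.mem_iUnion₂]
    refine ⟨t, mem_range.2 ht, ⟨⟨hS, ?_⟩, h5, not_lt.1 hlt⟩, hQ4⟩
    calc (T + 3) / C1 * Real.log n ^ 3 ≤ ((T + 3) / C1 + (T + 4)) * Real.log n ^ 3 := by
          have : 0 ≤ ((T : ℝ) + 4) * Real.log n ^ 3 := by positivity
          linarith
      _ ≤ _ := hcard
  have h7 : (((S n t).filter fun k => Twin M ω k ∧ Twin M ω (P M ω (n - k))).card : ℝ) ≤
      num M (JJ M n (n ^ 3) (S n t) ω) ω := by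
    exact_mod_cast reps_le hM hS hQ1
  calc (((S n t).filter fun k => Twin M ω k ∧ Twin M ω (P M ω (n - k))).card : ℝ)
      ≤ C * (C1 * (S n t).card / Real.log n) / Real.log n := h7.trans h6.le
    _ = C * C1 * (S n t).card / Real.log n ^ 2 := by field_simp

end Pool.Agent.W2helper70.CG
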